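import Pool.Agent.Helper57.Lower2

open MeasureTheory ProbabilityTheory Set Filter
open scoped ENNReal Topology

namespace Pool.Agent.Helper57

noncomputable section

open Raw

variable {M h ℓ : ℕ → ℕ}

/-- the first child of the root -/
def v1 : List (Fin b0) := [⟨0, by norm_num⟩]

theorem v1_len : v1.length = 1 := rfl

/-- the starting vertex -/
def x1 : Raw b0 × ℤ := (hub v1 0, 0)

/-- the cluster of the starting vertex reaches level `J` -/
def EJ (M ℓ : ℕ → ℕ) (J : ℕ) : Set (Sym2 (Raw b0 × ℤ) → Bool) :=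
  hits (HG b0 M ℓ) univ {x1} {y | J ≤ (node y.1).length}

theorem prob_EJ (g : Good M h ℓ) {J : ℕ} (hJ : 1 ≤ J) :
    ENNReal.ofReal (1 / 4) ≤ PB p0 _ (EJ M ℓ J) := by
  have h1 := prob_Surv g J (J - 1) v1 (by rw [v1_len]; omega) 0
  refine h1.trans (measure_mono ?_)
  refine hits_mono (subset_univ _) subset_rfl ?_
  rintro x ⟨u, hu, hx⟩
  simp only [mem_ofPred_eq, hx, node, hu, le_refl]

theorem EJ_anti : Antitone (EJ M ℓ) := fun _ _ hJ =>
  hits_mono subset_rfl subset_rfl fun _ hy => hJ.trans hy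

theorem prob_EJ_inf (g : Good M h ℓ) :
    ENNReal.ofReal (1 / 4) ≤ PB p0 _ (⋂ J, EJ M ℓ (J + 1)) := by
  have h1 : Antitone fun J => EJ M ℓ (J + 1) := fun i j hij => EJ_anti (by omega)
  rw [h1.measure_iInter (fun J => (meas_hits _ _ _ _).nullMeasurableSet)
    ⟨0, measure_ne_top _ _⟩]
  exact le_iInf fun J => prob_EJ g (by omega)

theorem prob_hits_root (g : Good M h ℓ) :
    PB p0 _ (hits (HG b0 M ℓ) univ {x1} (Bt b0)) ≤ ENNReal.ofReal (1 / 8) := by
  have h1 : hits (HG b0 M ℓ) univ {x1} (Bt b0) ⊆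
      ⋃ J, hits (HG b0 M ℓ) (Lam b0 J) {x1} (Bt b0) := by
    rintro ω ⟨x, hx, y, hy, hc⟩
    have : ∃ J, Conn (HG b0 M ℓ) ω (Lam b0 J) x y := by
      refine hc.ind (Q := fun y => ∃ J, Conn (HG b0 M ℓ) ω (Lam b0 J) x y)
        ⟨(node x.1).length, Conn.refl (le_refl (node x.1).length)⟩ ?_
      rintro u w _ ⟨J, hJ⟩ huw
      have hmono : Lam b0 J ⊆ Lam b0 (max J (node w.1).length) := fun z hz =>
        (show (node z.1).length ≤ J from hz).trans (le_max_left _ _)
      refine ⟨max J (node w.1).length, (hJ.mono hmono).tail ⟨hmono hJ.right, ?_, huw.2.2⟩⟩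
      exact le_max_right J (node w.1).length
    obtain ⟨J, hJ⟩ := this
    exact mem_iUnion.2 ⟨J, x, hx, y, hy, hJ⟩
  have hmono : Monotone fun J => hits (HG b0 M ℓ) (Lam b0 J) {x1} (Bt b0) := fun i j hij =>
    hits_mono (fun z hz => (show (node z.1).length ≤ i from hz).trans hij) subset_rfl subset_rfl
  refine (measure_mono h1).trans ?_
  rw [hmono.measure_iUnion]
  refine iSup_le fun J => ?_
  refine le_trans ?_ (upper_main g J)
  have h2 := Fv_le_FF (p := p0) (M := M) (ℓ := ℓ) (n := fun j => 512 * h j) (J := J) v1_len 0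
  refine le_trans (measure_mono ?_) h2
  refine hits_mono subset_rfl ?_ subset_rfl
  rw [singleton_subset_iff]
  refine ⟨0, by have := g.M_ge v1.length; omega, rfl, le_rfl, ?_⟩
  have h3 := g.h_pos v1.length
  simp only [x1]
  omega

/-- The good event. -/
def ZZ (M ℓ : ℕ → ℕ) : Set (Sym2 (Raw b0 × ℤ) → Bool) :=
  (⋂ J, EJ M ℓ (J + 1)) \ hits (HG b0 M ℓ) univ {x1} (Bt b0)

theorem prob_ZZ (g : Good M h ℓ) : PB p0 _ (ZZ M ℓ) ≠ 0 := by
  intro h0
  have h1 := prob_EJ_inf g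
  have h2 := prob_hits_root g
  have h3 : (⋂ J, EJ M ℓ (J + 1)) ⊆ ZZ M ℓ ∪ hits (HG b0 M ℓ) univ {x1} (Bt b0) := by
    intro ω hω
    by_cases h : ω ∈ hits (HG b0 M ℓ) univ {x1} (Bt b0)
    · exact Or.inr h
    · exact Or.inl ⟨hω, h⟩
  have h4 := (h1.trans (measure_mono h3)).trans (measure_union_le _ _)
  rw [h0, zero_add] at h4
  have h5 := h4.trans h2
  rw [ENNReal.ofReal_le_ofReal_iff (by norm_num)] at h5
  norm_num at h5

end

end Pool.Agent.Helper57
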