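import Pool.Agent.Helper57.Perc

open MeasureTheory ProbabilityTheory Set
open scoped ENNReal

namespace Pool.Agent.Helper57

noncomputable section

variable {V V' : Type*}

/-- One open step inside `S`. -/
def Stp (H : SimpleGraph V) (ω : Sym2 V → Bool) (S : Set V) (x y : V) : Prop :=
  x ∈ S ∧ y ∈ S ∧ H.Adj x y ∧ ω s(x, y) = true

/-- `x` and `y` are joined by an open path with all vertices in `S`. -/
def Conn (H : SimpleGraph V) (ω : Sym2 V → Bool) (S : Set V) (x y : V) : Prop :=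
  x ∈ S ∧ Relation.ReflTransGen (Stp H ω S) x y

variable {H : SimpleGraph V} {ω ω' : Sym2 V → Bool} {S S' : Set V} {x y z : V}

theorem Stp.symm (h : Stp H ω S x y) : Stp H ω S y x :=
  ⟨h.2.1, h.1, h.2.2.1.symm, by rw [Sym2.eq_swap]; exact h.2.2.2⟩

theorem Stp.mono (hS : S ⊆ S') (h : Stp H ω S x y) : Stp H ω S' x y :=
  ⟨hS h.1, hS h.2.1, h.2.2⟩

theorem Conn.refl (hx : x ∈ S) : Conn H ω S x x := ⟨hx, Relation.ReflTransGen.refl⟩

theorem Conn.tail (h : Conn H ω S x y) (h' : Stp H ω S y z) : Conn H ω S x z :=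
  ⟨h.1, h.2.tail h'⟩

theorem Conn.left (h : Conn H ω S x y) : x ∈ S := h.1

theorem Conn.right (h : Conn H ω S x y) : y ∈ S := by
  obtain ⟨hx, h⟩ := h
  induction h with
  | refl => exact hx
  | tail _ h' _ => exact h'.2.1

theorem Conn.trans (h : Conn H ω S x y) (h' : Conn H ω S y z) : Conn H ω S x z :=
  ⟨h.1, h.2.trans h'.2⟩

theorem Stp.conn (h : Stp H ω S x y) : Conn H ω S x y :=
  ⟨h.1, Relation.ReflTransGen.single h⟩

theorem Conn.symm (h : Conn H ω S x y) : Conn H ω S y x := by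
  refine ⟨h.right, ?_⟩
  obtain ⟨hx, h⟩ := h
  induction h with
  | refl => exact Relation.ReflTransGen.refl
  | tail _ h' ih => exact Relation.ReflTransGen.head h'.symm ih

theorem Conn.mono (hS : S ⊆ S') (h : Conn H ω S x y) : Conn H ω S' x y :=
  ⟨hS h.1, Relation.ReflTransGen.mono (fun _ _ h => Stp.mono hS h) _ _ h.2⟩

/-- Induction principle for `Conn`. -/
theorem Conn.ind {Q : V → Prop} (h : Conn H ω S x y) (h0 : Q x)
    (hs : ∀ u v, Conn H ω S x u → Q u → Stp H ω S u v → Q v) : Q y := by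
  obtain ⟨hx, h⟩ := h
  induction h with
  | refl => exact h0
  | tail h1 h' ih => exact hs _ _ ⟨hx, h1⟩ ih h'

/-- Last exit decomposition. -/
theorem Conn.last_exit {C : Set V} (h : Conn H ω S x y) (hx : x ∈ C) (hy : y ∉ C) :
    ∃ u v, u ∈ C ∧ v ∉ C ∧ Stp H ω S u v ∧ Conn H ω (S \ C) v y := by
  obtain ⟨_, h⟩ := h
  induction h with
  | refl => exact absurd hx hy
  | @tail b c h1 h' ih =>
    by_cases hb : b ∈ C
    · exact ⟨b, c, hb, hy, h', Conn.refl ⟨h'.2.1, hy⟩⟩
    · obtain ⟨u, v, hu, hv, huv, hvb⟩ := ih hb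
      exact ⟨u, v, hu, hv, huv, hvb.tail ⟨⟨h'.1, hb⟩, ⟨h'.2.1, hy⟩, h'.2.2⟩⟩

/-- The configuration edges with both endpoints in `S`. -/
def Ed (S : Set V) : Set (Sym2 V) := {e | ∀ x ∈ e, x ∈ S}

/-- The edges touching `C`. -/
def Tch (C : Set V) : Set (Sym2 V) := {e | ∃ x ∈ e, x ∈ C}

theorem mk_mem_Ed : s(x, y) ∈ Ed S ↔ x ∈ S ∧ y ∈ S := by
  simp [Ed]

theorem mk_mem_Tch : s(x, y) ∈ Tch S ↔ x ∈ S ∨ y ∈ S := by
  simp [Tch]

theorem Ed_mono (h : S ⊆ S') : Ed S ⊆ Ed S' := fun _ he x hx => h (he x hx)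

theorem disjoint_Ed_Tch {C : Set V} (h : Disjoint S C) : Disjoint (Ed S) (Tch C) := by
  refine Set.disjoint_left.2 fun e he ⟨x, hx, hxC⟩ => ?_
  exact Set.disjoint_left.1 h (he x hx) hxC

theorem disjoint_Ed_Ed (h : Disjoint S S') : Disjoint (Ed S) (Ed S') := by
  refine Set.disjoint_left.2 fun e he he' => ?_
  induction e with
  | h x y => exact Set.disjoint_left.1 h (mk_mem_Ed.1 he).1 (mk_mem_Ed.1 he').1

theorem Stp.congr (h : ∀ e ∈ Ed S, ω e = ω' e) (hs : Stp H ω S x y) : Stp H ω' S x y :=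
  ⟨hs.1, hs.2.1, hs.2.2.1, by rw [← h _ (mk_mem_Ed.2 ⟨hs.1, hs.2.1⟩)]; exact hs.2.2.2⟩

theorem Conn.congr (h : ∀ e ∈ Ed S, ω e = ω' e) (hs : Conn H ω S x y) : Conn H ω' S x y :=
  ⟨hs.1, Relation.ReflTransGen.mono (fun _ _ h' => Stp.congr h h') _ _ hs.2⟩

theorem dep_conn (H : SimpleGraph V) (S : Set V) (x y : V) :
    Dep (Ed S) {ω | Conn H ω S x y} := fun _ _ hω =>
  ⟨fun h => h.congr hω, fun h => h.congr fun e he => (hω e he).symm⟩

/-- n-step reachability, for measurability. -/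
def StpN (H : SimpleGraph V) (ω : Sym2 V → Bool) (S : Set V) : ℕ → V → V → Prop
  | 0, x, y => x = y
  | n + 1, x, y => ∃ z, StpN H ω S n x z ∧ Stp H ω S z y

theorem reflTransGen_iff_stpN :
    Relation.ReflTransGen (Stp H ω S) x y ↔ ∃ n, StpN H ω S n x y := by
  constructor
  · intro h
    induction h with
    | refl => exact ⟨0, rfl⟩
    | tail _ h' ih =>
      obtain ⟨n, hn⟩ := ih
      exact ⟨n + 1, _, hn, h'⟩
  · rintro ⟨n, hn⟩
    induction n generalizing y with
    | zero => rw [show x = y from hn]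
    | succ n ih =>
      obtain ⟨z, hz, hzy⟩ := hn
      exact (ih hz).tail hzy

theorem meas_stp (H : SimpleGraph V) (S : Set V) (x y : V) :
    MeasurableSet {ω | Stp H ω S x y} := by
  by_cases h : x ∈ S ∧ y ∈ S ∧ H.Adj x y
  · have : {ω | Stp H ω S x y} = {ω : Sym2 V → Bool | ω s(x, y) = true} := by
      ext ω; simp only [Stp, mem_ofPred_eq]; tauto
    rw [this]; exact meas_coord _ _
  · have : {ω | Stp H ω S x y} = (∅ : Set (Sym2 V → Bool)) := by
      ext ω; simp only [Stp, mem_ofPred_eq, mem_empty_iff_false]; tauto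
    rw [this]; exact MeasurableSet.empty

theorem meas_stpN [Countable V] (H : SimpleGraph V) (S : Set V) (n : ℕ) (x y : V) :
    MeasurableSet {ω | StpN H ω S n x y} := by
  induction n generalizing y with
  | zero => exact MeasurableSet.const _
  | succ n ih =>
    have : {ω | StpN H ω S (n + 1) x y} =
        ⋃ z, {ω | StpN H ω S n x z} ∩ {ω | Stp H ω S z y} := by
      ext ω; simp [StpN]
    rw [this]
    exact MeasurableSet.iUnion fun z => (ih z).inter (meas_stp H S z y)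

theorem meas_conn [Countable V] (H : SimpleGraph V) (S : Set V) (x y : V) :
    MeasurableSet {ω | Conn H ω S x y} := by
  by_cases hx : x ∈ S
  · have : {ω | Conn H ω S x y} = ⋃ n, {ω | StpN H ω S n x y} := by
      ext ω
      simp only [Conn, mem_ofPred_eq, hx, true_and, mem_iUnion, reflTransGen_iff_stpN]
    rw [this]
    exact MeasurableSet.iUnion fun n => meas_stpN H S n x y
  · have : {ω | Conn H ω S x y} = (∅ : Set (Sym2 V → Bool)) := by
      ext ω
      simp only [Conn, mem_ofPred_eq, hx, false_and, mem_empty_iff_false]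
    rw [this]
    exact MeasurableSet.empty

/-- `A` is joined to `B` inside `S`. -/
def hits (H : SimpleGraph V) (S A B : Set V) : Set (Sym2 V → Bool) :=
  {ω | ∃ a ∈ A, ∃ b ∈ B, Conn H ω S a b}

theorem hits_eq (H : SimpleGraph V) (S A B : Set V) :
    hits H S A B = ⋃ a ∈ A, ⋃ b ∈ B, {ω | Conn H ω S a b} := by
  ext ω; simp [hits]

theorem meas_hits [Countable V] (H : SimpleGraph V) (S A B : Set V) :
    MeasurableSet (hits H S A B) := by
  rw [hits_eq]
  exact MeasurableSet.biUnion (to_countable _) fun a _ =>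
    MeasurableSet.biUnion (to_countable _) fun b _ => meas_conn H S a b

theorem dep_hits (H : SimpleGraph V) (S A B : Set V) : Dep (Ed S) (hits H S A B) := by
  rw [hits_eq]
  exact Dep.iUnion fun a => Dep.iUnion fun _ => Dep.iUnion fun b => Dep.iUnion fun _ =>
    dep_conn H S a b

theorem hits_mono {A A' B B' : Set V} (hS : S ⊆ S') (hA : A ⊆ A') (hB : B ⊆ B') :
    hits H S A B ⊆ hits H S' A' B' := by
  rintro ω ⟨a, ha, b, hb, h⟩
  exact ⟨a, hA ha, b, hB hb, h.mono hS⟩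

/-- The cluster of `A` inside `S`. -/
def clus (H : SimpleGraph V) (ω : Sym2 V → Bool) (S A : Set V) : Set V :=
  {y | ∃ a ∈ A, Conn H ω S a y}

theorem clus_subset {A : Set V} : clus H ω S A ⊆ S := fun _ ⟨_, _, h⟩ => h.right

/-- The event that the cluster of `A` in `S` has an open edge to a vertex of `W` outside `S`. -/
def exits (H : SimpleGraph V) (S A W : Set V) : Set (Sym2 V → Bool) :=
  {ω | ∃ y ∈ clus H ω S A, ∃ z ∈ W, z ∉ S ∧ H.Adj y z ∧ ω s(y, z) = true}

theorem meas_exits [Countable V] (H : SimpleGraph V) (S A W : Set V) :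
    MeasurableSet (exits H S A W) := by
  have : exits H S A W = ⋃ a ∈ A, ⋃ y, ⋃ z ∈ {z | z ∈ W ∧ z ∉ S ∧ H.Adj y z},
      ({ω | Conn H ω S a y} ∩ {ω | ω s(y, z) = true}) := by
    ext ω
    simp only [exits, clus, mem_ofPred_eq, mem_iUnion, mem_inter_iff, exists_prop]
    constructor
    · rintro ⟨y, ⟨a, ha, hc⟩, z, hz, hzS, hyz, ho⟩
      exact ⟨a, ha, y, z, ⟨hz, hzS, hyz⟩, hc, ho⟩
    · rintro ⟨a, ha, y, z, ⟨hz, hzS, hyz⟩, hc, ho⟩
      exact ⟨y, ⟨a, ha, hc⟩, z, hz, hzS, hyz, ho⟩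
  rw [this]
  refine MeasurableSet.biUnion (to_countable _) fun a _ => MeasurableSet.iUnion fun y =>
    MeasurableSet.biUnion (to_countable _) fun z _ => ?_
  exact (meas_conn H S a y).inter (meas_coord _ _)

theorem exits_mono {A A' W W' : Set V} (hA : A ⊆ A') (hW : W ⊆ W') :
    exits H S A W ⊆ exits H S A' W' := by
  rintro ω ⟨y, ⟨a, ha, hc⟩, z, hz, h⟩
  exact ⟨y, ⟨a, hA ha, hc⟩, z, hW hz, h⟩

/-- The cluster being exactly `C` depends only on the edges touching `C`. -/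
theorem clus_eq_of_agree {A C : Set V} (hω : ∀ e ∈ Tch C, ω e = ω' e)
    (h : clus H ω S A = C) : clus H ω' S A = C := by
  apply Subset.antisymm
  · rintro y ⟨a, ha, hc⟩
    have haC : a ∈ C := by rw [← h]; exact ⟨a, ha, Conn.refl hc.left⟩
    refine hc.ind (Q := fun y => y ∈ C) haC fun u v _ hu huv => ?_
    have : Stp H ω S u v := ⟨huv.1, huv.2.1, huv.2.2.1, by
      rw [hω _ (mk_mem_Tch.2 (Or.inl hu))]; exact huv.2.2.2⟩
    rw [← h] at hu ⊢
    obtain ⟨a', ha', hc'⟩ := hu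
    exact ⟨a', ha', hc'.tail this⟩
  · intro y hy
    rw [← h] at hy
    obtain ⟨a, ha, hc⟩ := hy
    refine ⟨a, ha, ?_⟩
    refine hc.ind (Q := fun y => Conn H ω' S a y) (Conn.refl hc.left) fun u v hu hu' huv => ?_
    refine hu'.tail ⟨huv.1, huv.2.1, huv.2.2.1, ?_⟩
    rw [← hω _ (mk_mem_Tch.2 (Or.inl ?_))]
    · exact huv.2.2.2
    · rw [← h]; exact ⟨a, ha, hu⟩

theorem dep_clus (H : SimpleGraph V) (S A C : Set V) :
    Dep (Tch C) {ω | clus H ω S A = C} := fun _ _ hω =>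
  ⟨fun h => clus_eq_of_agree hω h, fun h => clus_eq_of_agree (fun e he => (hω e he).symm) h⟩

theorem meas_clus [Countable V] (H : SimpleGraph V) (S A C : Set V) :
    MeasurableSet {ω | clus H ω S A = C} := by
  have : {ω | clus H ω S A = C} = ⋂ y, {ω | y ∈ clus H ω S A ↔ y ∈ C} := by
    ext ω; simp only [mem_ofPred_eq, mem_iInter, Set.ext_iff]
  rw [this]
  refine MeasurableSet.iInter fun y => ?_
  have h1 : MeasurableSet {ω | y ∈ clus H ω S A} := by
    have : {ω | y ∈ clus H ω S A} = ⋃ a ∈ A, {ω | Conn H ω S a y} := by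
      ext ω; simp [clus]
    rw [this]
    exact MeasurableSet.biUnion (to_countable _) fun a _ => meas_conn H S a y
  by_cases hy : y ∈ C
  · simpa [hy] using h1
  · have h2 := h1.compl
    have : {ω | y ∈ clus H ω S A}ᶜ = {ω | y ∈ clus H ω S A ↔ y ∈ C} := by
      ext ω; simp [hy]
    rwa [this] at h2

end

end Pool.Agent.Helper57
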