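import Pool.Agent.Helper57.Conn

/-!
# A cluster that meets one fiber infinitely often meets every neighbouring fiber infinitely often
-/

open MeasureTheory ProbabilityTheory Set Filter
open scoped ENNReal Topology

namespace Pool.Agent.Helper57

noncomputable section

variable {V : Type*} {p : unitInterval}

/-- the rungs far from the origin -/
def farR (a c : ℤ → V) (N : ℕ) : Set (Sym2 V) := {e | ∃ n : ℤ, N ≤ n.natAbs ∧ e = s(a n, c n)}

open Classical in
/-- closing all far rungs -/
def kill (a c : ℤ → V) (N : ℕ) (ω : Sym2 V → Bool) : Sym2 V → Bool :=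
  fun e => if e ∈ farR a c N then false else ω e

theorem kill_meas (a c : ℤ → V) (N : ℕ) : Measurable (kill a c N) := by
  refine measurable_pi_lambda _ fun e => ?_
  by_cases he : e ∈ farR a c N
  · have : (fun ω : Sym2 V → Bool => kill a c N ω e) = fun _ => false := by
      funext ω; simp [kill, he]
    rw [this]
    exact measurable_const
  · have : (fun ω : Sym2 V → Bool => kill a c N ω e) = fun ω => ω e := by
      funext ω; simp [kill, he]
    rw [this]
    exact measurable_pi_apply e

theorem kill_congr {a c : ℤ → V} {N : ℕ} {ω ω' : Sym2 V → Bool}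
    (h : ∀ e ∈ (farR a c N)ᶜ, ω e = ω' e) : kill a c N ω = kill a c N ω' := by
  funext e
  by_cases he : e ∈ farR a c N
  · simp [kill, he]
  · simp [kill, he, h e he]

/-- If the cluster does not meet the far part of the second fiber, closing the far rungs does not
change it. -/
theorem conn_kill {H : SimpleGraph V} {a c : ℤ → V} {N : ℕ} {ω : Sym2 V → Bool} {x z : V}
    (hN : ∀ n : ℤ, N ≤ n.natAbs → ¬ Conn H ω univ x (c n)) (h : Conn H ω univ x z) :
    Conn H (kill a c N ω) univ x z := by
  refine h.ind (Q := fun z => Conn H (kill a c N ω) univ x z) (Conn.refl trivial) ?_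
  intro u w hxu ih huw
  refine ih.tail ⟨trivial, trivial, huw.2.2.1, ?_⟩
  have hne : s(u, w) ∉ farR a c N := by
    rintro ⟨n, hn, he⟩
    rw [Sym2.eq_iff] at he
    rcases he with ⟨_, h2⟩ | ⟨h1, _⟩
    · exact hN n hn (by rw [← h2]; exact hxu.tail huw)
    · exact hN n hn (by rw [← h1]; exact hxu)
  simp [kill, hne, huw.2.2.2]

open Classical in
/-- the rungs (with labels in `s`) starting in the cluster, the far rungs being closed -/
def DD (H : SimpleGraph V) (a c : ℤ → V) (N : ℕ) (x : V) (s : Finset ℤ)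
    (ω : Sym2 V → Bool) : Finset s :=
  Finset.univ.filter fun i : s => Conn H (kill a c N ω) univ x (a (i : ℤ))

theorem mem_DD {H : SimpleGraph V} {a c : ℤ → V} {N : ℕ} {x : V} {s : Finset ℤ}
    {ω : Sym2 V → Bool} {i : s} :
    i ∈ DD H a c N x s ω ↔ Conn H (kill a c N ω) univ x (a (i : ℤ)) := by
  simp [DD]

/-- Few far rungs from the cluster (with the far rungs closed) are all closed. -/
theorem prob_closed [Countable V] {H : SimpleGraph V} {a c : ℤ → V}
    (hinj : Function.Injective fun n => s(a n, c n)) (N : ℕ) (x : V) (s : Finset ℤ)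
    (hs : ∀ n ∈ s, N ≤ n.natAbs) (r : ℕ) :
    PB p _ {ω | r ≤ (DD H a c N x s ω).card ∧
      ∀ i ∈ DD H a c N x s ω, ω ∈ {ω : Sym2 V → Bool | ω s(a (i : ℤ), c (i : ℤ)) = false}} ≤
      ENNReal.ofReal (1 - (p : ℝ)) ^ r := by
  classical
  refine PB_closure (p := p) (T0 := (farR a c N)ᶜ) (DD H a c N x s)
    ?_ ?_ (T := fun i : s => {s(a (i : ℤ), c (i : ℤ))})
    (C := fun i : s => {ω : Sym2 V → Bool | ω s(a (i : ℤ), c (i : ℤ)) = false})
    (fun i => meas_coord _ _) (fun i => dep_coord (mem_singleton _) _) ?_ ?_ ?_ ?_ r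
  · intro d
    have : {ω | DD H a c N x s ω = d} =
        ⋂ i : s, {ω | Conn H (kill a c N ω) univ x (a (i : ℤ)) ↔ i ∈ d} := by
      ext ω
      simp only [mem_ofPred_eq, mem_iInter, Finset.ext_iff, mem_DD]
    rw [this]
    refine MeasurableSet.iInter fun i => ?_
    have hm : MeasurableSet {ω | Conn H (kill a c N ω) univ x (a (i : ℤ))} :=
      (kill_meas a c N) (meas_conn H univ x (a (i : ℤ)))
    by_cases hi : i ∈ d
    · have h2 : {ω | Conn H (kill a c N ω) univ x (a (i : ℤ)) ↔ i ∈ d} =
          {ω | Conn H (kill a c N ω) univ x (a (i : ℤ))} := by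
        ext ω; simp [hi]
      rw [h2]; exact hm
    · have h2 : {ω | Conn H (kill a c N ω) univ x (a (i : ℤ)) ↔ i ∈ d} =
          {ω | Conn H (kill a c N ω) univ x (a (i : ℤ))}ᶜ := by
        ext ω; simp [hi]
      rw [h2]; exact hm.compl
  · intro d ω ω' hω
    have : DD H a c N x s ω = DD H a c N x s ω' := by
      ext i
      rw [mem_DD, mem_DD, kill_congr hω]
    simp only [mem_ofPred_eq, this]
  · intro i j hij
    rw [disjoint_singleton]
    intro h
    exact hij (Subtype.ext (hinj h))
  · intro i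
    rw [Set.disjoint_left]
    rintro e he rfl
    exact he ⟨i, hs i i.2, rfl⟩
  · rw [← ENNReal.ofReal_one]
    exact ENNReal.ofReal_le_ofReal (by linarith [p.2.1])
  · intro i
    rw [PB_false]

/-- The cluster of `x` meets the first fiber infinitely often and the second one only at height
less than `N`. -/
def badE (H : SimpleGraph V) (a c : ℤ → V) (x : V) (N : ℕ) : Set (Sym2 V → Bool) :=
  {ω | {n : ℤ | Conn H ω univ x (a n)}.Infinite ∧
    ∀ n : ℤ, N ≤ n.natAbs → ¬ Conn H ω univ x (c n)}

theorem prob_badE_le [Countable V] {H : SimpleGraph V} {a c : ℤ → V} (hadj : ∀ n, H.Adj (a n) (c n))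
    (hinj : Function.Injective fun n => s(a n, c n)) (x : V) (N r : ℕ) :
    PB p _ (badE H a c x N) ≤ ENNReal.ofReal (1 - (p : ℝ)) ^ r := by
  classical
  set AR : ℕ → Set (Sym2 V → Bool) := fun R => {ω | ω ∈ badE H a c x N ∧
    ∃ F : Finset ℤ, r ≤ F.card ∧ ∀ n ∈ F, N ≤ n.natAbs ∧ n.natAbs ≤ R ∧
      Conn H ω univ x (a n)} with hAR
  have hU : badE H a c x N = ⋃ R, AR R := by
    ext ω
    simp only [mem_iUnion]
    constructor
    · intro hω
      have h1 : ({n : ℤ | Conn H ω univ x (a n)} \ {n : ℤ | n.natAbs < N}).Infinite := by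
        refine hω.1.sdiff ?_
        refine (Set.finite_Icc (-(N : ℤ)) N).subset ?_
        intro n hn
        simp only [mem_ofPred_eq] at hn
        simp only [mem_Icc]
        omega
      obtain ⟨F, hF, hFr⟩ := h1.exists_subset_card_eq r
      refine ⟨F.sup Int.natAbs, hω, F, hFr.ge, ?_⟩
      intro n hn
      have h2 := hF (Finset.mem_coe.2 hn)
      have h3 : ¬ n.natAbs < N := h2.2
      exact ⟨by omega, Finset.le_sup (f := Int.natAbs) hn, h2.1⟩
    · rintro ⟨R, hR⟩
      exact hR.1
  have hmono : Monotone AR := by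
    intro R R' hRR ω hω
    obtain ⟨h1, F, h2, h3⟩ := hω
    exact ⟨h1, F, h2, fun n hn => ⟨(h3 n hn).1, (h3 n hn).2.1.trans hRR, (h3 n hn).2.2⟩⟩
  rw [hU, hmono.measure_iUnion]
  refine iSup_le fun R => ?_
  set s : Finset ℤ := (Finset.Icc (-(R : ℤ)) R).filter fun n => N ≤ n.natAbs with hs
  refine (measure_mono ?_).trans (prob_closed (p := p) (H := H) hinj N x s ?_ r)
  · rintro ω ⟨hbad, F, hF1, hF2⟩
    have hkill : ∀ z, Conn H ω univ x z → Conn H (kill a c N ω) univ x z :=
      fun z hz => conn_kill hbad.2 hz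
    refine ⟨hF1.trans ?_, ?_⟩
    · have hsub : F ⊆ (DD H a c N x s ω).map (Function.Embedding.subtype _) := by
        intro n hn
        rw [Finset.mem_map]
        obtain ⟨h1, h2, h3⟩ := hF2 n hn
        have hns : n ∈ s := by
          rw [hs, Finset.mem_filter, Finset.mem_Icc]
          omega
        exact ⟨⟨n, hns⟩, mem_DD.2 (hkill _ h3), rfl⟩
      have := Finset.card_le_card hsub
      rwa [Finset.card_map] at this
    · intro i hi
      rw [mem_DD] at hi
      have hiN : N ≤ (i : ℤ).natAbs := by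
        have h6 : (i : ℤ) ∈ (Finset.Icc (-(R : ℤ)) R).filter fun n => N ≤ n.natAbs := i.2
        exact (Finset.mem_filter.1 h6).2
      simp only [mem_ofPred_eq]
      by_contra hc
      have hopen : ω s(a i, c i) = true := by
        cases h : ω s(a i, c i)
        · exact absurd h hc
        · rfl
      have hback : Conn H ω univ x (a i) := by
        refine hi.ind (Q := fun z => Conn H ω univ x z) (Conn.refl trivial) ?_
        intro u w _ ih huw
        refine ih.tail ⟨trivial, trivial, huw.2.2.1, ?_⟩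
        have h4 := huw.2.2.2
        unfold kill at h4
        split_ifs at h4 with h5
        exact h4
      exact hbad.2 i hiN (hback.tail ⟨trivial, trivial, hadj i, hopen⟩)
  · intro n hn
    rw [hs, Finset.mem_filter] at hn
    exact hn.2

/-- Almost surely, if the cluster of `x` meets a fiber infinitely often, it meets each
neighbouring fiber infinitely often. -/
theorem prob_badE [Countable V] {H : SimpleGraph V} (hp : 0 < (p : ℝ)) {a c : ℤ → V}
    (hadj : ∀ n, H.Adj (a n) (c n)) (hinj : Function.Injective fun n => s(a n, c n)) (x : V) :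
    PB p _ {ω | {n : ℤ | Conn H ω univ x (a n)}.Infinite ∧
      {n : ℤ | Conn H ω univ x (c n)}.Finite} = 0 := by
  have hsub : {ω | {n : ℤ | Conn H ω univ x (a n)}.Infinite ∧
      {n : ℤ | Conn H ω univ x (c n)}.Finite} ⊆ ⋃ N, badE H a c x N := by
    rintro ω ⟨h1, h2⟩
    obtain ⟨B, hB⟩ := (h2.image Int.natAbs).bddAbove
    refine mem_iUnion.2 ⟨B + 1, h1, fun n hn hc => ?_⟩
    have := hB (mem_image_of_mem Int.natAbs (show n ∈ {n : ℤ | Conn H ω univ x (c n)} from hc))
    omega
  refine measure_mono_null hsub (measure_iUnion_null fun N => ?_)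
  rw [← nonpos_iff_eq_zero]
  have hlt : ENNReal.ofReal (1 - (p : ℝ)) < 1 := by
    rw [← ENNReal.ofReal_one]
    exact (ENNReal.ofReal_lt_ofReal_iff (by norm_num)).2 (by linarith)
  exact ge_of_tendsto' (ENNReal.tendsto_pow_atTop_nhds_zero_of_lt_one hlt)
    fun r => prob_badE_le hadj hinj x N r

end

end Pool.Agent.Helper57
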