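import Pool.Agent.Helper57.Fin
import Pool.Agent.Helper57.FibInf

/-!
# An infinite cluster that meets every fiber in a finite set
-/

open MeasureTheory ProbabilityTheory Set Filter
open scoped ENNReal Topology

namespace Pool.Agent.Helper57

noncomputable section

open Raw

variable {M h ℓ : ℕ → ℕ}

theorem p0_pos : 0 < ((p0 : unitInterval) : ℝ) := by rw [p0_val]; norm_num

/-- the cluster of the starting vertex meets the fiber over `u` infinitely often and the fiber
over the neighbour `w` only finitely often -/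
def badP (M ℓ : ℕ → ℕ) (q : Raw b0 × Raw b0) : Set (Sym2 (Raw b0 × ℤ) → Bool) :=
  {ω | (G0 b0 M ℓ).Adj q.1 q.2 ∧ {n : ℤ | Conn (HG b0 M ℓ) ω univ x1 (q.1, n)}.Infinite ∧
    {n : ℤ | Conn (HG b0 M ℓ) ω univ x1 (q.2, n)}.Finite}

theorem prob_badP (q : Raw b0 × Raw b0) : PB p0 _ (badP M ℓ q) = 0 := by
  by_cases hadj : (G0 b0 M ℓ).Adj q.1 q.2
  · have h1 := prob_badE (p := p0) (H := HG b0 M ℓ) p0_pos
      (a := fun n => (q.1, n)) (c := fun n => (q.2, n))
      (fun n => Or.inl ⟨hadj, rfl⟩) ?_ x1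
    · refine measure_mono_null ?_ h1
      rintro ω ⟨_, h2⟩
      exact h2
    · intro m n hmn
      simp only [Sym2.eq_iff, Prod.mk.injEq] at hmn
      rcases hmn with ⟨⟨_, h1⟩, _⟩ | ⟨⟨_, h1⟩, _⟩
      · exact h1
      · exact h1
  · have : badP M ℓ q = ∅ := by
      ext ω
      simp only [badP, mem_ofPred_eq, mem_empty_iff_false, iff_false]
      exact fun h => hadj h.1
    rw [this, measure_empty]

/-- the exceptional null set -/
def badA (M ℓ : ℕ → ℕ) : Set (Sym2 (Raw b0 × ℤ) → Bool) := ⋃ q, badP M ℓ q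

theorem prob_badA : PB p0 _ (badA M ℓ) = 0 := measure_iUnion_null fun q => prob_badP q

theorem fib_finite (hM : ∀ j, 1 ≤ M j) (hl : ∀ j, 1 ≤ ℓ j) {ω : Sym2 (Raw b0 × ℤ) → Bool}
    (hω : ω ∈ ZZ M ℓ) (hb : ω ∉ badA M ℓ) (v : VV b0 M ℓ) :
    Set.Finite {n : ℤ | (PG b0 M ℓ ⊓ SimpleGraph.fromEdgeSet (xi b0 M ℓ ω)).Reachable (xs hM)
      (v, n)} := by
  have key : ∀ u : Raw b0, (G0 b0 M ℓ).Reachable u (hub [] 0) →
      {n : ℤ | Conn (HG b0 M ℓ) ω univ x1 (u, n)}.Finite := by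
    intro u hu
    obtain ⟨w⟩ := hu
    by_contra hinf
    have h2 : ∀ {a c : Raw b0}, (G0 b0 M ℓ).Walk a c →
        {n : ℤ | Conn (HG b0 M ℓ) ω univ x1 (a, n)}.Infinite →
        {n : ℤ | Conn (HG b0 M ℓ) ω univ x1 (c, n)}.Infinite := by
      intro a c w
      induction w with
      | nil => exact fun h => h
      | @cons a c d hadj w ih =>
        intro ha
        apply ih
        intro hc
        exact hb (mem_iUnion.2 ⟨(a, c), hadj, ha, hc⟩)
    have h3 := h2 w hinf
    apply h3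
    have h4 : {n : ℤ | Conn (HG b0 M ℓ) ω univ x1 (hub [] 0, n)} = ∅ := by
      ext n
      simp only [mem_ofPred_eq, mem_empty_iff_false, iff_false]
      intro hc
      exact hω.2 ⟨x1, rfl, (hub [] 0, n), ⟨0, rfl⟩, hc⟩
    rw [h4]
    exact Set.finite_empty
  refine (key v.1 (reach_all hM hl v.2)).subset ?_
  intro n hn
  exact reach_imp hn

end

end Pool.Agent.Helper57
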