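import Pool.Agent.Helper57.PC2

open MeasureTheory ProbabilityTheory Set Filter
open scoped ENNReal Topology

namespace Pool.Agent.Helper57

noncomputable section

open Raw

variable {b : ℕ} {M h ℓ : ℕ → ℕ}

/-- inclusion of the product vertex set into the raw one -/
def inc (x : VV b M ℓ × ℤ) : Raw b × ℤ := (x.1.1, x.2)

theorem inc_inj : Function.Injective (inc (b := b) (M := M) (ℓ := ℓ)) := by
  rintro ⟨⟨x, hx⟩, m⟩ ⟨⟨y, hy⟩, n⟩ h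
  simp only [inc, Prod.mk.injEq] at h
  obtain ⟨rfl, rfl⟩ := h
  rfl

/-- the product graph -/
abbrev PG (b : ℕ) (M ℓ : ℕ → ℕ) : SimpleGraph (VV b M ℓ × ℤ) :=
  SimpleGraph.boxProd (GG b M ℓ) (SimpleGraph.hasse ℤ)

theorem PG_adj {x y : VV b M ℓ × ℤ} : (PG b M ℓ).Adj x y ↔ (HG b M ℓ).Adj (inc x) (inc y) := by
  rw [HG_eq]
  simp only [SimpleGraph.boxProd_adj, inc, GG, SimpleGraph.comap_adj, Subtype.ext_iff]

/-- the random edge set -/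
def xi (b : ℕ) (M ℓ : ℕ → ℕ) (ω : Sym2 (Raw b × ℤ) → Bool) : Set (Sym2 (VV b M ℓ × ℤ)) :=
  {e | ω (e.map inc) = true}

theorem xi_meas (e : Sym2 (VV b M ℓ × ℤ)) : MeasurableSet {ω | e ∈ xi b M ℓ ω} :=
  meas_coord _ _

theorem xi_prob {p : unitInterval} (e : Sym2 (VV b M ℓ × ℤ)) :
    PB p _ {ω | e ∈ xi b M ℓ ω} = ENNReal.ofReal (p : ℝ) := PB_true _

theorem xi_indep {p : unitInterval} :
    iIndepSet (fun e : Sym2 (VV b M ℓ × ℤ) => {ω | e ∈ xi b M ℓ ω}) (PB p _) := by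
  rw [iIndepSet_iff_meas_biInter (fun e => xi_meas e)]
  intro s
  refine PB_biInter s (T := fun e => {e.map inc}) (fun e _ => xi_meas e)
    (fun e _ => dep_coord (mem_singleton _) _) ?_
  intro e _ f _ hne
  rw [disjoint_singleton]
  exact fun h => hne (Sym2.map.injective inc_inj h)

theorem reach_imp {ω : Sym2 (Raw b × ℤ) → Bool} {x y : VV b M ℓ × ℤ}
    (h : (PG b M ℓ ⊓ SimpleGraph.fromEdgeSet (xi b M ℓ ω)).Reachable x y) :
    Conn (HG b M ℓ) ω univ (inc x) (inc y) := by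
  obtain ⟨w⟩ := h
  induction w with
  | nil => exact Conn.refl trivial
  | @cons a c d hadj w ih =>
    have h1 := hadj.2
    rw [SimpleGraph.fromEdgeSet_adj] at h1
    have h2 : Stp (HG b M ℓ) ω univ (inc a) (inc c) := by
      refine ⟨trivial, trivial, PG_adj.1 hadj.1, ?_⟩
      have h3 := h1.1
      simp only [xi, mem_ofPred_eq, Sym2.map_mk] at h3
      exact h3
    exact h2.conn.trans ih

theorem imp_reach {ω : Sym2 (Raw b × ℤ) → Bool} {x : VV b M ℓ × ℤ} {z : Raw b × ℤ}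
    (h : Conn (HG b M ℓ) ω univ (inc x) z) :
    ∃ y : VV b M ℓ × ℤ, inc y = z ∧
      (PG b M ℓ ⊓ SimpleGraph.fromEdgeSet (xi b M ℓ ω)).Reachable x y := by
  refine h.ind (Q := fun z => ∃ y : VV b M ℓ × ℤ, inc y = z ∧
      (PG b M ℓ ⊓ SimpleGraph.fromEdgeSet (xi b M ℓ ω)).Reachable x y)
      ⟨x, rfl, SimpleGraph.Reachable.refl _⟩ ?_
  rintro u v _ ⟨y, rfl, hy⟩ huv
  have hv : valid M ℓ v.1 := by
    rcases huv.2.2.1 with ⟨h1, _⟩ | ⟨h1, _⟩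
    · exact h1.2.1
    · rw [← h1]; exact y.1.2
  refine ⟨(⟨v.1, hv⟩, v.2), rfl, hy.trans ?_⟩
  have h1 : (PG b M ℓ).Adj y (⟨v.1, hv⟩, v.2) := PG_adj.2 huv.2.2.1
  have h2 : (PG b M ℓ ⊓ SimpleGraph.fromEdgeSet (xi b M ℓ ω)).Adj y (⟨v.1, hv⟩, v.2) := by
    refine ⟨h1, ?_⟩
    rw [SimpleGraph.fromEdgeSet_adj]
    refine ⟨?_, h1.ne⟩
    simp only [xi, mem_ofPred_eq, Sym2.map_mk]
    exact huv.2.2.2
  exact h2.reachable

/-- starting vertex -/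
def xs (hM : ∀ j, 1 ≤ M j) : VV b0 M ℓ × ℤ := (⟨hub v1 0, hM _⟩, 0)

theorem ZZ_infinite (hM : ∀ j, 1 ≤ M j) {ω : Sym2 (Raw b0 × ℤ) → Bool} (hω : ω ∈ ZZ M ℓ) :
    Set.Infinite {y : VV b0 M ℓ × ℤ |
      (PG b0 M ℓ ⊓ SimpleGraph.fromEdgeSet (xi b0 M ℓ ω)).Reachable (xs hM) y} := by
  intro hfin
  obtain ⟨N, hN⟩ := (hfin.image (fun y => (node y.1.1).length)).bddAbove
  have h1 := mem_iInter.1 hω.1 N
  obtain ⟨x, hx, z, hz, hc⟩ := h1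
  rw [mem_singleton_iff] at hx
  subst hx
  obtain ⟨y, rfl, hy⟩ := imp_reach (x := xs hM) hc
  have h2 := hN (mem_image_of_mem _ hy)
  have h3 : N + 1 ≤ (node (inc y).1).length := hz
  simp only [inc] at h3
  omega

theorem ZZ_miss (hM : ∀ j, 1 ≤ M j) {ω : Sym2 (Raw b0 × ℤ) → Bool} (hω : ω ∈ ZZ M ℓ) :
    {n : ℤ | (PG b0 M ℓ ⊓ SimpleGraph.fromEdgeSet (xi b0 M ℓ ω)).Reachable (xs hM)
      ((⟨hub [] 0, hM _⟩ : VV b0 M ℓ), n)} = ∅ := by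
  ext n
  simp only [mem_ofPred_eq, mem_empty_iff_false, iff_false]
  intro hr
  apply hω.2
  exact ⟨x1, rfl, (hub [] 0, n), ⟨0, rfl⟩, reach_imp hr⟩

end

end Pool.Agent.Helper57
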