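import Mathlib

open Finset

namespace Pool.Agent.Helper57

theorem one_add_pow_le {t : ℝ} (ht : 0 ≤ t) {M : ℕ} (h : 4 * (M : ℝ) * t ≤ 1) :
    (1 + t) ^ M ≤ 1 + 2 * (M * t) := by
  have h1 : (1 + t) ^ M ≤ Real.exp (M * t) := by
    calc (1 + t) ^ M ≤ (Real.exp t) ^ M := by
          gcongr
          rw [add_comm]; exact Real.add_one_le_exp t
      _ = Real.exp (M * t) := by rw [← Real.exp_nat_mul]
  set y : ℝ := M * t with hy
  have hy0 : 0 ≤ y := by positivity
  have hy1 : y ≤ 1 / 4 := by rw [hy]; linarith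
  have h2 : Real.exp y ≤ 1 / (1 - y) :=
    Real.exp_bound_div_one_sub_of_interval hy0 (by linarith)
  have h3 : 1 / (1 - y) ≤ 1 + 2 * y := by
    rw [div_le_iff₀ (by linarith)]
    nlinarith
  linarith

theorem card_ineq {M c : ℕ} (hM : 8 ≤ M) (h1 : 2 ≤ c) (h2 : c + 2 ≤ M) :
    (M + c * (M / 8) ≤ c * (M - c)) ∨ (M + (M - c) * (M / 8) ≤ c * (M - c)) := by
  obtain ⟨d, rfl⟩ : ∃ d, M = c + d := ⟨M - c, by omega⟩
  have hd : 2 ≤ d := by omega
  rw [Nat.add_sub_cancel_left]
  set q := (c + d) / 8 with hq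
  have hq8 : 8 * q ≤ c + d := Nat.mul_div_le _ _
  rcases le_total c d with hcd | hcd
  · left
    -- c ≤ d, c + d ≤ 2d
    rcases Nat.lt_or_ge c 4 with h4 | h4
    · interval_cases c
      · nlinarith
      · nlinarith
    · have e1 : c * (8 * q) ≤ c * (c + d) := Nat.mul_le_mul_left c hq8
      have e2 : c * c ≤ c * d := Nat.mul_le_mul_left c hcd
      have e3 : 4 * d ≤ c * d := Nat.mul_le_mul_right d h4
      nlinarith
  · right
    rcases Nat.lt_or_ge d 4 with h4 | h4
    · interval_cases d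
      · nlinarith
      · nlinarith
    · have e1 : d * (8 * q) ≤ d * (c + d) := Nat.mul_le_mul_left d hq8
      have e2 : d * d ≤ c * d := Nat.mul_le_mul_right d hcd
      have e3 : c * 4 ≤ c * d := Nat.mul_le_mul_left c h4
      nlinarith

theorem sum_cuts {x : ℝ} (hx0 : 0 ≤ x) (hx1 : x ≤ 1) {M : ℕ} (hM : 8 ≤ M)
    (h : 4 * (M : ℝ) * x ^ (M / 8) ≤ 1) :
    ∑ C ∈ (Finset.univ : Finset (Finset (Fin M))).filter (fun C => 2 ≤ C.card ∧ C.card + 2 ≤ M),
      x ^ (C.card * (M - C.card)) ≤ x ^ M := by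
  classical
  set t : ℝ := x ^ (M / 8) with ht
  have ht0 : 0 ≤ t := by positivity
  have key : ∀ C ∈ (Finset.univ : Finset (Finset (Fin M))).filter
      (fun C => 2 ≤ C.card ∧ C.card + 2 ≤ M),
      x ^ (C.card * (M - C.card)) ≤ x ^ M * (t ^ C.card + t ^ (Cᶜ).card) := by
    intro C hC
    rw [mem_filter] at hC
    have hc : (Cᶜ).card = M - C.card := by rw [card_compl, Fintype.card_fin]
    rw [hc]
    rcases card_ineq hM hC.2.1 hC.2.2 with h1 | h1
    · calc x ^ (C.card * (M - C.card)) ≤ x ^ (M + C.card * (M / 8)) :=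
            pow_le_pow_of_le_one hx0 hx1 h1
        _ = x ^ M * t ^ C.card := by rw [pow_add, ht, ← pow_mul, mul_comm C.card]
        _ ≤ x ^ M * (t ^ C.card + t ^ (M - C.card)) := by
            gcongr
            have : 0 ≤ t ^ (M - C.card) := by positivity
            linarith
    · calc x ^ (C.card * (M - C.card)) ≤ x ^ (M + (M - C.card) * (M / 8)) :=
            pow_le_pow_of_le_one hx0 hx1 h1
        _ = x ^ M * t ^ (M - C.card) := by rw [pow_add, ht, ← pow_mul, mul_comm (M - C.card)]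
        _ ≤ x ^ M * (t ^ C.card + t ^ (M - C.card)) := by
            gcongr
            have : 0 ≤ t ^ C.card := by positivity
            linarith
  have hsum1 : ∑ C ∈ (Finset.univ : Finset (Finset (Fin M))), t ^ C.card = (1 + t) ^ M := by
    have := Finset.sum_pow_mul_eq_add_pow t 1 (Finset.univ : Finset (Fin M))
    simp only [one_pow, mul_one, card_univ, Fintype.card_fin, Finset.powerset_univ] at this
    rw [this, add_comm]
  have hsum2 : ∑ C ∈ (Finset.univ : Finset (Finset (Fin M))), t ^ (Cᶜ).card = (1 + t) ^ M := by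
    rw [← hsum1]
    exact Fintype.sum_bijective (fun C : Finset (Fin M) => Cᶜ)
      (compl_involutive.bijective) _ _ (fun C => rfl)
  have hfilt1 : ∑ C ∈ (Finset.univ : Finset (Finset (Fin M))).filter
      (fun C => 2 ≤ C.card ∧ C.card + 2 ≤ M), t ^ C.card ≤ (1 + t) ^ M - 1 := by
    rw [← hsum1]
    have hne : (∅ : Finset (Fin M)) ∈ (Finset.univ : Finset (Finset (Fin M))) := mem_univ _
    rw [← Finset.sum_erase_add _ _ hne]
    simp only [card_empty, pow_zero, add_sub_cancel_right]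
    refine Finset.sum_le_sum_of_subset_of_nonneg ?_ (fun _ _ _ => by positivity)
    intro C hC
    rw [mem_filter] at hC
    rw [mem_erase]
    refine ⟨?_, mem_univ _⟩
    rintro rfl
    simp at hC
  have hfilt2 : ∑ C ∈ (Finset.univ : Finset (Finset (Fin M))).filter
      (fun C => 2 ≤ C.card ∧ C.card + 2 ≤ M), t ^ (Cᶜ).card ≤ (1 + t) ^ M - 1 := by
    rw [← hsum2]
    have hne : (Finset.univ : Finset (Fin M)) ∈ (Finset.univ : Finset (Finset (Fin M))) :=
      mem_univ _
    rw [← Finset.sum_erase_add _ _ hne]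
    simp only [compl_univ, card_empty, pow_zero, add_sub_cancel_right]
    refine Finset.sum_le_sum_of_subset_of_nonneg ?_ (fun _ _ _ => by positivity)
    intro C hC
    rw [mem_filter] at hC
    rw [mem_erase]
    refine ⟨?_, mem_univ _⟩
    rintro rfl
    simp at hC
  calc _ ≤ ∑ C ∈ (Finset.univ : Finset (Finset (Fin M))).filter
        (fun C => 2 ≤ C.card ∧ C.card + 2 ≤ M), x ^ M * (t ^ C.card + t ^ (Cᶜ).card) :=
        Finset.sum_le_sum key
    _ = x ^ M * (∑ C ∈ (Finset.univ : Finset (Finset (Fin M))).filter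
          (fun C => 2 ≤ C.card ∧ C.card + 2 ≤ M), t ^ C.card +
        ∑ C ∈ (Finset.univ : Finset (Finset (Fin M))).filter
          (fun C => 2 ≤ C.card ∧ C.card + 2 ≤ M), t ^ (Cᶜ).card) := by
        rw [← Finset.mul_sum, Finset.sum_add_distrib]
    _ ≤ x ^ M * 1 := by
        gcongr
        have := one_add_pow_le ht0 h
        nlinarith
    _ = x ^ M := mul_one _

end Pool.Agent.Helper57
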