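import Pool.Agent.Helper57.SL
import Pool.Agent.Helper57.HubNum

open MeasureTheory ProbabilityTheory Set
open scoped ENNReal

namespace Pool.Agent.Helper57

noncomputable section

variable {V : Type*} {p : unitInterval}

/-- Embedding of `K_M □ ℤ` into a graph. -/
structure HubEmb (H : SimpleGraph V) (ψ : ℕ × ℤ → V) (M : ℕ) : Prop where
  inj : InjOn ψ {x | x.1 < M}
  hor : ∀ i j : ℕ, ∀ k : ℤ, i < M → j < M → i ≠ j → H.Adj (ψ (i, k)) (ψ (j, k))
  ver : ∀ i : ℕ, ∀ k : ℤ, i < M → H.Adj (ψ (i, k)) (ψ (i, k + 1))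

/-- layer at height `k` -/
def Lay (ψ : ℕ × ℤ → V) (M : ℕ) (k : ℤ) : Set V := ψ '' {x | x.1 < M ∧ x.2 = k}

/-- hub region with heights in `[a, b)` -/
def Reg (ψ : ℕ × ℤ → V) (M : ℕ) (a b : ℤ) : Set V := ψ '' {x | x.1 < M ∧ a ≤ x.2 ∧ x.2 < b}

open Classical in
/-- the vertices of the hub joined to vertex `0` inside the layer `k` -/
def comp (H : SimpleGraph V) (ψ : ℕ × ℤ → V) (M : ℕ) (k : ℤ) (ω : Sym2 V → Bool) :
    Finset (Fin M) :=
  Finset.univ.filter fun i => Conn H ω (Lay ψ M k) (ψ (0, k)) (ψ (i, k))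

/-- closing probability -/
def xc (p : unitInterval) : ℝ≥0∞ := ENNReal.ofReal (1 - (p : ℝ))

theorem xc_le_one : xc p ≤ 1 := by
  rw [xc, ENNReal.ofReal_le_one]
  have := p.2.1
  linarith

/-- all edges of layer `k` between `C` and its complement closed -/
def cutE (ψ : ℕ × ℤ → V) {M : ℕ} (k : ℤ) (C : Finset (Fin M)) : Set (Sym2 V → Bool) :=
  ⋂ q ∈ C ×ˢ Cᶜ, {ω | ω s(ψ ((q.1 : ℕ), k), ψ ((q.2 : ℕ), k)) = false}

theorem prob_cutE {H : SimpleGraph V} {ψ : ℕ × ℤ → V} {M : ℕ} (h : HubEmb H ψ M) (k : ℤ)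
    (C : Finset (Fin M)) :
    PB p _ (cutE ψ k C) = xc p ^ (C.card * (M - C.card)) := by
  rw [cutE, PB_biInter (C ×ˢ Cᶜ) (T := fun q : Fin M × Fin M =>
    {s(ψ ((q.1 : ℕ), k), ψ ((q.2 : ℕ), k))})]
  · simp only [PB_false]
    rw [Finset.prod_const, Finset.card_product, Finset.card_compl, Fintype.card_fin]
    rfl
  · exact fun q _ => meas_coord _ _
  · exact fun q _ => dep_coord (mem_singleton _) _
  · intro q hq r hr hne
    rw [disjoint_singleton]
    intro heq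
    rw [Finset.mem_product, Finset.mem_compl] at hq hr
    rw [Sym2.eq_iff] at heq
    have hi : ∀ i j : Fin M, ψ ((i : ℕ), k) = ψ ((j : ℕ), k) → i = j := by
      intro i j hij
      have := h.inj (show ((i : ℕ), k) ∈ {x : ℕ × ℤ | x.1 < M} from i.2)
        (show ((j : ℕ), k) ∈ {x : ℕ × ℤ | x.1 < M} from j.2) hij
      exact Fin.ext (Prod.mk.inj this).1
    rcases heq with ⟨h1, h2⟩ | ⟨h1, h2⟩
    · exact hne (Prod.ext (hi _ _ h1) (hi _ _ h2))
    · apply hr.2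
      rw [← hi _ _ h1]; exact hq.1

theorem zero_mem_comp (H : SimpleGraph V) (ψ : ℕ × ℤ → V) {M : ℕ} (hM : 0 < M) (k : ℤ)
    (ω : Sym2 V → Bool) : (⟨0, hM⟩ : Fin M) ∈ comp H ψ M k ω := by
  simp only [comp, Finset.mem_filter, Finset.mem_univ, true_and]
  exact Conn.refl ⟨(0, k), ⟨hM, rfl⟩, rfl⟩

theorem mem_cutE_comp {H : SimpleGraph V} {ψ : ℕ × ℤ → V} {M : ℕ} (h : HubEmb H ψ M) (k : ℤ)
    (ω : Sym2 V → Bool) : ω ∈ cutE ψ k (comp H ψ M k ω) := by
  simp only [cutE, mem_iInter, Finset.mem_product, Finset.mem_compl, mem_ofPred_eq]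
  rintro ⟨i, j⟩ ⟨hi, hj⟩
  simp only [comp, Finset.mem_filter, Finset.mem_univ, true_and] at hi hj
  by_contra hcon
  rw [Bool.not_eq_false] at hcon
  apply hj
  have hij : (i : ℕ) ≠ j := by
    intro hij
    have : i = j := Fin.ext hij
    subst this
    exact hj hi
  exact hi.tail ⟨⟨_, ⟨i.2, rfl⟩, rfl⟩, ⟨_, ⟨j.2, rfl⟩, rfl⟩, h.hor _ _ _ i.2 j.2 hij, hcon⟩

theorem prob_bad_layer {H : SimpleGraph V} {ψ : ℕ × ℤ → V} {M : ℕ} (h : HubEmb H ψ M) (k : ℤ)
    (hM : 8 ≤ M) (hx : 4 * (M : ℝ) * (1 - (p : ℝ)) ^ (M / 8) ≤ 1) :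
    PB p _ {ω | (comp H ψ M k ω).card < M - 1} ≤ xc p ^ (M - 1) + xc p ^ M := by
  classical
  have hM0 : 0 < M := by omega
  have hsub : {ω | (comp H ψ M k ω).card < M - 1} ⊆ cutE ψ k {(⟨0, hM0⟩ : Fin M)} ∪
      ⋃ C ∈ (Finset.univ : Finset (Finset (Fin M))).filter
        (fun C => 2 ≤ C.card ∧ C.card + 2 ≤ M), cutE ψ k C := by
    intro ω hω
    simp only [mem_ofPred_eq] at hω
    have hmem := mem_cutE_comp h k ω
    have h0 := zero_mem_comp H ψ hM0 k ω
    rcases Nat.lt_or_ge (comp H ψ M k ω).card 2 with h2 | h2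
    · left
      have h1 : (comp H ψ M k ω).card = 1 := by
        have : 0 < (comp H ψ M k ω).card := Finset.card_pos.2 ⟨_, h0⟩
        omega
      obtain ⟨i, hi⟩ := Finset.card_eq_one.1 h1
      rw [hi, Finset.mem_singleton] at h0
      rw [← h0] at hi
      rw [hi] at hmem
      exact hmem
    · right
      simp only [mem_iUnion, exists_prop]
      exact ⟨_, Finset.mem_filter.2 ⟨Finset.mem_univ _, h2, by omega⟩, hmem⟩
  refine (measure_mono hsub).trans ((measure_union_le _ _).trans ?_)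
  gcongr
  · rw [prob_cutE h]; simp
  · refine (measure_biUnion_finset_le _ _).trans ?_
    have h0 : (0 : ℝ) ≤ 1 - (p : ℝ) := by have := p.2.2; linarith
    have h1 : (1 : ℝ) - (p : ℝ) ≤ 1 := by have := p.2.1; linarith
    calc ∑ C ∈ (Finset.univ : Finset (Finset (Fin M))).filter
          (fun C => 2 ≤ C.card ∧ C.card + 2 ≤ M), PB p _ (cutE ψ k C)
        = ∑ C ∈ (Finset.univ : Finset (Finset (Fin M))).filter
          (fun C => 2 ≤ C.card ∧ C.card + 2 ≤ M),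
            ENNReal.ofReal ((1 - (p : ℝ)) ^ (C.card * (M - C.card))) := by
          refine Finset.sum_congr rfl fun C _ => ?_
          rw [prob_cutE h, xc, ENNReal.ofReal_pow h0]
      _ = ENNReal.ofReal (∑ C ∈ (Finset.univ : Finset (Finset (Fin M))).filter
          (fun C => 2 ≤ C.card ∧ C.card + 2 ≤ M),
            (1 - (p : ℝ)) ^ (C.card * (M - C.card))) := by
          rw [ENNReal.ofReal_sum_of_nonneg]
          intro C _; positivity
      _ ≤ ENNReal.ofReal ((1 - (p : ℝ)) ^ M) := ENNReal.ofReal_le_ofReal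
          (sum_cuts h0 h1 hM hx)
      _ = xc p ^ M := by rw [xc, ENNReal.ofReal_pow h0]

/-- link between consecutive layers -/
def Link (H : SimpleGraph V) (ψ : ℕ × ℤ → V) (M : ℕ) (k : ℤ) : Set (Sym2 V → Bool) :=
  {ω | ∃ i ∈ comp H ψ M k ω ∩ comp H ψ M (k + 1) ω, ω s(ψ ((i : ℕ), k), ψ ((i : ℕ), k + 1)) = true}

theorem meas_comp [Countable V] (H : SimpleGraph V) (ψ : ℕ × ℤ → V) (M : ℕ) (k : ℤ)
    (d : Finset (Fin M)) : MeasurableSet {ω | comp H ψ M k ω = d} := by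
  have : {ω | comp H ψ M k ω = d} =
      ⋂ i : Fin M, {ω | Conn H ω (Lay ψ M k) (ψ (0, k)) (ψ (i, k)) ↔ i ∈ d} := by
    ext ω
    simp only [mem_ofPred_eq, mem_iInter, Finset.ext_iff, comp, Finset.mem_filter,
      Finset.mem_univ, true_and]
  rw [this]
  refine MeasurableSet.iInter fun i => ?_
  have h1 := meas_conn H (Lay ψ M k) (ψ (0, k)) (ψ ((i : ℕ), k))
  by_cases hi : i ∈ d
  · simpa [hi] using h1
  · have h2 := h1.compl
    have : {ω | Conn H ω (Lay ψ M k) (ψ (0, k)) (ψ ((i : ℕ), k))}ᶜ =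
        {ω | Conn H ω (Lay ψ M k) (ψ (0, k)) (ψ ((i : ℕ), k)) ↔ i ∈ d} := by
      ext ω; simp [hi]
    rwa [this] at h2

theorem dep_comp (H : SimpleGraph V) (ψ : ℕ × ℤ → V) (M : ℕ) (k : ℤ)
    (d : Finset (Fin M)) : Dep (Ed (Lay ψ M k)) {ω | comp H ψ M k ω = d} := by
  intro ω ω' hω
  have : comp H ψ M k ω = comp H ψ M k ω' := by
    ext i
    simp only [comp, Finset.mem_filter, Finset.mem_univ, true_and]
    exact dep_conn H (Lay ψ M k) _ _ ω ω' hω
  simp only [mem_ofPred_eq, this]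

theorem prob_nolink [Countable V] {H : SimpleGraph V} {ψ : ℕ × ℤ → V} {M : ℕ}
    (h : HubEmb H ψ M) (k : ℤ) :
    PB p _ {ω | M - 1 ≤ (comp H ψ M k ω).card ∧ M - 1 ≤ (comp H ψ M (k + 1) ω).card ∧
      ω ∉ Link H ψ M k} ≤ xc p ^ (M - 2) := by
  classical
  have hmono : {ω | M - 1 ≤ (comp H ψ M k ω).card ∧ M - 1 ≤ (comp H ψ M (k + 1) ω).card ∧
      ω ∉ Link H ψ M k} ⊆ {ω | M - 2 ≤ (comp H ψ M k ω ∩ comp H ψ M (k + 1) ω).card ∧
        ∀ i ∈ comp H ψ M k ω ∩ comp H ψ M (k + 1) ω,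
          ω ∈ {ω : Sym2 V → Bool | ω s(ψ ((i : ℕ), k), ψ ((i : ℕ), k + 1)) = false}} := by
    rintro ω ⟨h1, h2, h3⟩
    refine ⟨?_, ?_⟩
    · have h4 := Finset.card_inter_add_card_union (comp H ψ M k ω) (comp H ψ M (k + 1) ω)
      have h5 : (comp H ψ M k ω ∪ comp H ψ M (k + 1) ω).card ≤ M := by
        have := Finset.card_le_univ (comp H ψ M k ω ∪ comp H ψ M (k + 1) ω)
        simpa using this
      omega
    · intro i hi
      simp only [mem_ofPred_eq]
      by_contra hcon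
      rw [Bool.not_eq_false] at hcon
      exact h3 ⟨i, hi, hcon⟩
  refine (measure_mono hmono).trans ?_
  have hlay : ∀ k : ℤ, ∀ v ∈ Lay ψ M k, ∃ i < M, v = ψ (i, k) := by
    rintro k _ ⟨⟨i, k'⟩, ⟨hi, hk⟩, rfl⟩
    simp only at hi hk
    subst hk
    exact ⟨i, hi, rfl⟩
  have hne : ∀ (i j : ℕ) (k l : ℤ), i < M → j < M → ψ (i, k) = ψ (j, l) → i = j ∧ k = l := by
    intro i j k l hi hj he
    have := h.inj (show (i, k) ∈ {x : ℕ × ℤ | x.1 < M} from hi)
      (show (j, l) ∈ {x : ℕ × ℤ | x.1 < M} from hj) he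
    exact Prod.mk.inj this
  refine PB_closure (p := p) (T0 := Ed (Lay ψ M k) ∪ Ed (Lay ψ M (k + 1)))
    (D := fun ω => comp H ψ M k ω ∩ comp H ψ M (k + 1) ω) ?_ ?_
    (T := fun i : Fin M => {s(ψ ((i : ℕ), k), ψ ((i : ℕ), k + 1))})
    (C := fun i : Fin M => {ω | ω s(ψ ((i : ℕ), k), ψ ((i : ℕ), k + 1)) = false})
    (fun i => meas_coord _ _) (fun i => dep_coord (mem_singleton _) _) ?_ ?_
    xc_le_one (fun i => by rw [PB_false]; rfl) (M - 2)
  · intro d
    have : {ω | comp H ψ M k ω ∩ comp H ψ M (k + 1) ω = d} =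
        ⋃ q ∈ {q : Finset (Fin M) × Finset (Fin M) | q.1 ∩ q.2 = d},
          ({ω | comp H ψ M k ω = q.1} ∩ {ω | comp H ψ M (k + 1) ω = q.2}) := by
      ext ω
      simp only [mem_ofPred_eq, mem_iUnion, mem_inter_iff, exists_prop]
      constructor
      · intro h; exact ⟨(_, _), h, rfl, rfl⟩
      · rintro ⟨q, hq, h1, h2⟩; rw [h1, h2]; exact hq
    rw [this]
    exact MeasurableSet.biUnion (to_countable _) fun q _ =>
      (meas_comp H ψ M k _).inter (meas_comp H ψ M (k + 1) _)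
  · intro d ω ω' hω
    have e1 : comp H ψ M k ω = comp H ψ M k ω' :=
      ((dep_comp H ψ M k (comp H ψ M k ω')) ω ω' (fun e he => hω e (Or.inl he))).2 rfl
    have e2 : comp H ψ M (k + 1) ω = comp H ψ M (k + 1) ω' :=
      ((dep_comp H ψ M (k + 1) (comp H ψ M (k + 1) ω')) ω ω'
        (fun e he => hω e (Or.inr he))).2 rfl
    simp only [mem_ofPred_eq, e1, e2]
  · intro i j hij
    rw [disjoint_singleton]
    intro he
    rw [Sym2.eq_iff] at he
    rcases he with ⟨h1, _⟩ | ⟨h1, _⟩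
    · exact hij (Fin.ext (hne _ _ _ _ i.2 j.2 h1).1)
    · have := (hne _ _ _ _ i.2 j.2 h1).2
      omega
  · intro i
    rw [disjoint_singleton_right]
    rintro (he | he)
    · obtain ⟨j, hj, h2⟩ := hlay _ _ (mk_mem_Ed.1 he).2
      have := (hne _ _ _ _ i.2 hj h2).2
      omega
    · obtain ⟨j, hj, h2⟩ := hlay _ _ (mk_mem_Ed.1 he).1
      have := (hne _ _ _ _ i.2 hj h2).2
      omega

/-- If all layers are good and consecutive layers are linked then everything is connected. -/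
theorem hub_conn {H : SimpleGraph V} {ψ : ℕ × ℤ → V} {M : ℕ} (h : HubEmb H ψ M) (hM : 0 < M)
    (a : ℤ) (m : ℕ) (ω : Sym2 V → Bool) (hl : ∀ i : ℕ, i < m → ω ∈ Link H ψ M (a + i)) :
    ∀ i : ℕ, i ≤ m → Conn H ω (Reg ψ M a (a + m + 1)) (ψ (0, a)) (ψ (0, a + i)) := by
  intro i
  induction i with
  | zero =>
    intro _
    have : (ψ (0, a + ((0 : ℕ) : ℤ))) = ψ (0, a) := by simp
    rw [this]
    exact Conn.refl ⟨(0, a), ⟨hM, le_rfl, by simp only; omega⟩, rfl⟩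
  | succ i ih =>
    intro hi
    obtain ⟨c, hc, ho⟩ := hl i (by omega)
    rw [Finset.mem_inter] at hc
    simp only [comp, Finset.mem_filter, Finset.mem_univ, true_and] at hc
    have hsub : ∀ j : ℕ, j ≤ m → Lay ψ M (a + j) ⊆ Reg ψ M a (a + m + 1) := by
      rintro j hj _ ⟨x, ⟨h1, h2⟩, rfl⟩
      exact ⟨x, ⟨h1, by omega, by omega⟩, rfl⟩
    have e : a + ((i + 1 : ℕ) : ℤ) = a + i + 1 := by push_cast; ring
    have h1 := hc.1.mono (hsub i (by omega))
    have h2 : Conn H ω (Reg ψ M a (a + m + 1)) (ψ (0, a + i + 1)) (ψ ((c : ℕ), a + i + 1)) := by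
      refine hc.2.mono ?_
      rw [← e]; exact hsub (i + 1) hi
    rw [e]
    exact (((ih (by omega)).trans h1).tail ⟨h1.right, h2.right, h.ver _ _ c.2, ho⟩).trans h2.symm

/-- Main lower bound for the hub. -/
theorem prob_hub [Countable V] {H : SimpleGraph V} {ψ : ℕ × ℤ → V} {M : ℕ} (h : HubEmb H ψ M)
    (hM : 8 ≤ M) (hx : 4 * (M : ℝ) * (1 - (p : ℝ)) ^ (M / 8) ≤ 1) (a : ℤ) (m : ℕ) :
    PB p _ {ω | ¬ ∀ i : ℕ, i ≤ m →
      Conn H ω (Reg ψ M a (a + m + 1)) (ψ (0, a)) (ψ (0, a + i))} ≤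
        (m + 1) * (3 * xc p ^ (M - 2)) := by
  have hsub : {ω | ¬ ∀ i : ℕ, i ≤ m →
      Conn H ω (Reg ψ M a (a + m + 1)) (ψ (0, a)) (ψ (0, a + i))} ⊆
      ⋃ i ∈ Finset.range (m + 1), ({ω | (comp H ψ M (a + i) ω).card < M - 1} ∪
        {ω | M - 1 ≤ (comp H ψ M (a + i) ω).card ∧ M - 1 ≤ (comp H ψ M (a + i + 1) ω).card ∧
          ω ∉ Link H ψ M (a + i)}) := by
    intro ω hω
    by_contra hcon
    apply hω
    simp only [mem_iUnion, Finset.mem_range, mem_union, mem_ofPred_eq, not_exists,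
      not_or, not_and, not_lt, not_not] at hcon
    refine hub_conn h (by omega) a m ω fun i hi => ?_
    refine (hcon i (by omega)).2 (hcon i (by omega)).1 ?_
    have := (hcon (i + 1) (by omega)).1
    have e : a + ((i + 1 : ℕ) : ℤ) = a + i + 1 := by push_cast; ring
    rwa [e] at this
  refine (measure_mono hsub).trans ((measure_biUnion_finset_le _ _).trans ?_)
  refine (Finset.sum_le_sum (g := fun _ => 3 * xc p ^ (M - 2)) fun i _ => ?_).trans ?_
  · refine (measure_union_le _ _).trans ?_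
    have h1 := prob_bad_layer (p := p) h (a + i) hM hx
    have h2 := prob_nolink (p := p) h (a + i)
    have h3 : xc p ^ (M - 1) ≤ xc p ^ (M - 2) := pow_le_pow_right_of_le_one' xc_le_one (by omega)
    have h4 : xc p ^ M ≤ xc p ^ (M - 2) := pow_le_pow_right_of_le_one' xc_le_one (by omega)
    calc _ ≤ (xc p ^ (M - 2) + xc p ^ (M - 2)) + xc p ^ (M - 2) := by
          gcongr
          exact h1.trans (by gcongr)
      _ = 3 * xc p ^ (M - 2) := by ring
  · simp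

end

end Pool.Agent.Helper57
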