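import Pool.Agent.Helper57.StripProb2
import Pool.Agent.Helper57.Hub

open MeasureTheory ProbabilityTheory Set
open scoped ENNReal

namespace Pool.Agent.Helper57

noncomputable section

/-- Raw vertices of the hub tree: hub vertices and path vertices. -/
inductive Raw (b : ℕ)
  | hub (v : List (Fin b)) (i : ℕ)
  | path (v : List (Fin b)) (t : ℕ)

/-- Length of the path above node `v`. -/
def pl {b : ℕ} (ℓ : ℕ → ℕ) : List (Fin b) → ℕ
  | [] => 0
  | _ :: w => ℓ w.length

namespace Raw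

variable {b : ℕ}

/-- coding of raw vertices -/
def code : Raw b → (List (Fin b) × ℕ) ⊕ (List (Fin b) × ℕ)
  | hub v i => Sum.inl (v, i)
  | path v t => Sum.inr (v, t)

theorem code_inj : Function.Injective (code (b := b)) := by
  intro x y h
  cases x <;> cases y <;> simp [code] at h ⊢ <;> exact h

instance : Countable (Raw b) := code_inj.countable

/-- node of a raw vertex -/
def node : Raw b → List (Fin b)
  | hub v _ => v
  | path v _ => v

/-- validity of a raw vertex -/
def valid (M ℓ : ℕ → ℕ) : Raw b → Prop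
  | hub v i => i < M v.length
  | path v t => t < pl ℓ v

/-- raw adjacency -/
def adjR (ℓ : ℕ → ℕ) : Raw b → Raw b → Prop
  | hub v i, hub w j => v = w ∧ i ≠ j
  | path v s, path w t => v = w ∧ (t = s + 1 ∨ s = t + 1)
  | hub v i, path w t => i = 0 ∧ ((w = v ∧ t = 0) ∨ (w.tail = v ∧ t + 1 = pl ℓ w))
  | path w t, hub v i => i = 0 ∧ ((w = v ∧ t = 0) ∨ (w.tail = v ∧ t + 1 = pl ℓ w))

theorem adjR_symm {ℓ : ℕ → ℕ} {x y : Raw b} (h : adjR ℓ x y) : adjR ℓ y x := by
  cases x <;> cases y <;> simp only [adjR] at h ⊢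
  · exact ⟨h.1.symm, h.2.symm⟩
  · exact h
  · exact h
  · exact ⟨h.1.symm, h.2.symm⟩

end Raw

open Raw

/-- The hub tree. -/
def G0 (b : ℕ) (M ℓ : ℕ → ℕ) : SimpleGraph (Raw b) where
  Adj x y := valid M ℓ x ∧ valid M ℓ y ∧ adjR ℓ x y
  symm := ⟨fun _ _ h => ⟨h.2.1, h.1, adjR_symm h.2.2⟩⟩
  loopless := ⟨fun x h => by
    cases x <;> simp only [adjR] at h
    · exact h.2.2.2 rfl
    · omega⟩

/-- The product of the hub tree with `ℤ`. -/
def HG (b : ℕ) (M ℓ : ℕ → ℕ) : SimpleGraph (Raw b × ℤ) where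
  Adj x y := ((G0 b M ℓ).Adj x.1 y.1 ∧ x.2 = y.2) ∨
    (x.1 = y.1 ∧ (y.2 = x.2 + 1 ∨ x.2 = y.2 + 1))
  symm := ⟨fun x y h => by
    rcases h with ⟨h1, h2⟩ | ⟨h1, h2⟩
    · exact Or.inl ⟨h1.symm, h2.symm⟩
    · exact Or.inr ⟨h1.symm, h2.symm⟩⟩
  loopless := ⟨fun x h => by
    rcases h with ⟨h1, _⟩ | ⟨_, h2⟩
    · exact h1.ne rfl
    · omega⟩

theorem HG_eq (b : ℕ) (M ℓ : ℕ → ℕ) :
    HG b M ℓ = (G0 b M ℓ).boxProd (SimpleGraph.hasse ℤ) := by
  ext x y
  simp only [HG, SimpleGraph.boxProd_adj, SimpleGraph.hasse_adj, Order.covBy_iff_add_one_eq]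
  constructor
  · rintro (⟨h1, h2⟩ | ⟨h1, h2⟩)
    · exact Or.inl ⟨h1, h2⟩
    · exact Or.inr ⟨by omega, h1⟩
  · rintro (⟨h1, h2⟩ | ⟨h1, h2⟩)
    · exact Or.inl ⟨h1, h2⟩
    · exact Or.inr ⟨h2, by omega⟩

variable {b : ℕ} {M ℓ : ℕ → ℕ}

/-- Positions along the path above node `u`: `0` is the main vertex of `u`, `pl u + 1` is
the main vertex of the parent. -/
def pos (ℓ : ℕ → ℕ) (u : List (Fin b)) (t : ℕ) : Raw b :=
  if t = 0 then hub u 0 else if t ≤ pl ℓ u then path u (t - 1) else hub u.tail 0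

/-- upward arm map -/
def φU (ℓ : ℕ → ℕ) (u : List (Fin b)) : ℕ × ℤ → Raw b × ℤ := fun x => (pos ℓ u x.1, x.2)

/-- downward arm map -/
def φD (ℓ : ℕ → ℕ) (u : List (Fin b)) : ℕ × ℤ → Raw b × ℤ :=
  fun x => (pos ℓ u (pl ℓ u + 1 - x.1), x.2)

/-- interior of the path above `u`, times `ℤ` -/
def pathI (ℓ : ℕ → ℕ) (u : List (Fin b)) : Set (Raw b × ℤ) :=
  {x | ∃ t < pl ℓ u, x.1 = path u t}

theorem pos_zero (u : List (Fin b)) : pos ℓ u 0 = hub u 0 := by simp [pos]

theorem pos_mid {u : List (Fin b)} {t : ℕ} (h1 : 1 ≤ t) (h2 : t ≤ pl ℓ u) :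
    pos ℓ u t = path u (t - 1) := by
  rw [pos, if_neg (by omega), if_pos h2]

theorem pos_end (u : List (Fin b)) : pos ℓ u (pl ℓ u + 1) = hub u.tail 0 := by
  rw [pos, if_neg (by omega), if_neg (by omega)]

theorem φU_Int (u : List (Fin b)) : φU ℓ u '' Int (pl ℓ u) = pathI ℓ u := by
  ext x
  simp only [mem_image, Int, mem_ofPred_eq, φU, pathI]
  constructor
  · rintro ⟨y, hy, rfl⟩
    exact ⟨y.1 - 1, by omega, pos_mid hy.1 hy.2⟩
  · rintro ⟨t, ht, hx⟩
    refine ⟨(t + 1, x.2), ⟨by simp only; omega, by simp only; omega⟩, ?_⟩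
    ext
    · simp only
      rw [pos_mid (by omega) (by omega), hx, Nat.add_sub_cancel]
    · rfl

theorem φD_Int (u : List (Fin b)) : φD ℓ u '' Int (pl ℓ u) = pathI ℓ u := by
  rw [← φU_Int]
  ext x
  simp only [mem_image, Int, mem_ofPred_eq, φU, φD]
  constructor
  · rintro ⟨y, hy, rfl⟩
    exact ⟨(pl ℓ u + 1 - y.1, y.2), by simp only; omega, rfl⟩
  · rintro ⟨y, hy, rfl⟩
    refine ⟨(pl ℓ u + 1 - y.1, y.2), by simp only; omega, ?_⟩
    have : pl ℓ u + 1 - (pl ℓ u + 1 - y.1) = y.1 := by omega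
    simp only [this]

theorem pos_inj {u : List (Fin b)} (hu : u ≠ []) {s t : ℕ} (hs : s ≤ pl ℓ u + 1)
    (ht : t ≤ pl ℓ u + 1) (h : pos ℓ u s = pos ℓ u t) : s = t := by
  have htail : u.tail ≠ u := by
    intro h
    have := congrArg List.length h
    rw [List.length_tail] at this
    have : 0 < u.length := List.length_pos_iff.2 hu
    omega
  unfold pos at h
  split_ifs at h <;> simp only [Raw.hub.injEq, Raw.path.injEq, true_and,
    and_true] at h
  · omega
  · exact absurd h.symm htail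
  · omega
  · exact absurd h htail
  · omega

theorem pos_adj {u : List (Fin b)} {s t : ℕ} (hs1 : 1 ≤ s) (hs : s ≤ pl ℓ u)
    (ht1 : 1 ≤ t) (ht : t ≤ pl ℓ u) :
    (G0 b M ℓ).Adj (pos ℓ u s) (pos ℓ u t) ↔ (t = s + 1 ∨ s = t + 1) := by
  rw [pos_mid hs1 hs, pos_mid ht1 ht]
  simp only [G0, valid, adjR, true_and]
  omega

theorem φU_emb {u : List (Fin b)} (hu : u ≠ []) (hl : 1 ≤ pl ℓ u) :
    Emb (HG b M ℓ) (φU ℓ u) (pl ℓ u) where
  pos := hl
  inj := by
    intro x hx y hy h
    simp only [φU, Prod.mk.injEq] at h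
    ext
    · exact pos_inj hu hx hy h.1
    · exact h.2
  adj := by
    intro x hx y hy
    simp only [HG, φU, grid]
    rw [pos_adj hx.1 hx.2 hy.1 hy.2]
    constructor
    · rintro (⟨h1, h2⟩ | ⟨h1, h2⟩)
      · exact Or.inl ⟨h2, h1⟩
      · refine Or.inr ⟨?_, h2⟩
        exact pos_inj hu (hx.2.trans (Nat.le_succ _)) (hy.2.trans (Nat.le_succ _)) h1
    · rintro (⟨h1, h2⟩ | ⟨h1, h2⟩)
      · exact Or.inl ⟨h2, h1⟩
      · exact Or.inr ⟨by rw [h1], h2⟩

theorem φD_emb {u : List (Fin b)} (hu : u ≠ []) (hl : 1 ≤ pl ℓ u) :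
    Emb (HG b M ℓ) (φD ℓ u) (pl ℓ u) where
  pos := hl
  inj := by
    intro x hx y hy h
    simp only [φD, Prod.mk.injEq, mem_ofPred_eq] at h hx hy
    ext
    · have := pos_inj hu (by omega) (by omega) h.1
      omega
    · exact h.2
  adj := by
    intro x hx y hy
    simp only [Int, mem_ofPred_eq] at hx hy
    simp only [HG, φD, grid]
    rw [pos_adj (by omega) (by omega) (by omega) (by omega)]
    constructor
    · rintro (⟨h1, h2⟩ | ⟨h1, h2⟩)
      · exact Or.inl ⟨h2, by omega⟩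
      · refine Or.inr ⟨?_, h2⟩
        have := pos_inj hu (by omega) (by omega) h1
        omega
    · rintro (⟨h1, h2⟩ | ⟨h1, h2⟩)
      · exact Or.inl ⟨by omega, h1⟩
      · exact Or.inr ⟨by rw [h1], h2⟩

/-- the hub map at node `v` -/
def ψH (v : List (Fin b)) : ℕ × ℤ → Raw b × ℤ := fun x => (hub v x.1, x.2)

theorem ψH_emb (v : List (Fin b)) : HubEmb (HG b M ℓ) (ψH v) (M v.length) where
  inj := by
    intro x _ y _ h
    simp only [ψH, Prod.mk.injEq, Raw.hub.injEq, true_and] at h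
    ext
    · exact h.1
    · exact h.2
  hor := by
    intro i j k hi hj hij
    left
    exact ⟨⟨hi, hj, rfl, hij⟩, rfl⟩
  ver := by
    intro i k _
    right
    exact ⟨rfl, Or.inl rfl⟩

/-- hub region at node `v` with heights in `[lo, hi)` -/
def hubR (M : ℕ → ℕ) (v : List (Fin b)) (lo hi : ℤ) : Set (Raw b × ℤ) :=
  {x | ∃ i < M v.length, x.1 = hub v i ∧ lo ≤ x.2 ∧ x.2 < hi}

/-- Arms at node `v`: `none` is the path above `v`, `some a` the path above the child. -/
def armN (v : List (Fin b)) : Option (Fin b) → List (Fin b)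
  | none => v
  | some a => a :: v

/-- the node at the far end of an arm -/
def farN (v : List (Fin b)) : Option (Fin b) → List (Fin b)
  | none => v.tail
  | some a => a :: v

/-- arm map -/
def armφ (ℓ : ℕ → ℕ) (v : List (Fin b)) : Option (Fin b) → ℕ × ℤ → Raw b × ℤ
  | none => φU ℓ v
  | some a => φD ℓ (a :: v)

/-- arm length -/
def armL (ℓ : ℕ → ℕ) (v : List (Fin b)) (o : Option (Fin b)) : ℕ := pl ℓ (armN v o)

theorem armφ_Int (v : List (Fin b)) (o : Option (Fin b)) :
    armφ ℓ v o '' Int (armL ℓ v o) = pathI ℓ (armN v o) := by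
  cases o with
  | none => exact φU_Int v
  | some a => exact φD_Int (a :: v)

theorem armφ_zero (v : List (Fin b)) (o : Option (Fin b)) (k : ℤ) :
    armφ ℓ v o (0, k) = (hub v 0, k) := by
  cases o with
  | none => simp only [armφ, φU, pos_zero]
  | some a => simp only [armφ, φD, Nat.sub_zero, pos_end, List.tail_cons]

theorem armφ_end (v : List (Fin b)) (o : Option (Fin b)) (k : ℤ) :
    armφ ℓ v o (armL ℓ v o + 1, k) = (hub (farN v o) 0, k) := by
  cases o with
  | none => simp only [armφ, φU, armL, armN, pos_end, farN]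
  | some a => simp only [armφ, φD, armL, armN, Nat.sub_self, pos_zero, farN]

theorem armφ_emb {v : List (Fin b)} (hv : v ≠ []) (o : Option (Fin b))
    (hl : 1 ≤ armL ℓ v o) : Emb (HG b M ℓ) (armφ ℓ v o) (armL ℓ v o) := by
  cases o with
  | none => exact φU_emb hv hl
  | some a => exact φD_emb (List.cons_ne_nil _ _) hl

/-- Neighbours of a hub vertex. -/
theorem nbr_hub {v : List (Fin b)} {i : ℕ} {k : ℤ} {z : Raw b × ℤ}
    (h : (HG b M ℓ).Adj (hub v i, k) z) :
    (∃ j < M v.length, z = (hub v j, k)) ∨ z = (hub v i, k + 1) ∨ z = (hub v i, k - 1) ∨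
      ∃ o, i = 0 ∧ 1 ≤ armL ℓ v o ∧ z = armφ ℓ v o (1, k) := by
  obtain ⟨z1, z2⟩ := z
  rcases h with ⟨⟨_, hv2, hadj⟩, h2⟩ | ⟨h1, h2⟩
  · simp only at h2
    subst h2
    cases z1 with
    | hub w j =>
      left
      simp only [adjR] at hadj
      obtain ⟨rfl, _⟩ := hadj
      exact ⟨j, hv2, rfl⟩
    | path w t =>
      right; right; right
      simp only [adjR, valid] at hadj hv2
      obtain ⟨hi, ⟨rfl, rfl⟩ | ⟨hw, ht⟩⟩ := hadj
      · refine ⟨none, hi, by simp only [armL, armN]; omega, ?_⟩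
        simp only [armφ, φU]
        rw [pos_mid (by omega) (by omega)]
      · cases w with
        | nil => simp [pl] at hv2
        | cons a w =>
          simp only [List.tail_cons] at hw
          subst hw
          refine ⟨some a, hi, by simp only [armL, armN]; omega, ?_⟩
          simp only [armφ, φD]
          rw [pos_mid (by omega) (by omega)]
          congr 2
          omega
  · simp only at h1 h2
    subst h1
    right
    rcases h2 with h2 | h2
    · left; rw [h2]
    · right; left; rw [h2]; simp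

/-- Neighbours of an interior vertex of an arm. -/
theorem nbr_arm {v : List (Fin b)} {o : Option (Fin b)} {y z : Raw b × ℤ}
    (hy : y ∈ pathI ℓ (armN v o)) (h : (HG b M ℓ).Adj y z) :
    z ∈ pathI ℓ (armN v o) ∨
      (∃ k, y = armφ ℓ v o (1, k) ∧ z = armφ ℓ v o (0, k)) ∨
      (∃ k, y = armφ ℓ v o (armL ℓ v o, k) ∧ z = armφ ℓ v o (armL ℓ v o + 1, k)) := by
  obtain ⟨y1, y2⟩ := y
  obtain ⟨z1, z2⟩ := z
  obtain ⟨t, ht, hy⟩ := hy
  simp only at hy
  subst hy
  rcases h with ⟨⟨_, hv2, hadj⟩, h2⟩ | ⟨h1, h2⟩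
  · simp only at h2
    subst h2
    cases z1 with
    | path w s =>
      left
      simp only [adjR] at hadj
      obtain ⟨rfl, _⟩ := hadj
      exact ⟨s, hv2, rfl⟩
    | hub w i =>
      right
      simp only [adjR] at hadj
      obtain ⟨rfl, hadj⟩ := hadj
      cases o with
      | none =>
        simp only [armN] at hadj ht ⊢
        simp only [armφ, φU, armL, armN]
        rcases hadj with ⟨rfl, rfl⟩ | ⟨hw, ht2⟩
        · left
          refine ⟨y2, ?_, ?_⟩
          · rw [pos_mid (by omega) (by omega)]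
          · rw [pos_zero]
        · right
          refine ⟨y2, ?_, ?_⟩
          · rw [pos_mid (by omega) (by omega)]
            congr 2
            omega
          · rw [pos_end, hw]
      | some a =>
        simp only [armN] at hadj ht ⊢
        simp only [armφ, φD, armL, armN]
        rcases hadj with ⟨rfl, rfl⟩ | ⟨hw, ht2⟩
        · right
          refine ⟨y2, ?_, ?_⟩
          · rw [pos_mid (by omega) (by omega)]
            congr 2
            omega
          · rw [Nat.sub_self, pos_zero]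
        · left
          refine ⟨y2, ?_, ?_⟩
          · rw [pos_mid (by omega) (by omega)]
            congr 2
            omega
          · rw [Nat.sub_zero, pos_end, hw]
  · simp only at h1 h2
    subst h1
    left
    exact ⟨t, ht, rfl⟩

end

end Pool.Agent.Helper57
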