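import Mathlib
import Pool.Agent.Helper55.CycDefs
import Pool.Agent.Helper55.AMachine2

/-!
# Item systems simulate cyclic tag systems; an arithmetic machine with finitely many states
-/

set_option autoImplicit false
set_option linter.unusedSectionVars false

namespace Pool.Agent.Helper55

open StateTransition

/-- skipping masked items -/
theorem h57_skip (B : ℕ → List Bool) (φ : ℕ) (r : List (Bool × Bool)) :
    ∃ r', Reaches (itStep B) (φ, r) (φ, r') ∧
      (r'.filter fun p => p.1).map (fun p => p.2) = (r.filter fun p => p.1).map (fun p => p.2) ∧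
      (r' = [] ∨ ∃ b q', r' = (true, b) :: q') := by
  induction r with
  | nil => exact ⟨[], Relation.ReflTransGen.refl, rfl, Or.inl rfl⟩
  | cons p r ih =>
    obtain ⟨t, b⟩ := p
    cases t with
    | true => exact ⟨_, Relation.ReflTransGen.refl, rfl, Or.inr ⟨b, r, rfl⟩⟩
    | false =>
      obtain ⟨r', h1, h2, h3⟩ := ih
      refine ⟨r', Relation.ReflTransGen.head ?_ h1, ?_, h3⟩
      · show (φ, r) ∈ itStep B (φ, (false, b) :: r)
        rfl
      · rw [h2]
        simp

theorem h57_filter_map (t : Bool) (l : List Bool) :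
    ((l.map fun b => (t, b)).filter fun p => p.1).map (fun p => p.2) = if t then l else [] := by
  induction l with
  | nil => cases t <;> rfl
  | cons a l ih =>
    cases t with
    | true =>
      simp only [if_true] at ih ⊢
      simp only [List.map_cons, List.filter_cons, if_true]
      rw [ih]
    | false =>
      simp only [Bool.false_eq_true, if_false] at ih ⊢
      simp only [List.map_cons, List.filter_cons, Bool.false_eq_true, if_false]
      exact ih

theorem respects_item (B : ℕ → List Bool) : Respects (cyStep B) (itStep B) trI := by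
  rintro ⟨φ, l⟩ ⟨φ', q⟩ ⟨h1, h2, h3⟩
  subst h1
  rcases h3 with rfl | ⟨b, q', rfl⟩
  · have : l = [] := by rw [h2]; rfl
    subst this
    rfl
  · have hl : l = b :: (q'.filter fun p => p.1).map (fun p => p.2) := by
      rw [h2]; simp
    subst hl
    show ∃ b₂, trI (φ + 1, (q'.filter fun p => p.1).map (fun p => p.2) ++ if b then B φ else []) b₂ ∧
      Reaches₁ (itStep B) (φ, (true, b) :: q') b₂
    obtain ⟨r', hr, h4, h5⟩ := h57_skip B (φ + 1) (q' ++ (B φ).map fun c => (b, c))
    refine ⟨(φ + 1, r'), ⟨rfl, ?_, h5⟩, Relation.TransGen.head' ?_ hr⟩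
    · rw [h4, List.filter_append, List.map_append, h57_filter_map]
    · show (φ + 1, q' ++ (B φ).map fun c => (b, c)) ∈ itStep B (φ, (true, b) :: q')
      rfl

/-! ### finitely many states -/

open SimTM2 Turing

/-- the machine restricted to a closed set of states -/
noncomputable def h57M (T : Finset QS)
    (hT : ∀ q ∈ T, ∀ d q', mach.nx q d = some q' → q' ∈ T) : AM {q // q ∈ T} PartrecToTM2.K' where
  m := mach.m
  hm := mach.hm
  rd q := mach.rd q.1
  nx q d := (mach.nx q.1 d).pbind fun q' hq' => some ⟨q', hT q.1 q.2 d q' hq'⟩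
  mul q d := mach.mul q.1 d
  hmul q d := mach.hmul q.1 d
  add q d := mach.add q.1 d

theorem h57M_nx (T : Finset QS) (hT : ∀ q ∈ T, ∀ d q', mach.nx q d = some q' → q' ∈ T)
    (q : {q // q ∈ T}) (d : ℕ) : ((h57M T hT).nx q d).map Subtype.val = mach.nx q.1 d := by
  show ((mach.nx q.1 d).pbind fun q' hq' => some (⟨q', hT q.1 q.2 d q' hq'⟩ : {q // q ∈ T})).map
    Subtype.val = mach.nx q.1 d
  rcases Option.eq_none_or_eq_some (mach.nx q.1 d) with h | ⟨q', h⟩
  · rw [Option.pbind_none' h, h]; rfl
  · rw [Option.pbind_some' h, h]; rfl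

theorem exists_machine_fin : ∃ (Q K : Type) (_ : Fintype Q) (_ : DecidableEq Q)
    (_ : DecidableEq K) (_ : Fintype K) (M : AM Q K) (q₀ : Q) (k₀ : K),
    ¬ ComputablePred (fun n : ℕ => M.Halts
      (some q₀, Function.update (fun _ => 0) k₀ (SimTM2.inp n : ℤ))) := by
  obtain ⟨T, q₀, h0, hT, hund⟩ := exists_machine
  have hK : Fintype PartrecToTM2.K' :=
    ⟨{PartrecToTM2.K'.main, PartrecToTM2.K'.rev, PartrecToTM2.K'.aux, PartrecToTM2.K'.stack},
      by intro k; cases k <;> decide⟩
  refine ⟨{q // q ∈ T}, PartrecToTM2.K', inferInstance, Classical.decEq _, inferInstance, hK,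
    h57M T hT, ⟨q₀, h0⟩, PartrecToTM2.K'.main, ?_⟩
  have hR : Respects (h57M T hT).step mach.step
      (fun a b => b = (a.1.map Subtype.val, a.2)) := by
    rintro ⟨q, s⟩ b rfl
    cases q with
    | none => rfl
    | some q =>
      show ∃ b₂, b₂ = (Option.map Subtype.val ((h57M T hT).nx q ((h57M T hT).digit q s)),
        (h57M T hT).upd q s) ∧ _
      refine ⟨_, rfl, Relation.TransGen.single ?_⟩
      rw [h57M_nx]
      rfl
  intro h
  apply hund
  refine ComputablePred.of_eq h ?_
  intro n
  exact (tr_eval_dom hR rfl).symm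

end Pool.Agent.Helper55
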