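import Pool.Agent.Helper57.Upper5

open MeasureTheory ProbabilityTheory Set Filter
open scoped ENNReal Topology

namespace Pool.Agent.Helper57

noncomputable section

open Raw

variable {b : ℕ} {M ℓ : ℕ → ℕ} {p : unitInterval}

theorem pos_step {u : List (Fin b)} (hM : ∀ j, 1 ≤ M j) (hl : 1 ≤ pl ℓ u)
    {s : ℕ} (hs : s ≤ pl ℓ u) : (G0 b M ℓ).Adj (pos ℓ u s) (pos ℓ u (s + 1)) := by
  rcases Nat.eq_zero_or_pos s with rfl | h0
  · rw [pos_zero, pos_mid (by omega) (by omega)]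
    exact ⟨hM _, hl, rfl, Or.inl ⟨rfl, rfl⟩⟩
  · rcases Nat.lt_or_ge s (pl ℓ u) with h1 | h1
    · rw [pos_adj h0 hs (by omega) (by omega)]
      exact Or.inl rfl
    · have : s = pl ℓ u := le_antisymm hs h1
      rw [this, pos_end, pos_mid (by omega) le_rfl]
      refine ⟨?_, hM _, rfl, Or.inr ⟨rfl, ?_⟩⟩
      · simp only [valid]; omega
      · omega

/-- The part of the graph at and below node `v`. -/
def Tr (v : List (Fin b)) : Set (Raw b × ℤ) :=
  {x | v <:+ node x.1 ∧ ∀ t, x.1 ≠ path v t}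

theorem hub_mem_Tr (v : List (Fin b)) (i : ℕ) (k : ℤ) : (hub v i, k) ∈ Tr v :=
  ⟨List.suffix_refl v, fun t h => by cases h⟩

theorem suffix_antisymm' {v w : List (Fin b)} (h : v <:+ w) (h' : w.length ≤ v.length) : v = w :=
  h.eq_of_length_le h'

theorem Tr_cons_sub (v : List (Fin b)) (e : Fin b) : Tr (e :: v) ⊆ Tr v := by
  rintro x ⟨h1, h2⟩
  refine ⟨(List.suffix_cons e v).trans h1, fun t ht => ?_⟩
  rw [ht] at h1
  simp only [node] at h1
  have := h1.length_le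
  simp at this

theorem pathI_sub_Tr (v : List (Fin b)) (e : Fin b) : pathI ℓ (e :: v) ⊆ Tr v := by
  rintro x ⟨t, _, ht⟩
  refine ⟨?_, fun s hs => ?_⟩
  · rw [ht]; exact List.suffix_cons e v
  · rw [ht] at hs
    simp only [Raw.path.injEq] at hs
    have := congrArg List.length hs.1
    simp at this

theorem pathI_Tr_disj (v : List (Fin b)) (e e' : Fin b) :
    Disjoint (Tr (e :: v)) (pathI ℓ (e' :: v)) := by
  rw [Set.disjoint_left]
  rintro x ⟨h1, h2⟩ ⟨t, _, ht⟩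
  rw [ht] at h1
  simp only [node] at h1
  have := h1.eq_of_length (by simp)
  rw [this] at h2
  exact h2 t ht

theorem Tr_Tr_disj (v : List (Fin b)) {e e' : Fin b} (h : e ≠ e') :
    Disjoint (Tr (e :: v)) (Tr (e' :: v)) := by
  rw [Set.disjoint_left]
  rintro x ⟨h1, _⟩ ⟨h2, _⟩
  apply h
  have h3 := List.suffix_of_suffix_length_le h1 h2 (by simp)
  have := h3.eq_of_length (by simp)
  simpa using this

/-- survival event -/
def Surv (M ℓ : ℕ → ℕ) (J : ℕ) (v : List (Fin b)) (k : ℤ) : Set (Sym2 (Raw b × ℤ) → Bool) :=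
  hits (HG b M ℓ) (Tr v) {(hub v 0, k)} {x | ∃ u : List (Fin b), u.length = J ∧ x.1 = hub u 0}

theorem prob_Surv_base {J : ℕ} {v : List (Fin b)} (hv : v.length = J) (k : ℤ) :
    PB p _ (Surv M ℓ J v k) = 1 := by
  have : Surv M ℓ J v k = univ := by
    ext ω
    simp only [mem_univ, iff_true]
    exact ⟨_, rfl, (hub v 0, k), ⟨v, hv, rfl⟩, Conn.refl (hub_mem_Tr v 0 k)⟩
  rw [this, measure_univ]

/-- survival through the child `e` -/
def Rc (M ℓ : ℕ → ℕ) (J : ℕ) (v : List (Fin b)) (k : ℤ) (h : ℕ) (e : Fin b) :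
    Set (Sym2 (Raw b × ℤ) → Bool) :=
  ⋃ l : ℤ, crs (HG b M ℓ) (φD ℓ (e :: v)) (pl ℓ (e :: v)) (Ico k (k + h)) {l} ∩
    Surv M ℓ J (e :: v) l

theorem meas_Rc (J : ℕ) (v : List (Fin b)) (k : ℤ) (h : ℕ) (e : Fin b) :
    MeasurableSet (Rc M ℓ J v k h e) :=
  MeasurableSet.iUnion fun _ => (meas_crs _ _ _ _ _).inter (meas_hits _ _ _ _)

/-- support of `Rc` -/
def Ue (ℓ : ℕ → ℕ) (v : List (Fin b)) (e : Fin b) : Set (Sym2 (Raw b × ℤ)) :=
  StripE (φD ℓ (e :: v)) (pl ℓ (e :: v)) ∪ Ed (Tr (e :: v))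

theorem Dep_Rc (J : ℕ) (v : List (Fin b)) (k : ℤ) (h : ℕ) (e : Fin b)
    (hL : 1 ≤ pl ℓ (e :: v)) : Dep (Ue ℓ v e) (Rc M ℓ J v k h e) := by
  refine Dep.iUnion fun l => ?_
  exact ((dep_crs _ _ hL _ _).mono subset_union_left).inter
    ((dep_hits _ _ _ _).mono subset_union_right)

theorem strip_disj_Tr (v : List (Fin b)) (e e' : Fin b) :
    Disjoint (StripE (φD ℓ (e :: v)) (pl ℓ (e :: v))) (Ed (Tr (e' :: v))) := by
  refine Disjoint.mono_left inter_subset_right ?_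
  rw [φD_Int]
  exact (disjoint_Ed_Tch (pathI_Tr_disj v e' e)).symm

theorem strip_disj_strip (v : List (Fin b)) {e e' : Fin b} (h : e ≠ e') :
    Disjoint (StripE (φD ℓ (e :: v)) (pl ℓ (e :: v)))
      (StripE (φD ℓ (e' :: v)) (pl ℓ (e' :: v))) := by
  refine Disjoint.mono inter_subset_left inter_subset_right ?_
  rw [φD_Int]
  refine disjoint_Ed_Tch ?_
  rw [Set.disjoint_left]
  rintro _ ⟨x, hx, rfl⟩ ⟨t, _, ht⟩
  simp only [φD, pos] at ht
  split_ifs at ht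
  simp only [Raw.path.injEq, List.cons.injEq, and_true] at ht
  exact h ht.1

theorem Ue_disj (v : List (Fin b)) {e e' : Fin b} (h : e ≠ e') :
    Disjoint (Ue ℓ v e) (Ue ℓ v e') := by
  refine Disjoint.union_left (Disjoint.union_right ?_ ?_) (Disjoint.union_right ?_ ?_)
  · exact strip_disj_strip v h
  · exact strip_disj_Tr v e e'
  · exact (strip_disj_Tr v e' e).symm
  · exact disjoint_Ed_Ed (Tr_Tr_disj v h)

theorem prob_Rc {J : ℕ} {v : List (Fin b)} {k : ℤ} {h : ℕ} {e : Fin b} {a : ℝ≥0∞}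
    (hL : 1 ≤ ℓ v.length) (ha : ∀ l, a ≤ PB p _ (Surv M ℓ J (e :: v) l)) :
    a * Q p (ℓ v.length) h ≤ PB p _ (Rc M ℓ J v k h e) := by
  have hL' : 1 ≤ pl ℓ (e :: v) := hL
  have key := PB_iUnion_inter (p := p) (E := Sym2 (Raw b × ℤ)) (κ := ℤ)
    (strip_disj_Tr (ℓ := ℓ) v e e)
    (X := fun l => crs (HG b M ℓ) (φD ℓ (e :: v)) (pl ℓ (e :: v)) (Ico k (k + h)) {l})
    (Y := fun l => Surv M ℓ J (e :: v) l) (fun _ => meas_crs _ _ _ _ _)
    (fun _ => meas_hits _ _ _ _) (fun _ => dep_crs _ _ hL' _ _) (fun _ => dep_hits _ _ _ _) ha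
  have h1 : (⋃ l : ℤ, crs (HG b M ℓ) (φD ℓ (e :: v)) (pl ℓ (e :: v)) (Ico k (k + h)) {l}) =
      crs (HG b M ℓ) (φD ℓ (e :: v)) (pl ℓ (e :: v)) (Ico k (k + h)) univ := by
    ext ω
    simp only [mem_iUnion]
    constructor
    · rintro ⟨l, k', hk', l', _, h⟩; exact ⟨k', hk', l', trivial, h⟩
    · rintro ⟨k', hk', l', _, h⟩; exact ⟨l', k', hk', l', rfl, h⟩
  have h2 : PB p _ (crs (HG b M ℓ) (φD ℓ (e :: v)) (pl ℓ (e :: v)) (Ico k (k + h)) univ) =
      Q p (ℓ v.length) h := by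
    rw [prob_crs (φD_emb (List.cons_ne_nil _ _) hL'), crs_window hL']
    rfl
  rw [h1, h2] at key
  exact key

/-- the hub event -/
def HubEv (M ℓ : ℕ → ℕ) (v : List (Fin b)) (k : ℤ) (m : ℕ) : Set (Sym2 (Raw b × ℤ) → Bool) :=
  {ω | ∀ i : ℕ, i ≤ m → Conn (HG b M ℓ) ω (Reg (ψH v) (M v.length) k (k + m + 1))
    (ψH v (0, k)) (ψH v (0, k + i))}

theorem Surv_of {J m : ℕ} {v : List (Fin b)} {k : ℤ} {e : Fin b} (hM : ∀ j, 1 ≤ M j)
    (hL : 1 ≤ ℓ v.length) {ω : Sym2 (Raw b × ℤ) → Bool} (h1 : ω ∈ HubEv M ℓ v k m)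
    (h2 : ω ∈ Rc M ℓ J v k (m + 1) e) : ω ∈ Surv M ℓ J v k := by
  have hL' : 1 ≤ pl ℓ (e :: v) := hL
  simp only [Rc, mem_iUnion] at h2
  obtain ⟨l, ⟨k', hk', l', hl', hr1, hc, hr2⟩, ⟨x, hx, y, hy, hc2⟩⟩ := h2
  rw [mem_singleton_iff] at hl' hx
  subst hl' hx
  obtain ⟨i, hi⟩ := Int.eq_ofNat_of_zero_le (sub_nonneg.2 hk'.1)
  have hk2 : k' = k + i := by omega
  subst hk2
  have him : i ≤ m := by
    have := hk'.2
    push_cast at this
    omega
  have hreg : Reg (ψH v) (M v.length) k (k + m + 1) ⊆ Tr v := by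
    rintro _ ⟨x, _, rfl⟩
    exact hub_mem_Tr v _ _
  have c1 : Conn (HG b M ℓ) ω (Tr v) (hub v 0, k) (hub v 0, k + i) := (h1 i him).mono hreg
  have e0 : φD ℓ (e :: v) (0, k + i) = (hub v 0, k + (i : ℤ)) := by
    simp only [φD, Nat.sub_zero, pos_end, List.tail_cons]
  have e3 : φD ℓ (e :: v) (pl ℓ (e :: v) + 1, l') = (hub (e :: v) 0, l') := by
    simp only [φD, Nat.sub_self, pos_zero]
  have c2 : Conn (HG b M ℓ) ω (Tr v) (φD ℓ (e :: v) (1, k + i))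
      (φD ℓ (e :: v) (pl ℓ (e :: v), l')) := by
    refine hc.mono ?_
    rw [φD_Int]
    exact pathI_sub_Tr v e
  have s1 : Stp (HG b M ℓ) ω (Tr v) (hub v 0, k + i) (φD ℓ (e :: v) (1, k + i)) := by
    refine ⟨hub_mem_Tr v _ _, c2.left, ?_, ?_⟩
    · left
      refine ⟨?_, rfl⟩
      have := (pos_step (u := e :: v) hM hL' le_rfl).symm
      rw [pos_end] at this
      simpa [φD] using this
    · rw [← e0]; exact hr1
  have s2 : Stp (HG b M ℓ) ω (Tr v) (φD ℓ (e :: v) (pl ℓ (e :: v), l'))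
      (hub (e :: v) 0, l') := by
    refine ⟨c2.right, Tr_cons_sub v e (hub_mem_Tr _ _ _), ?_, ?_⟩
    · left
      refine ⟨?_, rfl⟩
      have := (pos_step (u := e :: v) (s := 0) hM hL' (Nat.zero_le _)).symm
      rw [pos_zero] at this
      have e5 : pl ℓ (e :: v) + 1 - pl ℓ (e :: v) = 0 + 1 := by omega
      simp only [φD]
      rw [e5]
      exact this
    · rw [← e3]; exact hr2
  exact ⟨_, rfl, y, hy, (((c1.tail s1).trans c2).tail s2).trans (hc2.mono (Tr_cons_sub v e))⟩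

theorem half_le {b : ℕ} (hb : 1 ≤ b) : (1 - (1 : ℝ) / b) ^ b ≤ 1 / 2 := by
  have hb' : (0 : ℝ) < b := by exact_mod_cast hb
  have hb1 : (1 : ℝ) ≤ b := by exact_mod_cast hb
  have h0 : (1 : ℝ) / b ≤ 1 := by rw [div_le_one hb']; exact hb1
  calc (1 - (1 : ℝ) / b) ^ b ≤ (Real.exp (-(1 / b))) ^ b := by
        gcongr
        exact Real.one_sub_le_exp_neg _
    _ = Real.exp (-1) := by
        rw [← Real.exp_nat_mul]
        congr 1
        field_simp
    _ ≤ 1 / 2 := by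
        have h1 : (2 : ℝ) ≤ Real.exp 1 := by
          have := Real.add_one_le_exp (1 : ℝ)
          linarith
        rw [Real.exp_neg, ← one_div]
        exact one_div_le_one_div_of_le (by norm_num) h1

end

end Pool.Agent.Helper57
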