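import Pool.Agent.Helper57.Lower

open MeasureTheory ProbabilityTheory Set Filter
open scoped ENNReal Topology

namespace Pool.Agent.Helper57

noncomputable section

open Raw

variable {M h ℓ : ℕ → ℕ}

theorem meas_HubEv {b : ℕ} {M ℓ : ℕ → ℕ} (v : List (Fin b)) (k : ℤ) (m : ℕ) :
    MeasurableSet (HubEv M ℓ v k m) := by
  have : HubEv M ℓ v k m = ⋂ i : ℕ, ⋂ _ : i ≤ m,
      {ω | Conn (HG b M ℓ) ω (Reg (ψH v) (M v.length) k (k + m + 1))
        (ψH v (0, k)) (ψH v (0, k + i))} := by
    ext ω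
    simp only [HubEv, mem_ofPred_eq, mem_iInter]
  rw [this]
  exact MeasurableSet.iInter fun i => MeasurableSet.iInter fun _ => meas_conn _ _ _ _

/-- The hub event has probability at least `3/4`. -/
theorem prob_HubEv (g : Good M h ℓ) (v : List (Fin b0)) (k : ℤ) {m : ℕ}
    (hm : m + 1 = h v.length) :
    PB p0 _ (HubEv M ℓ v k m)ᶜ ≤ ENNReal.ofReal (1 / 4) := by
  have h1 := prob_hub (p := p0) (ψH_emb (b := b0) (M := M) (ℓ := ℓ) v) (g.M_ge _) (g.hub _) k m
  refine le_trans (le_of_eq ?_) (h1.trans ?_)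
  · rfl
  · have h2 : ((m : ℝ≥0∞) + 1) = ENNReal.ofReal (h v.length) := by
      rw [← hm, ENNReal.ofReal_natCast]
      push_cast
      rfl
    rw [h2, xc_p0, ← ENNReal.ofReal_pow x0_pos.le,
      show (3 : ℝ≥0∞) = ENNReal.ofReal 3 by simp, ← ENNReal.ofReal_mul (by norm_num),
      ← ENNReal.ofReal_mul (by positivity)]
    refine ENNReal.ofReal_le_ofReal ?_
    have h3 := g.h_upp v.length
    have h4 := g.M_ge v.length
    have h5 : x0 ^ (M v.length) = x0 ^ (M v.length - 2) * x0 ^ 2 := by
      rw [← pow_add]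
      congr 1
      omega
    rw [h5] at h3
    have h6 : (3 / 4 : ℝ) ≤ x0 ^ 2 := by norm_num [x0]
    have h7 : 0 ≤ (h v.length : ℝ) * x0 ^ (M v.length - 2) := by
      have := x0_pos
      positivity
    nlinarith

/-- Survival has probability at least `1/4`. -/
theorem prob_Surv (g : Good M h ℓ) (J : ℕ) : ∀ d : ℕ, ∀ v : List (Fin b0),
    v.length + d = J → ∀ k : ℤ, ENNReal.ofReal (1 / 4) ≤ PB p0 _ (Surv M ℓ J v k) := by
  intro d
  induction d with
  | zero =>
    intro v hv k
    rw [prob_Surv_base (by simpa using hv), ENNReal.ofReal_le_one]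
    norm_num
  | succ d ih =>
    intro v hv k
    obtain ⟨m, hm⟩ : ∃ m, m + 1 = h v.length :=
      ⟨h v.length - 1, by have := g.h_pos v.length; omega⟩
    have hR : ∀ e : Fin b0, ENNReal.ofReal (1 / 2 ^ 170) ≤
        PB p0 _ (Rc M ℓ J v k (m + 1) e) := by
      intro e
      have h1 := prob_Rc (M := M) (ℓ := ℓ) (J := J) (v := v) (k := k) (h := m + 1) (e := e)
        (p := p0) (a := ENNReal.ofReal (1 / 4)) (g.l_pos _)
        (fun l => ih (e :: v) (by rw [List.length_cons]; omega) l)
      refine le_trans ?_ h1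
      rw [hm]
      calc ENNReal.ofReal (1 / 2 ^ 170) =
            ENNReal.ofReal (1 / 4) * ENNReal.ofReal (1 / 2 ^ 168) := by
            rw [← ENNReal.ofReal_mul (by norm_num)]
            norm_num
        _ ≤ _ := by
            gcongr
            exact g.Q_low _
    -- complement of the union
    have hU : PB p0 _ (⋂ e ∈ (Finset.univ : Finset (Fin b0)), (Rc M ℓ J v k (m + 1) e)ᶜ) ≤
        ENNReal.ofReal (1 / 2) := by
      rw [PB_biInter Finset.univ (T := fun e => Ue ℓ v e)
        (fun e _ => (meas_Rc J v k (m + 1) e).compl)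
        (fun e _ => (Dep_Rc J v k (m + 1) e (g.l_pos _)).compl)
        (fun e _ e' _ hne => Ue_disj v hne)]
      calc ∏ e : Fin b0, PB p0 _ (Rc M ℓ J v k (m + 1) e)ᶜ
          ≤ ∏ e : Fin b0, ENNReal.ofReal (1 - 1 / (b0 : ℕ)) := by
            refine Finset.prod_le_prod' fun e _ => ?_
            rw [prob_compl_eq_one_sub (meas_Rc J v k (m + 1) e),
              ENNReal.ofReal_sub _ (by positivity), ENNReal.ofReal_one]
            refine tsub_le_tsub_left ?_ 1
            refine le_trans (ENNReal.ofReal_le_ofReal ?_) (hR e)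
            norm_num
        _ = ENNReal.ofReal ((1 - 1 / (b0 : ℕ)) ^ b0) := by
            rw [Finset.prod_const, Finset.card_univ, Fintype.card_fin, ENNReal.ofReal_pow]
            norm_num
        _ ≤ ENNReal.ofReal (1 / 2) :=
            ENNReal.ofReal_le_ofReal (half_le (Nat.one_le_two_pow))
    have hsub : (Surv M ℓ J v k)ᶜ ⊆ (HubEv M ℓ v k m)ᶜ ∪
        ⋂ e ∈ (Finset.univ : Finset (Fin b0)), (Rc M ℓ J v k (m + 1) e)ᶜ := by
      intro ω hω
      by_cases h1 : ω ∈ HubEv M ℓ v k m
      · right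
        simp only [mem_iInter, Finset.mem_univ, true_implies, mem_compl_iff]
        intro e he
        exact hω (Surv_of (fun j => by have := g.M_ge j; omega) (g.l_pos _) h1 he)
      · exact Or.inl h1
    have h3 : PB p0 _ (Surv M ℓ J v k)ᶜ ≤ ENNReal.ofReal (3 / 4) := by
      calc PB p0 _ (Surv M ℓ J v k)ᶜ ≤ ENNReal.ofReal (1 / 4) + ENNReal.ofReal (1 / 2) :=
            (measure_mono hsub).trans ((measure_union_le _ _).trans
              (add_le_add (prob_HubEv g v k hm) hU))
        _ = ENNReal.ofReal (3 / 4) := by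
            rw [← ENNReal.ofReal_add (by norm_num) (by norm_num)]
            norm_num
    have h4 := prob_add_prob_compl (μ := PB p0 (Sym2 (Raw b0 × ℤ)))
      (meas_hits (HG b0 M ℓ) (Tr v) {(hub v 0, k)}
        {x | ∃ u : List (Fin b0), u.length = J ∧ x.1 = hub u 0})
    have h5 : (1 : ℝ≥0∞) ≤ PB p0 _ (Surv M ℓ J v k) + ENNReal.ofReal (3 / 4) := by
      rw [← h4]
      exact add_le_add le_rfl h3
    have h6 : ENNReal.ofReal (1 / 4) + ENNReal.ofReal (3 / 4) ≤
        PB p0 _ (Surv M ℓ J v k) + ENNReal.ofReal (3 / 4) := by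
      refine le_trans (le_of_eq ?_) h5
      rw [← ENNReal.ofReal_add (by norm_num) (by norm_num)]
      norm_num
    exact (ENNReal.add_le_add_iff_right ENNReal.ofReal_ne_top).1 h6

end

end Pool.Agent.Helper57
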