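import Pool.Agent.Helper57.Combo

open MeasureTheory ProbabilityTheory Set Filter
open scoped ENNReal Topology

namespace Pool.Agent.Helper57

noncomputable section

open Raw

variable {b : ℕ} {M ℓ : ℕ → ℕ}

/-- The vertex type: valid raw vertices. -/
abbrev VV (b : ℕ) (M ℓ : ℕ → ℕ) : Type := {x : Raw b // valid M ℓ x}

/-- The graph. -/
def GG (b : ℕ) (M ℓ : ℕ → ℕ) : SimpleGraph (VV b M ℓ) := (G0 b M ℓ).comap Subtype.val

theorem raw_reach {x y : Raw b} (h : (G0 b M ℓ).Reachable x y) (hx : valid M ℓ x)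
    (hy : valid M ℓ y) : (GG b M ℓ).Reachable ⟨x, hx⟩ ⟨y, hy⟩ := by
  obtain ⟨w⟩ := h
  induction w with
  | nil => exact SimpleGraph.Reachable.refl _
  | @cons a c d hadj w ih =>
    have h1 : (GG b M ℓ).Adj ⟨a, hx⟩ ⟨c, hadj.2.1⟩ := hadj
    exact h1.reachable.trans (ih hadj.2.1 hy)

theorem pos_reach (hM : ∀ j, 1 ≤ M j) {u : List (Fin b)} (hl : 1 ≤ pl ℓ u) :
    ∀ s, s ≤ pl ℓ u + 1 → (G0 b M ℓ).Reachable (pos ℓ u 0) (pos ℓ u s) := by
  intro s
  induction s with
  | zero => intro _; exact SimpleGraph.Reachable.refl _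
  | succ s ih =>
    intro hs
    exact (ih (by omega)).trans (pos_step hM hl (by omega)).reachable

theorem reach_root (hM : ∀ j, 1 ≤ M j) (hl : ∀ j, 1 ≤ ℓ j) :
    ∀ u : List (Fin b), (G0 b M ℓ).Reachable (hub u 0) (hub [] 0) := by
  intro u
  induction u with
  | nil => exact SimpleGraph.Reachable.refl _
  | cons e u ih =>
    have h1 : 1 ≤ pl ℓ (e :: u) := hl _
    have h2 := pos_reach hM h1 (pl ℓ (e :: u) + 1) le_rfl
    rw [pos_zero, pos_end, List.tail_cons] at h2
    exact h2.trans ih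

theorem reach_all (hM : ∀ j, 1 ≤ M j) (hl : ∀ j, 1 ≤ ℓ j) {x : Raw b} (hx : valid M ℓ x) :
    (G0 b M ℓ).Reachable x (hub [] 0) := by
  cases x with
  | hub v i =>
    rcases Nat.eq_zero_or_pos i with rfl | h0
    · exact reach_root hM hl v
    · have h1 : (G0 b M ℓ).Adj (hub v i) (hub v 0) := ⟨hx, hM _, rfl, by omega⟩
      exact h1.reachable.trans (reach_root hM hl v)
  | path v t =>
    have hv : t < pl ℓ v := hx
    have h1 : 1 ≤ pl ℓ v := by omega
    have h2 := pos_reach hM h1 (t + 1) (by omega)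
    rw [pos_zero, pos_mid (by omega) (by omega), Nat.add_sub_cancel] at h2
    exact h2.symm.trans (reach_root hM hl v)

theorem GG_conn (hM : ∀ j, 1 ≤ M j) (hl : ∀ j, 1 ≤ ℓ j) : (GG b M ℓ).Connected := by
  have hr : valid M ℓ (hub [] 0 : Raw b) := hM _
  have : Nonempty (VV b M ℓ) := ⟨⟨hub [] 0, hr⟩⟩
  refine SimpleGraph.Connected.mk fun x y => ?_
  exact (raw_reach (reach_all hM hl x.2) x.2 hr).trans
    (raw_reach (reach_all hM hl y.2) y.2 hr).symm

theorem VV_infinite (hM : ∀ j, 1 ≤ M j) (hb : 0 < b) : Infinite (VV b M ℓ) := by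
  refine Infinite.of_injective
    (fun n : ℕ => (⟨hub (List.replicate n ⟨0, hb⟩) 0, hM _⟩ : VV b M ℓ)) ?_
  intro m n h
  simp only [Subtype.mk.injEq, Raw.hub.injEq, and_true] at h
  have := congrArg List.length h
  simpa using this

theorem nbr_finite (x : Raw b) : {y | (G0 b M ℓ).Adj x y}.Finite := by
  cases x with
  | hub v i =>
    have hf : (((fun j => hub v j) '' (Set.Iio (M v.length))) ∪ ({path v 0} ∪
        (Set.range fun e : Fin b => path (e :: v) (ℓ v.length - 1)))).Finite :=
      ((Set.finite_Iio _).image _).union ((Set.finite_singleton _).union (Set.finite_range _))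
    refine hf.subset ?_
    rintro y ⟨_, hy, hadj⟩
    cases y with
    | hub w j =>
      obtain ⟨rfl, _⟩ := hadj
      exact Or.inl ⟨j, hy, rfl⟩
    | path w t =>
      obtain ⟨_, ⟨rfl, rfl⟩ | ⟨h1, h2⟩⟩ := hadj
      · exact Or.inr (Or.inl rfl)
      · right; right
        cases w with
        | nil => simp [pl] at h2
        | cons e w =>
          simp only [List.tail_cons] at h1
          subst h1
          simp only [pl] at h2
          refine ⟨e, ?_⟩
          simp only
          congr 1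
          omega
  | path v t =>
    have hf : ({path v (t + 1), path v (t - 1), hub v 0, hub v.tail 0} : Set (Raw b)).Finite := by
      simp
    refine hf.subset ?_
    rintro y ⟨_, hy, hadj⟩
    cases y with
    | hub w j =>
      obtain ⟨rfl, ⟨rfl, rfl⟩ | ⟨h1, h2⟩⟩ := hadj
      · simp
      · simp [h1]
    | path w s =>
      obtain ⟨rfl, h1 | h1⟩ := hadj
      · simp [h1]
      · have : s = t - 1 := by omega
        simp [this]

theorem GG_locfin (x : VV b M ℓ) : ((GG b M ℓ).neighborSet x).Finite := by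
  have h1 := (nbr_finite (M := M) (ℓ := ℓ) x.1).preimage
    (f := (Subtype.val : VV b M ℓ → Raw b)) Subtype.val_injective.injOn
  exact h1.subset fun y hy => hy

theorem level_finite (J : ℕ) : {x : VV b M ℓ | (node x.1).length ≤ J}.Finite := by
  have h1 : {x : Raw b | valid M ℓ x ∧ (node x).length ≤ J}.Finite := by
    have h2 : (⋃ v ∈ {v : List (Fin b) | v.length ≤ J},
        (((fun j => hub v j) '' (Set.Iio (M v.length))) ∪
          ((fun j => path v j) '' (Set.Iio (pl ℓ v))))).Finite := by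
      refine (List.finite_length_le (Fin b) J).biUnion fun v _ => ?_
      exact ((Set.finite_Iio _).image _).union ((Set.finite_Iio _).image _)
    refine h2.subset ?_
    rintro x ⟨hx, hn⟩
    simp only [mem_iUnion]
    refine ⟨node x, hn, ?_⟩
    cases x with
    | hub v i => exact Or.inl ⟨i, hx, rfl⟩
    | path v t => exact Or.inr ⟨t, hx, rfl⟩
  have h3 := h1.preimage (f := (Subtype.val : VV b M ℓ → Raw b)) Subtype.val_injective.injOn
  exact h3.subset fun x hx => ⟨x.2, hx⟩

/-- The set below the edge `t` of the path above `u`. -/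
def Bl (u : List (Fin b)) (t : ℕ) : Set (Raw b) :=
  {z | u <:+ node z ∧ ∀ s, z = path u s → s < t}

theorem Bl_cut {u : List (Fin b)} {t : ℕ} (ht : t < pl ℓ u) {z1 z2 : Raw b}
    (hadj : (G0 b M ℓ).Adj z1 z2) (h1 : z1 ∉ Bl u t) (h2 : z2 ∈ Bl u t) :
    z1 = path u t ∧ z2 = pos ℓ u t := by
  obtain ⟨hv1, hv2, hadj⟩ := hadj
  obtain ⟨h2a, h2b⟩ := h2
  simp only [Bl, mem_ofPred_eq, not_and, not_forall] at h1
  have htail : ∀ w : List (Fin b), w ≠ [] → ¬ (w <:+ w.tail) := by
    intro w hw h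
    have h3 := h.length_le
    rw [List.length_tail] at h3
    have : 0 < w.length := List.length_pos_iff.2 hw
    omega
  cases z2 with
  | hub w j =>
    cases z1 with
    | hub w' j' =>
      obtain ⟨rfl, _⟩ := hadj
      obtain ⟨s, hs, _⟩ := h1 h2a
      cases hs
    | path w' s =>
      obtain ⟨rfl, ⟨rfl, rfl⟩ | ⟨h3, h4⟩⟩ := hadj
      · obtain ⟨s', hs, hst⟩ := h1 h2a
        simp only [Raw.path.injEq] at hs
        obtain ⟨rfl, rfl⟩ := hs
        have : t = 0 := by omega
        subst this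
        exact ⟨rfl, (pos_zero _).symm⟩
      · exfalso
        have hw' : w' ≠ [] := by
          rintro rfl
          simp [pl] at h4
        simp only [node] at h2a
        rw [← h3] at h2a
        obtain ⟨s', hs, _⟩ := h1 (h2a.trans (List.tail_suffix w'))
        simp only [Raw.path.injEq] at hs
        obtain ⟨rfl, _⟩ := hs
        exact htail _ hw' h2a
  | path w s =>
    cases z1 with
    | hub w' j' =>
      exfalso
      obtain ⟨rfl, ⟨rfl, rfl⟩ | ⟨h3, h4⟩⟩ := hadj
      · obtain ⟨s', hs, _⟩ := h1 h2a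
        cases hs
      · have hw : w ≠ [] := by
          rintro rfl
          simp [pl] at h4
        by_cases hu : u <:+ w'
        · obtain ⟨s', hs, _⟩ := h1 hu
          cases hs
        · have h5 : w = u := by
            simp only [node] at h2a
            cases w with
            | nil => exact absurd rfl hw
            | cons e w =>
              rcases List.suffix_cons_iff.1 h2a with h6 | h6
              · exact h6.symm
              · simp only [List.tail_cons] at h3
                rw [h3] at h6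
                exact absurd h6 hu
          subst h5
          have := h2b s rfl
          omega
    | path w' s' =>
      obtain ⟨rfl, h3⟩ := hadj
      obtain ⟨s'', hs, hst⟩ := h1 h2a
      simp only [Raw.path.injEq] at hs
      obtain ⟨rfl, rfl⟩ := hs
      have h4 := h2b s rfl
      have h5 : s + 1 = s' := by omega
      have h6 : t = s' := by omega
      subst h6
      refine ⟨rfl, ?_⟩
      rw [pos_mid (by omega) (by omega)]
      congr 1
      omega

open Classical in
/-- total map to valid vertices -/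
def toV (hM : ∀ j, 1 ≤ M j) (x : Raw b) : VV b M ℓ :=
  if h : valid M ℓ x then ⟨x, h⟩ else ⟨hub [] 0, hM _⟩

theorem toV_val (hM : ∀ j, 1 ≤ M j) {x : Raw b} (h : valid M ℓ x) :
    (toV (ℓ := ℓ) hM x).1 = x := by
  simp [toV, h]

/-- the edge `t` of the path above `u` -/
def eV (ℓ : ℕ → ℕ) (hM : ∀ j, 1 ≤ M j) (u : List (Fin b)) (t : ℕ) : Sym2 (VV b M ℓ) :=
  s(toV hM (pos ℓ u t), toV hM (path u t))

theorem valid_pos (hM : ∀ j, 1 ≤ M j) {u : List (Fin b)} {t : ℕ} (ht : t < pl ℓ u) :
    valid M ℓ (pos ℓ u t) := by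
  rcases Nat.eq_zero_or_pos t with rfl | h0
  · rw [pos_zero]; exact hM _
  · rw [pos_mid h0 (by omega)]
    simp only [valid]
    omega

theorem eV_inj (hM : ∀ j, 1 ≤ M j) {u w : List (Fin b)} {s t : ℕ} (hs : s < pl ℓ u)
    (ht : t < pl ℓ w) (h : eV ℓ hM u s = eV ℓ hM w t) : u = w ∧ s = t := by
  have h1 := congrArg (Sym2.map Subtype.val) h
  simp only [eV, Sym2.map_mk] at h1
  rw [toV_val hM (valid_pos hM hs), toV_val hM (valid_pos hM ht),
    toV_val hM (show valid M ℓ (path u s) from hs),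
    toV_val hM (show valid M ℓ (path w t) from ht), Sym2.eq_iff] at h1
  simp only [Raw.path.injEq] at h1
  rcases h1 with ⟨_, h1⟩ | ⟨h1, h2⟩
  · exact h1
  · exfalso
    simp only [pos] at h1 h2
    split_ifs at h1 h2
    simp only [Raw.path.injEq] at h1 h2
    omega

/-- Crossing the cut. -/
theorem cut_open_aux (hM : ∀ j, 1 ≤ M j) {ξ : Set (Sym2 (VV b M ℓ))} {x y : VV b M ℓ}
    (h : (GG b M ℓ ⊓ SimpleGraph.fromEdgeSet ξ).Reachable x y) {u : List (Fin b)}
    {t : ℕ} (ht : t < pl ℓ u) (hxB : x.1 ∉ Bl u t) (hyB : y.1 ∈ Bl u t) :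
    eV ℓ hM u t ∈ ξ := by
  obtain ⟨w⟩ := h
  induction w with
  | nil => exact absurd hyB hxB
  | @cons a c d hadj w ih =>
    by_cases hc : c.1 ∈ Bl u t
    · obtain ⟨h3, h4⟩ := Bl_cut ht (show (G0 b M ℓ).Adj a.1 c.1 from hadj.1) hxB hc
      have h5 := hadj.2
      rw [SimpleGraph.fromEdgeSet_adj] at h5
      have h6 : eV ℓ hM u t = s(a, c) := by
        rw [eV, Sym2.eq_swap]
        congr 2
        · apply Subtype.ext
          rw [toV_val hM (show valid M ℓ (path u t) from ht), h3]
        · apply Subtype.ext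
          rw [toV_val hM (valid_pos hM ht), h4]
      rw [h6]; exact h5.1
    · exact ih hc hyB

/-- Crossing the cut: all the edges above an intermediate node are open. -/
theorem cut_open (hM : ∀ j, 1 ≤ M j) {ξ : Set (Sym2 (VV b M ℓ))} {x y : VV b M ℓ}
    (h : (GG b M ℓ ⊓ SimpleGraph.fromEdgeSet ξ).Reachable x y) {u : List (Fin b)}
    (hu : u <:+ node y.1) (hx : (node x.1).length < u.length)
    (hy : u.length < (node y.1).length) {t : ℕ} (ht : t < pl ℓ u) : eV ℓ hM u t ∈ ξ := by
  refine cut_open_aux hM h ht ?_ ⟨hu, fun s hs => ?_⟩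
  · rintro ⟨h1, _⟩
    have := h1.length_le
    omega
  · rw [hs] at hy
    simp [node] at hy

open Classical in
/-- The edges above the ancestors of `u` at levels `j0 < i + 1 ≤ J`. -/
def sU (ℓ : ℕ → ℕ) (hM : ∀ j, 1 ≤ M j) (j0 J : ℕ) (u : List (Fin b)) :
    Finset (Sym2 (VV b M ℓ)) :=
  Finset.image (fun q : (_ : ℕ) × ℕ => eV ℓ hM (u.drop (J - (q.1 + 1))) q.2)
    ((Finset.Ico j0 J).sigma (fun i => Finset.range (ℓ i)))

theorem drop_facts {u : List (Fin b)} {J i : ℕ} (hu : u.length = J) (hi : i < J) :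
    (u.drop (J - (i + 1))).length = i + 1 ∧ pl ℓ (u.drop (J - (i + 1))) = ℓ i := by
  have h1 : (u.drop (J - (i + 1))).length = i + 1 := by
    rw [List.length_drop, hu]; omega
  refine ⟨h1, ?_⟩
  generalize u.drop (J - (i + 1)) = w at h1
  cases w with
  | nil => simp at h1
  | cons e w =>
    simp only [List.length_cons, Nat.add_right_cancel_iff] at h1
    simp only [pl, h1]

theorem sU_card (hM : ∀ j, 1 ≤ M j) {j0 J : ℕ} {u : List (Fin b)} (hu : u.length = J) :
    (sU ℓ hM j0 J u).card = ∑ i ∈ Finset.Ico j0 J, ℓ i := by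
  classical
  rw [sU, Finset.card_image_of_injOn, Finset.card_sigma]
  · simp
  · rintro ⟨i, s⟩ hs ⟨j, t⟩ ht h
    simp only [Finset.coe_sigma, Set.mem_sigma_iff, Finset.coe_Ico, Set.mem_Ico,
      Finset.coe_range, Set.mem_Iio] at hs ht
    obtain ⟨l1, p1⟩ := drop_facts (ℓ := ℓ) hu hs.1.2
    obtain ⟨l2, p2⟩ := drop_facts (ℓ := ℓ) hu ht.1.2
    obtain ⟨h1, h2⟩ := eV_inj hM (by rw [p1]; exact hs.2) (by rw [p2]; exact ht.2) h
    rw [h1, l2] at l1
    have h3 : i = j := by omega
    subst h3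
    simp only at h2
    rw [h2]

theorem reach_all_open (hM : ∀ j, 1 ≤ M j) {ξ : Set (Sym2 (VV b M ℓ))} {x y : VV b M ℓ}
    (h : (GG b M ℓ ⊓ SimpleGraph.fromEdgeSet ξ).Reachable x y) {J : ℕ}
    (hy : J < (node y.1).length) :
    ∃ u : List (Fin b), u.length = J ∧ ∀ e ∈ sU ℓ hM (node x.1).length J u, e ∈ ξ := by
  classical
  have hl : ((node y.1).drop ((node y.1).length - J)).length = J := by
    rw [List.length_drop]; omega
  refine ⟨(node y.1).drop ((node y.1).length - J), hl, ?_⟩
  intro e he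
  rw [sU, Finset.mem_image] at he
  obtain ⟨⟨i, t⟩, hq, rfl⟩ := he
  simp only [Finset.mem_sigma, Finset.mem_Ico, Finset.mem_range] at hq
  obtain ⟨l1, p1⟩ := drop_facts (ℓ := ℓ) hl hq.1.2
  refine cut_open hM h ?_ (by rw [l1]; omega) (by rw [l1]; omega) (by rw [p1]; exact hq.2)
  exact (List.drop_suffix _ _).trans (List.drop_suffix _ _)

end

end Pool.Agent.Helper57
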