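import Pool.Agent.Helper57.PC

open MeasureTheory ProbabilityTheory Set Filter
open scoped ENNReal Topology

namespace Pool.Agent.Helper57

noncomputable section

open Raw

variable {b : ℕ} {M h ℓ : ℕ → ℕ}

/-- The path lengths tend to infinity. -/
theorem l_tendsto (g : Good M h ℓ) : Tendsto ℓ atTop atTop := by
  rw [tendsto_atTop]
  intro L
  set y : ℝ≥0∞ := 1 - ENNReal.ofReal ((p0 : unitInterval) : ℝ) ^ (L + 1) with hy
  have hy1 : y < 1 := by
    refine ENNReal.sub_lt_self ENNReal.one_ne_top one_ne_zero ?_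
    refine pow_ne_zero _ ?_
    rw [p0_val]
    exact (ENNReal.ofReal_pos.2 (by norm_num)).ne'
  have h1 := ENNReal.tendsto_pow_atTop_nhds_zero_of_lt_one hy1
  have h2 := h1.eventually (gt_mem_nhds (show (0 : ℝ≥0∞) < 1 / 2 by simp))
  filter_upwards [h2] with j hj
  by_contra hcon
  push Not at hcon
  have h3 := Q_lower (p := p0) (g.l_pos j) (h j)
  have h4 : (1 - ENNReal.ofReal ((p0 : unitInterval) : ℝ) ^ (ℓ j + 1)) ^ (h j) ≤ y ^ j := by
    calc (1 - ENNReal.ofReal ((p0 : unitInterval) : ℝ) ^ (ℓ j + 1)) ^ (h j) ≤ y ^ (h j) := by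
          have h5 : ENNReal.ofReal ((p0 : unitInterval) : ℝ) ^ (L + 1) ≤
              ENNReal.ofReal ((p0 : unitInterval) : ℝ) ^ (ℓ j + 1) := by
            refine pow_le_pow_right_of_le_one' ?_ (by omega)
            rw [ENNReal.ofReal_le_one]
            exact p0.2.2
          exact pow_le_pow_left' (tsub_le_tsub_left h5 1) _
      _ ≤ y ^ j := pow_le_pow_right_of_le_one' hy1.le (by have := g.h_pos j; omega)
  have h5 : Q p0 (ℓ j) (h j) ≤ 1 / 2 := by
    refine (g.Q_upp j).trans ?_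
    rw [show (1 : ℝ≥0∞) / 2 = ENNReal.ofReal (1 / 2) by
      rw [ENNReal.ofReal_div_of_pos (by norm_num)]; simp]
    exact ENNReal.ofReal_le_ofReal (by norm_num)
  have h6 : (1 : ℝ≥0∞) < 1 := by
    calc (1 : ℝ≥0∞) ≤ Q p0 (ℓ j) (h j) +
          (1 - ENNReal.ofReal ((p0 : unitInterval) : ℝ) ^ (ℓ j + 1)) ^ (h j) := h3
      _ ≤ 1 / 2 + y ^ j := add_le_add h5 h4
      _ < 1 / 2 + 1 / 2 := by
          refine ENNReal.add_lt_add_left ?_ hj
          simp
      _ = 1 := ENNReal.add_halves 1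
  exact lt_irrefl _ h6

/-- The counting bound tends to zero. -/
theorem count_tendsto (hl : Tendsto ℓ atTop atTop) {q : ℝ} (hq0 : 0 ≤ q) (hq1 : q < 1)
    (b j0 : ℕ) :
    Tendsto (fun J => (b : ℝ) ^ J * q ^ (∑ i ∈ Finset.Ico j0 J, ℓ i)) atTop (𝓝 0) := by
  have h1 : Tendsto (fun i => (b : ℝ) * q ^ (ℓ i)) atTop (𝓝 0) := by
    have := ((tendsto_pow_atTop_nhds_zero_of_lt_one hq0 hq1).comp hl).const_mul (b : ℝ)
    simpa using this
  have h2 := h1.eventually (gt_mem_nhds (show (0 : ℝ) < 1 / 2 by norm_num))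
  refine Summable.tendsto_atTop_zero ?_
  refine summable_of_ratio_norm_eventually_le (r := 1 / 2) (by norm_num) ?_
  filter_upwards [h2, eventually_ge_atTop j0] with J hJ hJ0
  have h3 : 0 ≤ (b : ℝ) ^ J * q ^ (∑ i ∈ Finset.Ico j0 J, ℓ i) := by positivity
  have h4 : 0 ≤ (b : ℝ) ^ (J + 1) * q ^ (∑ i ∈ Finset.Ico j0 (J + 1), ℓ i) := by positivity
  rw [Real.norm_of_nonneg h3, Real.norm_of_nonneg h4, Finset.sum_Ico_succ_top hJ0, pow_succ,
    pow_add]
  calc (b : ℝ) ^ J * b * (q ^ (∑ i ∈ Finset.Ico j0 J, ℓ i) * q ^ ℓ J)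
      = (b * q ^ ℓ J) * ((b : ℝ) ^ J * q ^ (∑ i ∈ Finset.Ico j0 J, ℓ i)) := by ring
    _ ≤ 1 / 2 * ((b : ℝ) ^ J * q ^ (∑ i ∈ Finset.Ico j0 J, ℓ i)) := by gcongr

/-- `p_c (G) = 1`. -/
theorem pc_one (hM : ∀ j, 1 ≤ M j) (hl : Tendsto ℓ atTop atTop) {q : ℝ} (hq0 : 0 ≤ q)
    (hq1 : q < 1) {Ω : Type} [MeasurableSpace Ω] (P : Measure Ω) [IsProbabilityMeasure P]
    (ξ : Ω → Set (Sym2 (VV b M ℓ)))
    (_hm : ∀ e : Sym2 (VV b M ℓ), MeasurableSet {w : Ω | e ∈ ξ w})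
    (hi : iIndepSet (fun e : Sym2 (VV b M ℓ) => {w : Ω | e ∈ ξ w}) P)
    (hP : ∀ e : Sym2 (VV b M ℓ), P {w : Ω | e ∈ ξ w} = ENNReal.ofReal q) :
    ∀ᵐ w ∂P, ∀ x : VV b M ℓ, Set.Finite {y : VV b M ℓ |
      (GG b M ℓ ⊓ SimpleGraph.fromEdgeSet (ξ w)).Reachable x y} := by
  rw [ae_all_iff]
  intro x
  set j0 := (node x.1).length with hj0
  set A : ℕ → Set Ω := fun J => ⋃ f : Fin J → Fin b, {w | ∀ e ∈ sU ℓ hM j0 J (List.ofFn f), e ∈ ξ w}
    with hA
  have hPA : ∀ J, P (A J) ≤ ENNReal.ofReal ((b : ℝ) ^ J * q ^ (∑ i ∈ Finset.Ico j0 J, ℓ i)) := by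
    intro J
    refine (measure_iUnion_le _).trans ?_
    rw [tsum_fintype]
    have h1 : ∀ f : Fin J → Fin b, P {w | ∀ e ∈ sU ℓ hM j0 J (List.ofFn f), e ∈ ξ w} =
        ENNReal.ofReal q ^ (∑ i ∈ Finset.Ico j0 J, ℓ i) := by
      intro f
      have h2 := hi.meas_biInter (sU ℓ hM j0 J (List.ofFn f))
      have h3 : {w | ∀ e ∈ sU ℓ hM j0 J (List.ofFn f), e ∈ ξ w} =
          ⋂ e ∈ sU ℓ hM j0 J (List.ofFn f), {w | e ∈ ξ w} := by
        ext w
        simp only [mem_ofPred_eq, mem_iInter]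
      rw [h3, h2]
      simp only [hP, Finset.prod_const]
      rw [sU_card hM (by simp)]
    simp only [h1, Finset.sum_const, Finset.card_univ, Fintype.card_fun, Fintype.card_fin,
      nsmul_eq_mul]
    rw [ENNReal.ofReal_mul (by positivity), ENNReal.ofReal_pow (by positivity),
      ENNReal.ofReal_pow hq0, ENNReal.ofReal_natCast]
    push_cast
    exact le_rfl
  have hsub : {w | ¬ Set.Finite {y : VV b M ℓ |
      (GG b M ℓ ⊓ SimpleGraph.fromEdgeSet (ξ w)).Reachable x y}} ⊆ ⋂ J, A J := by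
    intro w hw
    rw [mem_iInter]
    intro J
    have h1 : ∃ y : VV b M ℓ, (GG b M ℓ ⊓ SimpleGraph.fromEdgeSet (ξ w)).Reachable x y ∧
        J < (node y.1).length := by
      by_contra hcon
      push Not at hcon
      exact hw ((level_finite (M := M) (ℓ := ℓ) (b := b) J).subset fun y hy => hcon y hy)
    obtain ⟨y, hy, hJ⟩ := h1
    obtain ⟨u, hu, hall⟩ := reach_all_open hM hy hJ
    simp only [hA, mem_iUnion]
    subst hu
    exact ⟨u.get, by rw [List.ofFn_get]; exact hall⟩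
  have h0 : P (⋂ J, A J) = 0 := by
    have h1 := count_tendsto hl hq0 hq1 b j0
    have h2 := (ENNReal.continuous_ofReal.tendsto 0).comp h1
    rw [ENNReal.ofReal_zero] at h2
    refine le_antisymm ?_ bot_le
    refine ge_of_tendsto' h2 fun J => ?_
    exact (measure_mono (iInter_subset _ J)).trans (hPA J)
  exact measure_mono_null hsub h0

end

end Pool.Agent.Helper57
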