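import Pool.Agent.Helper57.Upper4

open MeasureTheory ProbabilityTheory Set Filter
open scoped ENNReal Topology

namespace Pool.Agent.Helper57

noncomputable section

/-- the parameter `p = 2^{-64}` -/
def p0 : unitInterval := ⟨1 / 2 ^ 64, by norm_num, by norm_num⟩

theorem p0_val : ((p0 : unitInterval) : ℝ) = 1 / 2 ^ 64 := rfl

/-- The branching number. -/
abbrev b0 : ℕ := 2 ^ 170

/-- closing probability as a real number -/
def x0 : ℝ := 1 - 1 / 2 ^ 64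

theorem x0_pos : 0 < x0 := by norm_num [x0]
theorem x0_lt : x0 < 1 := by norm_num [x0]
theorem x0_inv : 1 + 1 / 2 ^ 64 ≤ x0⁻¹ := by norm_num [x0]
theorem x0_inv' : x0⁻¹ ≤ 1 + 2 / 2 ^ 64 := by norm_num [x0]

theorem xc_p0 : xc p0 = ENNReal.ofReal x0 := rfl

theorem dk_p0 : dk p0 = ENNReal.ofReal (1 / 2 ^ 62) := by
  rw [dk, p0_val]
  rw [show (4 : ℝ≥0∞) = ENNReal.ofReal 4 by simp, ← ENNReal.ofReal_mul (by norm_num)]
  norm_num

theorem dk_p0_le : dk p0 ≤ 1 / 2 := by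
  rw [dk_p0]
  rw [show (1 : ℝ≥0∞) / 2 = ENNReal.ofReal (1 / 2) by
    rw [ENNReal.ofReal_div_of_pos (by norm_num)]; simp]
  exact ENNReal.ofReal_le_ofReal (by norm_num)

/-- The list of properties of the parameters which are used. -/
structure Good (M h ℓ : ℕ → ℕ) : Prop where
  M_ge : ∀ j, 8 ≤ M j
  hub : ∀ j, 4 * (M j : ℝ) * (1 - (p0 : ℝ)) ^ (M j / 8) ≤ 1
  h_pos : ∀ j, j + 1 ≤ h j
  h_mono : ∀ j, h j ≤ h (j + 1)
  h_two : ∀ j, h (j + 1) ≤ 2 * h j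
  h_low : ∀ j, 1 ≤ 32 * (h j : ℝ) * x0 ^ (M j)
  h_upp : ∀ j, 16 * (h j : ℝ) * x0 ^ (M j) ≤ 1
  l_pos : ∀ j, 1 ≤ ℓ j
  Q_low : ∀ j, ENNReal.ofReal (1 / 2 ^ 168) ≤ Q p0 (ℓ j) (h j)
  Q_upp : ∀ j, Q p0 (ℓ j) (h j) ≤ ENNReal.ofReal (1 / 2 ^ 104)

theorem Q_one_ge {h : ℕ} (hh : 1 ≤ h) : ENNReal.ofReal (1 / 2 ^ 168) ≤ Q p0 1 h := by
  have h1 : Q p0 1 1 ≤ Q p0 1 h := Q_mono hh
  refine le_trans ?_ h1
  have h2 := Q_lower (p := p0) (L := 1) le_rfl 1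
  rw [pow_one] at h2
  have h3 : ENNReal.ofReal ((p0 : unitInterval) : ℝ) ^ (1 + 1) = ENNReal.ofReal (1 / 2 ^ 128) := by
    rw [p0_val, ← ENNReal.ofReal_pow (by norm_num)]
    norm_num
  rw [h3] at h2
  have h4 : ENNReal.ofReal (1 / 2 ^ 128) ≤ 1 := by
    rw [ENNReal.ofReal_le_one]; norm_num
  have h5 : ENNReal.ofReal (1 / 2 ^ 128) + (1 - ENNReal.ofReal (1 / 2 ^ 128)) ≤
      Q p0 1 1 + (1 - ENNReal.ofReal (1 / 2 ^ 128)) := by
    rw [add_tsub_cancel_of_le h4]; exact h2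
  have h6 := (ENNReal.add_le_add_iff_right (ne_top_of_le_ne_top ENNReal.one_ne_top
    tsub_le_self)).1 h5
  exact (ENNReal.ofReal_le_ofReal (by norm_num)).trans h6

theorem exists_M0 : ∃ M0 : ℕ, 8 ≤ M0 ∧ (∀ m, M0 ≤ m → 4 * (m : ℝ) * x0 ^ (m / 8) ≤ 1) ∧
    2 ^ 68 ≤ (x0⁻¹) ^ M0 := by
  have h1 : Tendsto (fun n : ℕ => ((n : ℝ) * x0 ^ n)) atTop (𝓝 0) :=
    tendsto_self_mul_const_pow_of_lt_one x0_pos.le x0_lt
  have h1' : Tendsto (fun n : ℕ => (x0 ^ n)) atTop (𝓝 0) :=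
    tendsto_pow_atTop_nhds_zero_of_lt_one x0_pos.le x0_lt
  have h1'' : Tendsto (fun n : ℕ => (32 * ((n : ℝ) * x0 ^ n) + 32 * x0 ^ n)) atTop (𝓝 0) := by
    have := (h1.const_mul 32).add (h1'.const_mul 32)
    simpa using this
  have h2 : Tendsto (fun m : ℕ => m / 8) atTop atTop :=
    Nat.tendsto_div_const_atTop (by norm_num)
  have h3 := (h1''.comp h2).eventually (ge_mem_nhds (show (0 : ℝ) < 1 by norm_num))
  have h4 : Tendsto (fun n : ℕ => (x0⁻¹) ^ n) atTop atTop := by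
    refine tendsto_pow_atTop_atTop_of_one_lt ?_
    have := x0_inv
    have h5 : (0 : ℝ) < 1 / 2 ^ 64 := by norm_num
    linarith
  have h5 := h4.eventually (eventually_ge_atTop (2 ^ 68))
  obtain ⟨M0, hM0⟩ := eventually_atTop.1 ((h3.and h5).and (eventually_ge_atTop 8))
  refine ⟨M0, (hM0 M0 le_rfl).2, fun m hm => ?_, (hM0 M0 le_rfl).1.2⟩
  have h6 := (hM0 m hm).1.1
  simp only [Function.comp] at h6
  have h7 : (m : ℝ) ≤ 8 * ((m / 8 : ℕ) : ℝ) + 8 := by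
    have : m < 8 * (m / 8) + 8 := Nat.lt_mul_div_succ m (by norm_num)
    have h8 : (m : ℝ) < ((8 * (m / 8) + 8 : ℕ) : ℝ) := by exact_mod_cast this
    push_cast at h8
    linarith
  have h8 : 0 ≤ x0 ^ (m / 8) := pow_nonneg x0_pos.le _
  calc 4 * (m : ℝ) * x0 ^ (m / 8) ≤ 4 * (8 * ((m / 8 : ℕ) : ℝ) + 8) * x0 ^ (m / 8) := by
        gcongr
    _ = 32 * (((m / 8 : ℕ) : ℝ) * x0 ^ (m / 8)) + 32 * x0 ^ (m / 8) := by ring
    _ ≤ 1 := h6

/-- Existence of good parameters. -/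
theorem exists_good : ∃ M h ℓ : ℕ → ℕ, Good M h ℓ := by
  obtain ⟨M0, hM8, hM, hbig⟩ := exists_M0
  set M : ℕ → ℕ := fun j => j + M0 with hMdef
  set y : ℕ → ℝ := fun j => (x0⁻¹) ^ (M j) / 16 with hy
  set h : ℕ → ℕ := fun j => ⌊y j⌋₊ with hh
  have hx1 : 1 ≤ x0⁻¹ := le_trans (by norm_num) x0_inv
  have hypos : ∀ j, 0 ≤ y j := fun j => by
    simp only [hy]
    have : 0 < x0⁻¹ := inv_pos.2 x0_pos
    positivity
  have hylow : ∀ j : ℕ, 2 ^ 64 + (j : ℝ) ≤ y j := by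
    intro j
    have h1 : 1 + (j : ℝ) * (1 / 2 ^ 64) ≤ (x0⁻¹) ^ j := by
      calc 1 + (j : ℝ) * (1 / 2 ^ 64) ≤ (1 + 1 / 2 ^ 64) ^ j :=
            one_add_mul_le_pow (by norm_num) j
        _ ≤ (x0⁻¹) ^ j := by
            gcongr
            exact x0_inv
    have h2 : (x0⁻¹) ^ (M j) = (x0⁻¹) ^ j * (x0⁻¹) ^ M0 := by rw [hMdef, pow_add]
    have h3 : 2 ^ 68 * (1 + (j : ℝ) * (1 / 2 ^ 64)) ≤ (x0⁻¹) ^ (M j) := by
      rw [h2, mul_comm (2 ^ 68 : ℝ)]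
      gcongr
    simp only [hy]
    have h4 : (2 : ℝ) ^ 68 * (1 + (j : ℝ) * (1 / 2 ^ 64)) = 16 * (2 ^ 64 + j) := by ring
    rw [h4] at h3
    linarith
  have hyh : ∀ j, (h j : ℝ) ≤ y j := fun j => Nat.floor_le (hypos j)
  have hyh' : ∀ j, y j < h j + 1 := fun j => Nat.lt_floor_add_one _
  have hystep : ∀ j, y (j + 1) = x0⁻¹ * y j := by
    intro j
    simp only [hy, hMdef]
    rw [show j + 1 + M0 = (j + M0) + 1 by ring, pow_succ]
    ring
  have hxy : ∀ j, y j * x0 ^ (M j) = 1 / 16 := by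
    intro j
    simp only [hy]
    have : x0 ^ (M j) ≠ 0 := pow_ne_zero _ x0_pos.ne'
    rw [inv_pow]
    field_simp
  have hhpos : ∀ j, j + 1 ≤ h j := by
    intro j
    refine Nat.le_floor ?_
    have := hylow j
    push_cast
    linarith
  have hQ : ∀ j, ∃ L, 1 ≤ L ∧ ENNReal.ofReal (1 / 2 ^ 168) ≤ Q p0 L (h j) ∧
      ENNReal.ofReal ((p0 : unitInterval) : ℝ) * Q p0 L (h j) ≤ ENNReal.ofReal (1 / 2 ^ 168) := by
    intro j
    refine Q_tune ?_ (ENNReal.ofReal_pos.2 (by norm_num)) (Q_one_ge (by have := hhpos j; omega))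
    refine dk_p0_le.trans_lt ?_
    rw [one_div]
    exact ENNReal.inv_lt_one.2 (by norm_num)
  choose ℓ hℓ using hQ
  refine ⟨M, h, ℓ, ?_, ?_, hhpos, ?_, ?_, ?_, ?_, fun j => (hℓ j).1, fun j => (hℓ j).2.1, ?_⟩
  · intro j; simp only [hMdef]; omega
  · intro j
    have := hM (M j) (by simp only [hMdef]; omega)
    exact this
  · intro j
    refine Nat.floor_le_floor ?_
    rw [hystep]
    have := hypos j
    nlinarith
  · intro j
    have h1 : (h (j + 1) : ℝ) ≤ 2 * h j := by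
      have h2 := hyh (j + 1)
      have h3 := hyh' j
      have h4 := x0_inv'
      have h5 := hylow j
      rw [hystep] at h2
      have h6 : x0⁻¹ * y j ≤ (1 + 2 / 2 ^ 64) * y j :=
        mul_le_mul_of_nonneg_right h4 (hypos j)
      have h7 : (0 : ℝ) ≤ j := Nat.cast_nonneg _
      have h8 : (0 : ℝ) < 2 ^ 64 := by norm_num
      have h9 : (2 / 2 ^ 64 : ℝ) * y j ≤ 1 / 2 * y j :=
        mul_le_mul_of_nonneg_right (by norm_num) (hypos j)
      have h10 : (4 : ℝ) ≤ 2 ^ 64 := by norm_num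
      linarith
    exact_mod_cast h1
  · intro j
    have h1 := hxy j
    have h2 := hyh' j
    have h3 : y j ≤ 2 * h j := by
      have h4 : (1 : ℝ) ≤ h j := by
        have := hhpos j
        have h5 : 1 ≤ h j := by omega
        exact_mod_cast h5
      linarith
    have h4 : 0 ≤ x0 ^ (M j) := pow_nonneg x0_pos.le _
    nlinarith
  · intro j
    have h1 := hxy j
    have h2 := hyh j
    have h4 : 0 ≤ x0 ^ (M j) := pow_nonneg x0_pos.le _
    nlinarith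
  · intro j
    have h1 := (hℓ j).2.2
    rw [p0_val] at h1
    have h2 : ENNReal.ofReal (1 / 2 ^ 168) =
        ENNReal.ofReal (1 / 2 ^ 64) * ENNReal.ofReal (1 / 2 ^ 104) := by
      rw [← ENNReal.ofReal_mul (by norm_num)]
      norm_num
    rw [h2] at h1
    exact (ENNReal.mul_le_mul_iff_right (ENNReal.ofReal_pos.2 (by norm_num)).ne'
      ENNReal.ofReal_ne_top).1 h1

end

end Pool.Agent.Helper57
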