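import Mathlib

open MeasureTheory ProbabilityTheory Set
open scoped ENNReal

namespace Pool.Agent.Helper57

noncomputable section

/-- Bernoulli law on `Bool`. -/
def bern (p : unitInterval) : Measure Bool :=
  ENNReal.ofReal (p : ℝ) • Measure.dirac true +
    ENNReal.ofReal (1 - (p : ℝ)) • Measure.dirac false

instance bern_isProb (p : unitInterval) : IsProbabilityMeasure (bern p) := by
  constructor
  have h0 : (0 : ℝ) ≤ p := p.2.1
  have h1 : (p : ℝ) ≤ 1 := p.2.2
  simp only [bern, Measure.coe_add, Measure.coe_smul, Pi.add_apply, Pi.smul_apply,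
    measure_univ, smul_eq_mul, mul_one]
  rw [← ENNReal.ofReal_add h0 (by linarith)]
  simp

theorem bern_true (p : unitInterval) : bern p {true} = ENNReal.ofReal (p : ℝ) := by
  simp [bern]

theorem bern_false (p : unitInterval) : bern p {false} = ENNReal.ofReal (1 - (p : ℝ)) := by
  simp [bern]

/-- The product Bernoulli measure on configurations indexed by `E`. -/
def PB (p : unitInterval) (E : Type*) : Measure (E → Bool) :=
  Measure.infinitePi (fun _ : E => bern p)

variable {E E' : Type*} {p : unitInterval}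

instance PB_isProb : IsProbabilityMeasure (PB p E) := by
  unfold PB; infer_instance

theorem PB_true (e : E) : PB p E {ω | ω e = true} = ENNReal.ofReal (p : ℝ) := by
  have := (measurePreserving_eval_infinitePi (fun _ : E => bern p) e).measure_preimage
    (s := {true}) (MeasurableSet.singleton _).nullMeasurableSet
  rw [bern_true] at this
  rw [← this]; rfl

theorem PB_false (e : E) : PB p E {ω | ω e = false} = ENNReal.ofReal (1 - (p : ℝ)) := by
  have := (measurePreserving_eval_infinitePi (fun _ : E => bern p) e).measure_preimage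
    (s := {false}) (MeasurableSet.singleton _).nullMeasurableSet
  rw [bern_false] at this
  rw [← this]; rfl

/-- `A` depends only on the coordinates in `T`. -/
def Dep (T : Set E) (A : Set (E → Bool)) : Prop :=
  ∀ ω ω' : E → Bool, (∀ e ∈ T, ω e = ω' e) → (ω ∈ A ↔ ω' ∈ A)

theorem Dep.mono {T U : Set E} {A : Set (E → Bool)} (h : Dep T A) (hTU : T ⊆ U) : Dep U A :=
  fun ω ω' hω => h ω ω' fun e he => hω e (hTU he)

theorem Dep.inter {T : Set E} {A B : Set (E → Bool)} (h : Dep T A) (h' : Dep T B) :
    Dep T (A ∩ B) := fun ω ω' hω => by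
  simp only [mem_inter_iff, h ω ω' hω, h' ω ω' hω]

theorem Dep.compl {T : Set E} {A : Set (E → Bool)} (h : Dep T A) : Dep T Aᶜ :=
  fun ω ω' hω => by simp only [mem_compl_iff, h ω ω' hω]

theorem Dep.iUnion {ι : Sort*} {T : Set E} {A : ι → Set (E → Bool)} (h : ∀ i, Dep T (A i)) :
    Dep T (⋃ i, A i) := fun ω ω' hω => by
  simp only [mem_iUnion, h _ ω ω' hω]

theorem Dep.iInter {ι : Sort*} {T : Set E} {A : ι → Set (E → Bool)} (h : ∀ i, Dep T (A i)) :
    Dep T (⋂ i, A i) := fun ω ω' hω => by
  simp only [mem_iInter, h _ ω ω' hω]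

theorem dep_univ (T : Set E) : Dep T (univ : Set (E → Bool)) := fun _ _ _ => by simp

theorem dep_coord {T : Set E} {e : E} (he : e ∈ T) (b : Bool) :
    Dep T {ω : E → Bool | ω e = b} := fun ω ω' hω => by
  simp only [mem_ofPred_eq, hω e he]

theorem meas_coord (e : E) (b : Bool) : MeasurableSet {ω : E → Bool | ω e = b} := by
  have h : MeasurableSet ((fun ω : E → Bool => ω e) ⁻¹' {b}) :=
    (measurable_pi_apply e) (measurableSet_singleton b)
  exact h

open Classical in
theorem Dep.measurable {T : Set E} {A : Set (E → Bool)} (h : Dep T A) (hA : MeasurableSet A) :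
    MeasurableSet[⨆ e ∈ T, MeasurableSpace.comap (fun ω : E → Bool => ω e) ⊤] A := by
  set gl : (E → Bool) → (E → Bool) := fun ω e => if e ∈ T then ω e else false with hgl
  have hAgl : A = gl ⁻¹' A := by
    ext ω
    refine h ω (gl ω) fun e he => ?_
    simp [hgl, he]
  rw [hAgl]
  have hm : @Measurable _ _ (⨆ e ∈ T, MeasurableSpace.comap (fun ω : E → Bool => ω e) ⊤)
      MeasurableSpace.pi gl := by
    refine @measurable_pi_lambda _ _ _ (⨆ e ∈ T, MeasurableSpace.comap
      (fun ω : E → Bool => ω e) ⊤) _ gl fun e => ?_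
    by_cases he : e ∈ T
    · have : (fun ω : E → Bool => gl ω e) = fun ω => ω e := by
        ext ω; simp [hgl, he]
      rw [this]
      have h2 : MeasurableSpace.comap (fun ω : E → Bool => ω e) ⊤ ≤
          ⨆ e ∈ T, MeasurableSpace.comap (fun ω : E → Bool => ω e) ⊤ :=
        le_iSup₂_of_le e he le_rfl
      exact fun s hs => h2 _ ⟨s, trivial, rfl⟩
    · have : (fun ω : E → Bool => gl ω e) = fun _ => false := by
        ext ω; simp [hgl, he]
      rw [this]
      exact measurable_const
  exact hm hA

/-- Events depending on disjoint sets of coordinates are independent. -/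
theorem PB_inter {T U : Set E} {A B : Set (E → Bool)} (hA : MeasurableSet A)
    (hB : MeasurableSet B) (dA : Dep T A) (dB : Dep U B) (hd : Disjoint T U) :
    PB p E (A ∩ B) = PB p E A * PB p E B := by
  have hind : iIndepFun (fun (e : E) (ω : E → Bool) => ω e) (PB p E) :=
    iIndepFun_infinitePi (P := fun _ : E => bern p) (X := fun _ ω => ω)
      (by fun_prop)
  have hi : iIndep (fun e : E => MeasurableSpace.comap (fun ω : E → Bool => ω e) ⊤) (PB p E) :=
    hind
  have hle : ∀ e : E, MeasurableSpace.comap (fun ω : E → Bool => ω e) ⊤ ≤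
      (MeasurableSpace.pi : MeasurableSpace (E → Bool)) := fun e =>
    (measurable_pi_apply e).comap_le
  have hI := indep_iSup_of_disjoint hle hi hd
  exact (Indep_iff _ _ _).1 hI A B (dA.measurable hA) (dB.measurable hB)

/-- Pull-back along a map of coordinates that is injective on the relevant set. -/
theorem PB_pullback (g : E' → E) {T : Set E'} (hg : InjOn g T) {A : Set (E' → Bool)}
    (hA : MeasurableSet A) (dA : Dep T A) :
    PB p E {ω | (fun e => ω (g e)) ∈ A} = PB p E' A := by
  classical
  -- restrict both to `T`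
  set A' : Set (T → Bool) := {η | (fun e => if h : e ∈ T then η ⟨e, h⟩ else false) ∈ A} with hA'
  have hglm : Measurable (fun (η : T → Bool) (e : E') => if h : e ∈ T then η ⟨e, h⟩ else false) := by
    refine measurable_pi_lambda _ fun e => ?_
    by_cases he : e ∈ T
    · simp only [he, dite_true]; exact measurable_pi_apply _
    · simp only [he, dite_false]; exact measurable_const
  have hA'm : MeasurableSet A' := hglm hA
  have h1 : {ω : E → Bool | (fun e => ω (g e)) ∈ A} =
      (fun (ω : E → Bool) (e : T) => ω (g e)) ⁻¹' A' := by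
    ext ω
    simp only [mem_ofPred_eq, mem_preimage, hA']
    refine dA _ _ fun e he => ?_
    simp [he]
  have h2 : A = (fun (ω : E' → Bool) (e : T) => ω e) ⁻¹' A' := by
    ext ω
    simp only [mem_ofPred_eq, mem_preimage, hA']
    refine dA _ _ fun e he => ?_
    simp [he]
  have i1 : Function.Injective (fun e : T => g e) := fun a b hab =>
    Subtype.ext (hg a.2 b.2 hab)
  have m1 := Measure.map_infinitePi_infinitePi_of_inj (P := fun _ : E => bern p) i1
  have m2 := Measure.map_infinitePi_infinitePi_of_inj (P := fun _ : E' => bern p)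
    (f := fun e : T => (e : E')) Subtype.val_injective
  rw [h1]
  conv_rhs => rw [h2]
  rw [← Measure.map_apply (by fun_prop) hA'm, ← Measure.map_apply (by fun_prop) hA'm]
  unfold PB
  rw [m1, m2]

/-- Product formula for finitely many events with pairwise disjoint supports. -/
theorem PB_biInter {ι : Type*} (s : Finset ι) {T : ι → Set E} {C : ι → Set (E → Bool)}
    (hC : ∀ i ∈ s, MeasurableSet (C i)) (dC : ∀ i ∈ s, Dep (T i) (C i))
    (hd : ∀ i ∈ s, ∀ j ∈ s, i ≠ j → Disjoint (T i) (T j)) :
    PB p E (⋂ i ∈ s, C i) = ∏ i ∈ s, PB p E (C i) := by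
  classical
  induction s using Finset.induction_on with
  | empty => simp
  | insert a s ha ih =>
    rw [Finset.prod_insert ha, Finset.set_biInter_insert]
    rw [PB_inter (T := T a) (U := ⋃ i ∈ s, T i), ih]
    · exact fun i hi => hC i (Finset.mem_insert_of_mem hi)
    · exact fun i hi => dC i (Finset.mem_insert_of_mem hi)
    · exact fun i hi j hj => hd i (Finset.mem_insert_of_mem hi) j (Finset.mem_insert_of_mem hj)
    · exact hC a (Finset.mem_insert_self _ _)
    · exact Finset.measurableSet_biInter _ fun i hi => hC i (Finset.mem_insert_of_mem hi)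
    · exact dC a (Finset.mem_insert_self _ _)
    · refine Dep.iInter fun i => Dep.iInter fun hi => ?_
      exact (dC i (Finset.mem_insert_of_mem hi)).mono (subset_biUnion_of_mem (u := T) hi)
    · refine disjoint_iUnion₂_right.2 fun i hi => ?_
      exact hd a (Finset.mem_insert_self _ _) i (Finset.mem_insert_of_mem hi)
        (by rintro rfl; exact ha hi)

/-- Random set closure lemma. -/
theorem PB_closure {ι : Type*} [Fintype ι] {T0 : Set E} (D : (E → Bool) → Finset ι)
    (hDm : ∀ d, MeasurableSet {ω | D ω = d}) (hDd : ∀ d, Dep T0 {ω | D ω = d})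
    {T : ι → Set E} {C : ι → Set (E → Bool)}
    (hC : ∀ i, MeasurableSet (C i)) (dC : ∀ i, Dep (T i) (C i))
    (hd : ∀ i j, i ≠ j → Disjoint (T i) (T j)) (hd0 : ∀ i, Disjoint T0 (T i))
    {y : ℝ≥0∞} (hy1 : y ≤ 1) (hy : ∀ i, PB p E (C i) ≤ y) (r : ℕ) :
    PB p E {ω | r ≤ (D ω).card ∧ ∀ i ∈ D ω, ω ∈ C i} ≤ y ^ r := by
  classical
  have hsub : {ω | r ≤ (D ω).card ∧ ∀ i ∈ D ω, ω ∈ C i} ⊆
      ⋃ d ∈ (Finset.univ.filter fun d : Finset ι => r ≤ d.card),
        ({ω | D ω = d} ∩ ⋂ i ∈ d, C i) := by
    intro ω hω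
    simp only [mem_iUnion, Finset.mem_filter, Finset.mem_univ, true_and, mem_inter_iff,
      mem_ofPred_eq, mem_iInter, exists_prop]
    exact ⟨D ω, hω.1, rfl, hω.2⟩
  calc PB p E {ω | r ≤ (D ω).card ∧ ∀ i ∈ D ω, ω ∈ C i}
      ≤ PB p E (⋃ d ∈ (Finset.univ.filter fun d : Finset ι => r ≤ d.card),
        ({ω | D ω = d} ∩ ⋂ i ∈ d, C i)) := measure_mono hsub
    _ ≤ ∑ d ∈ (Finset.univ.filter fun d : Finset ι => r ≤ d.card),
        PB p E ({ω | D ω = d} ∩ ⋂ i ∈ d, C i) := measure_biUnion_finset_le _ _
    _ ≤ ∑ d ∈ (Finset.univ.filter fun d : Finset ι => r ≤ d.card),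
        PB p E {ω | D ω = d} * y ^ r := by
        refine Finset.sum_le_sum fun d hdm => ?_
        rw [Finset.mem_filter] at hdm
        rw [PB_inter (T := T0) (U := ⋃ i ∈ d, T i) (hDm d)
          (Finset.measurableSet_biInter _ fun i _ => hC i) (hDd d)
          (Dep.iInter fun i => Dep.iInter fun hi =>
            (dC i).mono (subset_biUnion_of_mem (u := T) hi))
          (disjoint_iUnion₂_right.2 fun i _ => hd0 i)]
        gcongr
        rw [PB_biInter d (fun i _ => hC i) (fun i _ => dC i) (fun i _ j _ => hd i j)]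
        calc ∏ i ∈ d, PB p E (C i) ≤ ∏ i ∈ d, y := Finset.prod_le_prod' fun i _ => hy i
          _ = y ^ d.card := by simp
          _ ≤ y ^ r := pow_le_pow_right_of_le_one' hy1 hdm.2
    _ ≤ 1 * y ^ r := by
        rw [← Finset.sum_mul]
        gcongr
        rw [← measure_biUnion_finset (fun d _ d' _ hne => ?_) (fun d _ => hDm d)]
        · exact prob_le_one
        · refine Set.disjoint_left.2 fun ω h1 h2 => hne ?_
          exact h1.symm.trans h2
    _ = y ^ r := one_mul _

/-- Disjointification lemma: if each `Y k` has probability at least `a` and depends on other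
coordinates than the `X k`, then `P (⋃ X k ∩ Y k) ≥ a * P (⋃ X k)`. -/
theorem PB_iUnion_inter {κ : Type*} [Countable κ] {T U : Set E} (hTU : Disjoint T U)
    {X Y : κ → Set (E → Bool)} (hX : ∀ k, MeasurableSet (X k)) (hY : ∀ k, MeasurableSet (Y k))
    (dX : ∀ k, Dep T (X k)) (dY : ∀ k, Dep U (Y k)) {a : ℝ≥0∞} (ha : ∀ k, a ≤ PB p E (Y k)) :
    a * PB p E (⋃ k, X k) ≤ PB p E (⋃ k, X k ∩ Y k) := by
  classical
  cases isEmpty_or_nonempty κ
  · simp
  obtain ⟨f, hf⟩ := exists_surjective_nat κ
  have e1 : (⋃ k, X k) = ⋃ n, X (f n) := (hf.iUnion_comp X).symm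
  have e2 : (⋃ k, X k ∩ Y k) = ⋃ n, X (f n) ∩ Y (f n) :=
    (hf.iUnion_comp (fun k => X k ∩ Y k)).symm
  rw [e1, e2, ← iUnion_disjointed]
  set Z : ℕ → Set (E → Bool) := fun n => disjointed (fun n => X (f n)) n with hZ
  have hZm : ∀ n, MeasurableSet (Z n) := fun n => MeasurableSet.disjointed (fun n => hX _) n
  have hZd : ∀ n, Dep T (Z n) := by
    intro n
    refine disjointedRec (p := fun s => Dep T s) (fun {t i} ht => ?_) (dX (f n))
    have : t \ X (f i) = t ∩ (X (f i))ᶜ := rfl
    rw [this]
    exact ht.inter (dX _).compl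
  have hZdisj : Pairwise (Function.onFun Disjoint Z) := disjoint_disjointed _
  calc a * PB p E (⋃ n, Z n) = a * ∑' n, PB p E (Z n) := by
        rw [measure_iUnion hZdisj hZm]
    _ = ∑' n, a * PB p E (Z n) := ENNReal.tsum_mul_left.symm
    _ ≤ ∑' n, PB p E (Z n ∩ Y (f n)) := by
        refine ENNReal.tsum_le_tsum fun n => ?_
        rw [PB_inter (hZm n) (hY _) (hZd n) (dY _) hTU, mul_comm]
        gcongr
        exact ha _
    _ = PB p E (⋃ n, Z n ∩ Y (f n)) := by
        rw [measure_iUnion (fun i j hij => ?_) (fun n => (hZm n).inter (hY _))]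
        exact (hZdisj hij).mono inter_subset_left inter_subset_left
    _ ≤ PB p E (⋃ n, X (f n) ∩ Y (f n)) := by
        refine measure_mono (iUnion_mono fun n => ?_)
        exact inter_subset_inter_left _ (disjointed_subset _ n)

end

end Pool.Agent.Helper57
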