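import Pool.Agent.Helper57.Conn

open MeasureTheory ProbabilityTheory Set
open scoped ENNReal

namespace Pool.Agent.Helper57

noncomputable section

variable {V : Type*} [Countable V] {p : unitInterval}

/-- Simon-Lieb type inequality, finite `S`. -/
theorem SL_fin (H : SimpleGraph V) {Λ S A B : Set V} (hSf : S.Finite)
    (hA : A ⊆ S) (hB : Disjoint S B) {ι : Type*} [Fintype ι] (W : ι → Set V) :
    PB p _ (hits H Λ A B) ≤
      ∑ i, PB p _ (exits H S A (W i ∩ Λ)) * PB p _ (hits H Λ (W i) B) +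
        PB p _ (exits H S A (Λ \ ⋃ i, W i)) := by
  classical
  have hPf : {C : Set V | C ⊆ S}.Finite := hSf.finite_subsets
  set 𝒞 : Finset (Set V) := hPf.toFinset with h𝒞
  have hmem : ∀ C, C ∈ 𝒞 ↔ C ⊆ S := fun C => by rw [h𝒞, Set.Finite.mem_toFinset]; rfl
  -- the event that `clus = C` and there is an open exit edge to `W`
  set X : Set V → Set V → Set (Sym2 V → Bool) := fun C W' =>
    {ω | clus H ω S A = C} ∩ {ω | ∃ y ∈ C, ∃ z ∈ W', z ∉ S ∧ H.Adj y z ∧ ω s(y, z) = true} with hX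
  have hE : ∀ C W' : Set V, MeasurableSet
      {ω : Sym2 V → Bool | ∃ y ∈ C, ∃ z ∈ W', z ∉ S ∧ H.Adj y z ∧ ω s(y, z) = true} := by
    intro C W'
    have : {ω : Sym2 V → Bool | ∃ y ∈ C, ∃ z ∈ W', z ∉ S ∧ H.Adj y z ∧ ω s(y, z) = true} =
        ⋃ y ∈ C, ⋃ z ∈ {z | z ∈ W' ∧ z ∉ S ∧ H.Adj y z}, {ω | ω s(y, z) = true} := by
      ext ω
      simp only [mem_ofPred_eq, mem_iUnion, exists_prop]
      constructor
      · rintro ⟨y, hy, z, h1, h2, h3, h4⟩; exact ⟨y, hy, z, ⟨h1, h2, h3⟩, h4⟩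
      · rintro ⟨y, hy, z, ⟨h1, h2, h3⟩, h4⟩; exact ⟨y, hy, z, h1, h2, h3, h4⟩
    rw [this]
    exact MeasurableSet.biUnion (to_countable _) fun y _ =>
      MeasurableSet.biUnion (to_countable _) fun z _ => meas_coord _ _
  have hXm : ∀ C W', MeasurableSet (X C W') := fun C W' => (meas_clus H S A C).inter (hE C W')
  have hXd : ∀ C W', Dep (Tch C) (X C W') := by
    intro C W'
    refine (dep_clus H S A C).inter ?_
    intro ω ω' hω
    simp only [mem_ofPred_eq]
    constructor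
    · rintro ⟨y, hy, z, h1, h2, h3, h4⟩
      exact ⟨y, hy, z, h1, h2, h3, by rw [← hω _ (mk_mem_Tch.2 (Or.inl hy))]; exact h4⟩
    · rintro ⟨y, hy, z, h1, h2, h3, h4⟩
      exact ⟨y, hy, z, h1, h2, h3, by rw [hω _ (mk_mem_Tch.2 (Or.inl hy))]; exact h4⟩
  -- sum over `C`
  have hsum : ∀ W', ∑ C ∈ 𝒞, PB p _ (X C W') ≤ PB p _ (exits H S A W') := by
    intro W'
    rw [← measure_biUnion_finset (fun C _ C' _ hne => ?_) (fun C _ => hXm C W')]
    · refine measure_mono ?_
      intro ω hω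
      simp only [mem_iUnion, exists_prop] at hω
      obtain ⟨C, _, h1, y, hy, z, hz⟩ := hω
      refine ⟨y, ?_, z, hz⟩
      rw [show clus H ω S A = C from h1]; exact hy
    · refine Set.disjoint_left.2 fun ω h1 h2 => hne ?_
      exact h1.1.symm.trans h2.1
  have hcov : hits H Λ A B ⊆ ⋃ C ∈ 𝒞, ((⋃ i ∈ (Finset.univ : Finset ι),
      (X C (W i ∩ Λ) ∩ hits H (Λ \ C) (W i) B)) ∪ X C (Λ \ ⋃ i, W i)) := by
    rintro ω ⟨a, ha, b, hb, hab⟩
    have hC : clus H ω S A ⊆ S := clus_subset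
    have haC : a ∈ clus H ω S A := ⟨a, ha, Conn.refl (hA ha)⟩
    have hbC : b ∉ clus H ω S A := fun h => Set.disjoint_left.1 hB (hC h) hb
    obtain ⟨u, v, hu, hv, huv, hvb⟩ := hab.last_exit haC hbC
    have hvS : v ∉ S := by
      intro hvS
      apply hv
      obtain ⟨a', ha', hc'⟩ := hu
      exact ⟨a', ha', hc'.tail ⟨hc'.right, hvS, huv.2.2⟩⟩
    simp only [mem_iUnion, exists_prop]
    refine ⟨clus H ω S A, (hmem _).2 hC, ?_⟩
    by_cases hvW : v ∈ ⋃ i, W i
    · left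
      simp only [mem_iUnion] at hvW ⊢
      obtain ⟨i, hi⟩ := hvW
      exact ⟨i, Finset.mem_univ _, ⟨rfl, u, hu, v, ⟨hi, huv.2.1⟩, hvS, huv.2.2⟩, v, hi, b, hb, hvb⟩
    · right
      exact ⟨rfl, u, hu, v, ⟨huv.2.1, hvW⟩, hvS, huv.2.2⟩
  calc PB p _ (hits H Λ A B)
      ≤ PB p _ (⋃ C ∈ 𝒞, ((⋃ i ∈ (Finset.univ : Finset ι),
        (X C (W i ∩ Λ) ∩ hits H (Λ \ C) (W i) B)) ∪ X C (Λ \ ⋃ i, W i))) := measure_mono hcov
    _ ≤ ∑ C ∈ 𝒞, PB p _ ((⋃ i ∈ (Finset.univ : Finset ι),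
        (X C (W i ∩ Λ) ∩ hits H (Λ \ C) (W i) B)) ∪ X C (Λ \ ⋃ i, W i)) :=
        measure_biUnion_finset_le _ _
    _ ≤ ∑ C ∈ 𝒞, (∑ i, PB p _ (X C (W i ∩ Λ)) * PB p _ (hits H Λ (W i) B) +
          PB p _ (X C (Λ \ ⋃ i, W i))) := by
        refine Finset.sum_le_sum fun C hC => ?_
        refine (measure_union_le _ _).trans ?_
        gcongr
        refine (measure_biUnion_finset_le _ _).trans ?_
        refine Finset.sum_le_sum fun i _ => ?_
        rw [PB_inter (hXm _ _) (meas_hits _ _ _ _) (hXd _ _) (dep_hits _ _ _ _)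
          (disjoint_Ed_Tch (by exact disjoint_sdiff_left)).symm]
        gcongr
        exact hits_mono sdiff_subset subset_rfl subset_rfl
    _ = ∑ i, (∑ C ∈ 𝒞, PB p _ (X C (W i ∩ Λ))) * PB p _ (hits H Λ (W i) B) +
          ∑ C ∈ 𝒞, PB p _ (X C (Λ \ ⋃ i, W i)) := by
        rw [Finset.sum_add_distrib, Finset.sum_comm]
        simp_rw [Finset.sum_mul]
    _ ≤ _ := by
        gcongr with i
        · exact hsum _
        · exact hsum _

/-- Finite exhaustion of a countable type. -/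
def Fex (V : Type*) [Countable V] (n : ℕ) : Set V :=
  {x | (Encodable.ofCountable V).encode x < n}

theorem Fex_finite (n : ℕ) : (Fex V n).Finite := by
  have : Set.InjOn (Encodable.ofCountable V).encode (Fex V n) :=
    fun x _ y _ h => (@Encodable.encode_injective V (Encodable.ofCountable V)) h
  refine Set.Finite.of_finite_image ((Set.finite_Iio n).subset ?_) this
  rintro _ ⟨x, hx, rfl⟩
  exact hx

theorem Fex_mono : Monotone (Fex V) := fun _ _ h _ hx => lt_of_lt_of_le hx h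

theorem mem_Fex (x : V) : ∃ n, x ∈ Fex V n := ⟨_, Nat.lt_succ_self _⟩

/-- connections are finite: exhaustion. -/
theorem conn_exhaust {H : SimpleGraph V} {ω : Sym2 V → Bool} {S : Set V} {x y : V}
    (h : Conn H ω S x y) : ∃ n, Conn H ω (S ∩ Fex V n) x y := by
  refine h.ind (Q := fun y => ∃ n, Conn H ω (S ∩ Fex V n) x y) ?_ ?_
  · obtain ⟨n, hn⟩ := mem_Fex x
    exact ⟨n, Conn.refl ⟨h.left, hn⟩⟩
  · rintro u v _ ⟨n, hn⟩ huv
    obtain ⟨m, hm⟩ := mem_Fex v
    refine ⟨max n m, ?_⟩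
    have h1 : Conn H ω (S ∩ Fex V (max n m)) x u :=
      hn.mono (inter_subset_inter_right _ (Fex_mono (le_max_left _ _)))
    exact h1.tail ⟨h1.right, ⟨huv.2.1, Fex_mono (le_max_right _ _) hm⟩, huv.2.2⟩

theorem hits_exhaust (H : SimpleGraph V) (S A B : Set V) :
    hits H S A B = ⋃ n, hits H (S ∩ Fex V n) (A ∩ Fex V n) (B ∩ Fex V n) := by
  apply Subset.antisymm
  · rintro ω ⟨a, ha, b, hb, h⟩
    obtain ⟨n, hn⟩ := conn_exhaust h
    exact mem_iUnion.2 ⟨n, a, ⟨ha, hn.left.2⟩, b, ⟨hb, hn.right.2⟩, hn⟩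
  · exact iUnion_subset fun n => hits_mono inter_subset_left inter_subset_left inter_subset_left

/-- Simon-Lieb type inequality, general version. -/
theorem SL (H : SimpleGraph V) {Λ S A B : Set V}
    (hA : A ⊆ S) (hB : Disjoint S B) {ι : Type*} [Fintype ι] (W : ι → Set V) :
    PB p _ (hits H Λ A B) ≤
      ∑ i, PB p _ (exits H S A (W i ∩ Λ)) * PB p _ (hits H Λ (W i) B) +
        PB p _ (exits H S A (Λ \ ⋃ i, W i)) := by
  rw [hits_exhaust H Λ A B]
  have hmono : Monotone fun n => hits H (Λ ∩ Fex V n) (A ∩ Fex V n) (B ∩ Fex V n) :=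
    fun n m h => hits_mono (inter_subset_inter_right _ (Fex_mono h))
      (inter_subset_inter_right _ (Fex_mono h)) (inter_subset_inter_right _ (Fex_mono h))
  rw [hmono.measure_iUnion]
  refine iSup_le fun n => ?_
  have key := SL_fin (p := p) H (Λ := Λ ∩ Fex V n) (S := S ∩ Fex V n) (A := A ∩ Fex V n)
    (B := B ∩ Fex V n) ((Fex_finite n).subset inter_subset_right)
    (inter_subset_inter_left _ hA)
    (hB.mono inter_subset_left inter_subset_left) W
  refine key.trans ?_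
  have hex : ∀ W' W'' : Set V, (∀ z ∈ W', z ∈ Fex V n ∧ z ∈ W'') →
      exits H (S ∩ Fex V n) (A ∩ Fex V n) W' ⊆ exits H S A W'' := by
    rintro W' W'' hW ω ⟨y, ⟨a, ha, hc⟩, z, hz, hzS, h⟩
    exact ⟨y, ⟨a, ha.1, hc.mono inter_subset_left⟩, z, (hW z hz).2,
      fun h' => hzS ⟨h', (hW z hz).1⟩, h⟩
  gcongr with i
  · exact hex _ _ fun z hz => ⟨hz.2.2, hz.1, hz.2.1⟩
  · exact hits_mono inter_subset_left subset_rfl inter_subset_left
  · exact hex _ _ fun z hz => ⟨hz.1.2, hz.1.1, hz.2⟩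

/-- Exponential decay in sets of bounded degree: connecting `x` to points where a 1-Lipschitz
function is larger by `r` has probability at most `(Δ p)^r`. -/
theorem exp_decay (H : SimpleGraph V) (S : Set V) (Δ : ℕ)
    (hdeg : ∀ x ∈ S, ∃ N : Finset V, N.card ≤ Δ ∧ ∀ z ∈ S, H.Adj x z → z ∈ N)
    (ρ : V → ℤ) (hρ : ∀ x ∈ S, ∀ y ∈ S, H.Adj x y → ρ y ≤ ρ x + 1) (r : ℕ) :
    ∀ x : V, ∀ B : Set V, (∀ y ∈ B, y ∈ S → ρ x + r ≤ ρ y) →
      PB p _ (hits H S {x} B) ≤ ((Δ : ℝ≥0∞) * ENNReal.ofReal (p : ℝ)) ^ r := by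
  induction r with
  | zero => intro x B _; simpa using prob_le_one
  | succ r ih =>
    intro x B hB
    by_cases hx : x ∈ S
    swap
    · have : hits H S {x} B = ∅ := by
        ext ω
        simp only [hits, mem_singleton_iff, mem_ofPred_eq, mem_empty_iff_false, iff_false]
        rintro ⟨a, rfl, b, _, h⟩
        exact hx h.left
      rw [this]; simp
    obtain ⟨N, hN, hNx⟩ := hdeg x hx
    classical
    set ι := {z : V // z ∈ N ∧ z ∈ S ∧ H.Adj x z} with hι
    have : Finite ι := Set.Finite.subset N.finite_toSet (fun z hz => hz.1)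
    have : Fintype ι := Fintype.ofFinite ι
    have hxB : Disjoint ({x} : Set V) B := by
      rw [disjoint_singleton_left]
      intro h
      have := hB x h hx
      push_cast at this
      linarith
    have key := SL (p := p) H (Λ := S) (S := {x}) (A := {x}) (B := B)
      subset_rfl hxB (fun z : ι => ({z.1} : Set V))
    have hrest : exits H {x} {x} (S \ ⋃ z : ι, ({z.1} : Set V)) = ∅ := by
      ext ω
      simp only [mem_empty_iff_false, iff_false]
      rintro ⟨y, hy, z, hz, hzS, hyz, _⟩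
      have hyx : y = x := mem_singleton_iff.1 (clus_subset hy)
      subst hyx
      apply hz.2
      rw [mem_iUnion]
      exact ⟨⟨z, hNx z hz.1 hyz, hz.1, hyz⟩, rfl⟩
    rw [hrest, measure_empty, add_zero] at key
    refine key.trans ?_
    have hcard : (Fintype.card ι : ℝ≥0∞) ≤ Δ := by
      have h1 : Fintype.card ι ≤ N.card := by
        rw [← Fintype.card_coe N]
        refine Fintype.card_le_of_injective (fun z : ι => (⟨z.1, z.2.1⟩ : {z // z ∈ N})) ?_
        intro a b hab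
        exact Subtype.ext (congrArg (fun z : {z // z ∈ N} => z.1) hab)
      exact_mod_cast h1.trans hN
    calc ∑ i : ι, PB p _ (exits H {x} {x} ({i.1} ∩ S)) * PB p _ (hits H S {i.1} B)
        ≤ ∑ i : ι, ENNReal.ofReal (p : ℝ) * ((Δ : ℝ≥0∞) * ENNReal.ofReal (p : ℝ)) ^ r := by
          refine Finset.sum_le_sum fun i _ => ?_
          gcongr
          · rw [← PB_true (p := p) s(x, i.1)]
            refine measure_mono ?_
            rintro ω ⟨y, hy, z, hz, hzS, hyz, ho⟩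
            have hyx : y = x := mem_singleton_iff.1 (clus_subset hy)
            subst hyx
            have : z = i.1 := hz.1
            subst this
            exact ho
          · refine ih i.1 B fun y hy hyS => ?_
            have h1 := hB y hy hyS
            have h2 := hρ x hx i.1 i.2.2.1 i.2.2.2
            push_cast at h1
            linarith
      _ = (Fintype.card ι : ℝ≥0∞) * (ENNReal.ofReal (p : ℝ) *
            ((Δ : ℝ≥0∞) * ENNReal.ofReal (p : ℝ)) ^ r) := by
          rw [Finset.sum_const, Finset.card_univ, nsmul_eq_mul]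
      _ ≤ (Δ : ℝ≥0∞) * (ENNReal.ofReal (p : ℝ) *
            ((Δ : ℝ≥0∞) * ENNReal.ofReal (p : ℝ)) ^ r) := by gcongr
      _ = ((Δ : ℝ≥0∞) * ENNReal.ofReal (p : ℝ)) ^ (r + 1) := by ring

end

end Pool.Agent.Helper57
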