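import Pool.Agent.Helper57.SL

open MeasureTheory ProbabilityTheory Set
open scoped ENNReal

namespace Pool.Agent.Helper57

noncomputable section

section map

variable {V V' : Type*} {H : SimpleGraph V} {H' : SimpleGraph V'}

/-- Transport of connections along an embedding. -/
theorem conn_map (φ : V' → V) {S' : Set V'} (hinj : InjOn φ S')
    (hadj : ∀ x ∈ S', ∀ y ∈ S', (H.Adj (φ x) (φ y) ↔ H'.Adj x y)) (ω : Sym2 V → Bool)
    {x y : V'} (hx : x ∈ S') (hy : y ∈ S') :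
    Conn H ω (φ '' S') (φ x) (φ y) ↔ Conn H' (fun e => ω (e.map φ)) S' x y := by
  constructor
  · intro h
    have : ∀ z, z ∈ S' → φ z = φ y → Conn H' (fun e => ω (e.map φ)) S' x z := by
      refine h.ind (Q := fun w => ∀ z, z ∈ S' → φ z = w →
        Conn H' (fun e => ω (e.map φ)) S' x z) ?_ ?_
      · intro z hz hzx
        rw [hinj hz hx hzx]
        exact Conn.refl hx
      · rintro u v _ hu huv z hz rfl
        obtain ⟨u', hu', rfl⟩ := huv.1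
        refine (hu u' hu' rfl).tail ⟨hu', hz, (hadj _ hu' _ hz).1 huv.2.2.1, ?_⟩
        simpa using huv.2.2.2
    exact this y hy rfl
  · intro h
    refine h.ind (Q := fun w => Conn H ω (φ '' S') (φ x) (φ w)) (Conn.refl ⟨x, hx, rfl⟩) ?_
    intro u v _ hu huv
    refine hu.tail ⟨⟨u, huv.1, rfl⟩, ⟨v, huv.2.1, rfl⟩,
      (hadj _ huv.1 _ huv.2.1).2 huv.2.2.1, ?_⟩
    simpa using huv.2.2.2

theorem sym2_map_injOn (φ : V' → V) {S' : Set V'} (hinj : InjOn φ S') :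
    InjOn (Sym2.map φ) (Ed S') := by
  intro e he f hf h
  induction e with
  | h a b =>
  induction f with
  | h c d =>
  rw [mk_mem_Ed] at he hf
  rw [Sym2.map_mk, Sym2.map_mk, Sym2.eq_iff] at h
  rw [Sym2.eq_iff]
  rcases h with ⟨h1, h2⟩ | ⟨h1, h2⟩
  · exact Or.inl ⟨hinj he.1 hf.1 h1, hinj he.2 hf.2 h2⟩
  · exact Or.inr ⟨hinj he.1 hf.2 h1, hinj he.2 hf.1 h2⟩

end map

/-- The standard grid on `ℕ × ℤ`. -/
def grid : SimpleGraph (ℕ × ℤ) where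
  Adj x y := (x.2 = y.2 ∧ (y.1 = x.1 + 1 ∨ x.1 = y.1 + 1)) ∨
    (x.1 = y.1 ∧ (y.2 = x.2 + 1 ∨ x.2 = y.2 + 1))
  symm := ⟨fun x y h => by
    rcases h with ⟨h1, h2⟩ | ⟨h1, h2⟩
    · exact Or.inl ⟨h1.symm, h2.symm⟩
    · exact Or.inr ⟨h1.symm, h2.symm⟩⟩
  loopless := ⟨fun x h => by
    rcases h with ⟨_, h2⟩ | ⟨_, h2⟩ <;> omega⟩

/-- Interior of the strip: columns `1..L`. -/
def Int (L : ℕ) : Set (ℕ × ℤ) := {x | 1 ≤ x.1 ∧ x.1 ≤ L}

section events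

variable {V : Type*} {p : unitInterval}

/-- Embedding of the strip with `L` interior columns into a graph. -/
structure Emb (H : SimpleGraph V) (φ : ℕ × ℤ → V) (L : ℕ) : Prop where
  pos : 1 ≤ L
  inj : InjOn φ {x | x.1 ≤ L + 1}
  adj : ∀ x ∈ Int L, ∀ y ∈ Int L, (H.Adj (φ x) (φ y) ↔ grid.Adj x y)

/-- Crossing from heights `A` at column `0` to heights `B` at column `L+1`. -/
def crs (H : SimpleGraph V) (φ : ℕ × ℤ → V) (L : ℕ) (A B : Set ℤ) : Set (Sym2 V → Bool) :=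
  {ω | ∃ k ∈ A, ∃ l ∈ B, ω s(φ (0, k), φ (1, k)) = true ∧
    Conn H ω (φ '' Int L) (φ (1, k)) (φ (L, l)) ∧ ω s(φ (L, l), φ (L + 1, l)) = true}

/-- Bypass over `k0`: an excursion into the strip from height `≤ k0` to height `> k0`. -/
def byp (H : SimpleGraph V) (φ : ℕ × ℤ → V) (L : ℕ) (k0 : ℤ) : Set (Sym2 V → Bool) :=
  {ω | ∃ k l : ℤ, k ≤ k0 ∧ k0 < l ∧ ω s(φ (0, k), φ (1, k)) = true ∧
    Conn H ω (φ '' Int L) (φ (1, k)) (φ (1, l)) ∧ ω s(φ (0, l), φ (1, l)) = true}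

/-- Long vertical connection inside the strip, started at heights `A` of column 1. -/
def far (H : SimpleGraph V) (φ : ℕ × ℤ → V) (L : ℕ) (A : Set ℤ) (n : ℕ) :
    Set (Sym2 V → Bool) :=
  {ω | ∃ k ∈ A, ∃ x ∈ Int L, Conn H ω (φ '' Int L) (φ (1, k)) (φ x) ∧ (n : ℤ) ≤ |x.2 - k|}

theorem one_mem_Int {L : ℕ} (h : 1 ≤ L) (k : ℤ) : ((1, k) : ℕ × ℤ) ∈ Int L := ⟨le_rfl, h⟩

theorem last_mem_Int {L : ℕ} (h : 1 ≤ L) (k : ℤ) : ((L, k) : ℕ × ℤ) ∈ Int L := ⟨h, le_rfl⟩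

theorem Int_sub {L : ℕ} : Int L ⊆ {x : ℕ × ℤ | x.1 ≤ L + 1} := fun x hx => by
  have := hx.2; simp only [mem_ofPred_eq]; omega

theorem crs_eq (H : SimpleGraph V) (φ : ℕ × ℤ → V) (L : ℕ) (A B : Set ℤ) :
    crs H φ L A B = ⋃ k ∈ A, ⋃ l ∈ B, ({ω | ω s(φ (0, k), φ (1, k)) = true} ∩
      ({ω | Conn H ω (φ '' Int L) (φ (1, k)) (φ (L, l))} ∩
        {ω | ω s(φ (L, l), φ (L + 1, l)) = true})) := by
  ext ω
  simp only [crs, mem_ofPred_eq, mem_iUnion, mem_inter_iff, exists_prop]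

theorem byp_eq (H : SimpleGraph V) (φ : ℕ × ℤ → V) (L : ℕ) (k0 : ℤ) :
    byp H φ L k0 = ⋃ k ∈ Iic k0, ⋃ l ∈ Ioi k0, ({ω | ω s(φ (0, k), φ (1, k)) = true} ∩
      ({ω | Conn H ω (φ '' Int L) (φ (1, k)) (φ (1, l))} ∩
        {ω | ω s(φ (0, l), φ (1, l)) = true})) := by
  ext ω
  simp only [byp, mem_ofPred_eq, mem_iUnion, mem_inter_iff, exists_prop, mem_Iic, mem_Ioi]
  constructor
  · rintro ⟨k, l, h1, h2, h3⟩; exact ⟨k, h1, l, h2, h3⟩
  · rintro ⟨k, h1, l, h2, h3⟩; exact ⟨k, l, h1, h2, h3⟩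

theorem far_eq (H : SimpleGraph V) (φ : ℕ × ℤ → V) (L : ℕ) (A : Set ℤ) (n : ℕ) :
    far H φ L A n = ⋃ k ∈ A, ⋃ x ∈ {x | x ∈ Int L ∧ (n : ℤ) ≤ |x.2 - k|},
      {ω | Conn H ω (φ '' Int L) (φ (1, k)) (φ x)} := by
  ext ω
  simp only [far, mem_ofPred_eq, mem_iUnion, exists_prop]
  constructor
  · rintro ⟨k, hk, x, hx, hc, hn⟩; exact ⟨k, hk, x, ⟨hx, hn⟩, hc⟩
  · rintro ⟨k, hk, x, ⟨hx, hn⟩, hc⟩; exact ⟨k, hk, x, hx, hc, hn⟩

theorem meas_crs [Countable V] (H : SimpleGraph V) (φ : ℕ × ℤ → V) (L : ℕ) (A B : Set ℤ) :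
    MeasurableSet (crs H φ L A B) := by
  rw [crs_eq]
  exact MeasurableSet.biUnion (to_countable _) fun k _ =>
    MeasurableSet.biUnion (to_countable _) fun l _ =>
      (meas_coord _ _).inter ((meas_conn H _ _ _).inter (meas_coord _ _))

theorem meas_byp [Countable V] (H : SimpleGraph V) (φ : ℕ × ℤ → V) (L : ℕ) (k0 : ℤ) :
    MeasurableSet (byp H φ L k0) := by
  rw [byp_eq]
  exact MeasurableSet.biUnion (to_countable _) fun k _ =>
    MeasurableSet.biUnion (to_countable _) fun l _ =>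
      (meas_coord _ _).inter ((meas_conn H _ _ _).inter (meas_coord _ _))

theorem meas_far [Countable V] (H : SimpleGraph V) (φ : ℕ × ℤ → V) (L : ℕ) (A : Set ℤ) (n : ℕ) :
    MeasurableSet (far H φ L A n) := by
  rw [far_eq]
  exact MeasurableSet.biUnion (to_countable _) fun k _ =>
    MeasurableSet.biUnion (to_countable _) fun l _ => meas_conn H _ _ _

/-- The edges of the strip: those meeting the interior. -/
def StripE (φ : ℕ × ℤ → V) (L : ℕ) : Set (Sym2 V) :=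
  Ed (φ '' {x | x.1 ≤ L + 1}) ∩ Tch (φ '' Int L)

theorem Ed_Int_sub (φ : ℕ × ℤ → V) (L : ℕ) : Ed (φ '' Int L) ⊆ StripE φ L := by
  intro e he
  refine ⟨Ed_mono (image_mono Int_sub) he, ?_⟩
  induction e with
  | h x y => exact mk_mem_Tch.2 (Or.inl (mk_mem_Ed.1 he).1)

theorem rung_mem {φ : ℕ × ℤ → V} {L : ℕ} (hL : 1 ≤ L) (k : ℤ) :
    s(φ (0, k), φ (1, k)) ∈ StripE φ L :=
  ⟨mk_mem_Ed.2 ⟨⟨_, by simp only [mem_ofPred_eq]; omega, rfl⟩,
    ⟨_, by simp only [mem_ofPred_eq]; omega, rfl⟩⟩,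
    mk_mem_Tch.2 (Or.inr ⟨_, one_mem_Int hL k, rfl⟩)⟩

theorem rung_mem' {φ : ℕ × ℤ → V} {L : ℕ} (hL : 1 ≤ L) (k : ℤ) :
    s(φ (L, k), φ (L + 1, k)) ∈ StripE φ L :=
  ⟨mk_mem_Ed.2 ⟨⟨_, by simp only [mem_ofPred_eq]; omega, rfl⟩,
    ⟨_, by simp only [mem_ofPred_eq]; omega, rfl⟩⟩,
    mk_mem_Tch.2 (Or.inl ⟨_, last_mem_Int hL k, rfl⟩)⟩

theorem dep_crs (H : SimpleGraph V) (φ : ℕ × ℤ → V) {L : ℕ} (hL : 1 ≤ L) (A B : Set ℤ) :
    Dep (StripE φ L) (crs H φ L A B) := by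
  rw [crs_eq]
  refine Dep.iUnion fun k => Dep.iUnion fun _ => Dep.iUnion fun l => Dep.iUnion fun _ => ?_
  exact (dep_coord (rung_mem hL k) _).inter (((dep_conn H _ _ _).mono (Ed_Int_sub φ L)).inter
    (dep_coord (rung_mem' hL l) _))

theorem dep_byp (H : SimpleGraph V) (φ : ℕ × ℤ → V) {L : ℕ} (hL : 1 ≤ L) (k0 : ℤ) :
    Dep (StripE φ L) (byp H φ L k0) := by
  rw [byp_eq]
  refine Dep.iUnion fun k => Dep.iUnion fun _ => Dep.iUnion fun l => Dep.iUnion fun _ => ?_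
  exact (dep_coord (rung_mem hL k) _).inter (((dep_conn H _ _ _).mono (Ed_Int_sub φ L)).inter
    (dep_coord (rung_mem hL l) _))

theorem pull_crs {H : SimpleGraph V} {φ : ℕ × ℤ → V} {L : ℕ} (h : Emb H φ L) (A B : Set ℤ) :
    crs H φ L A B = {ω | (fun e => ω (e.map φ)) ∈ crs grid id L A B} := by
  ext ω
  simp only [crs, mem_ofPred_eq, id_eq, image_id', Sym2.map_mk]
  have key : ∀ k l : ℤ, Conn H ω (φ '' Int L) (φ (1, k)) (φ (L, l)) ↔
      Conn grid (fun e => ω (e.map φ)) (Int L) (1, k) (L, l) := fun k l =>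
    conn_map φ (h.inj.mono Int_sub) h.adj ω (one_mem_Int h.pos k) (last_mem_Int h.pos l)
  simp only [key]

theorem pull_byp {H : SimpleGraph V} {φ : ℕ × ℤ → V} {L : ℕ} (h : Emb H φ L) (k0 : ℤ) :
    byp H φ L k0 = {ω | (fun e => ω (e.map φ)) ∈ byp grid id L k0} := by
  ext ω
  simp only [byp, mem_ofPred_eq, id_eq, image_id', Sym2.map_mk]
  have key : ∀ k l : ℤ, Conn H ω (φ '' Int L) (φ (1, k)) (φ (1, l)) ↔
      Conn grid (fun e => ω (e.map φ)) (Int L) (1, k) (1, l) := fun k l =>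
    conn_map φ (h.inj.mono Int_sub) h.adj ω (one_mem_Int h.pos k) (one_mem_Int h.pos l)
  simp only [key]

theorem pull_far {H : SimpleGraph V} {φ : ℕ × ℤ → V} {L : ℕ} (h : Emb H φ L) (A : Set ℤ)
    (n : ℕ) :
    far H φ L A n = {ω | (fun e => ω (e.map φ)) ∈ far grid id L A n} := by
  ext ω
  simp only [far, mem_ofPred_eq, id_eq, image_id']
  constructor
  · rintro ⟨k, hk, x, hx, hc, hn⟩
    exact ⟨k, hk, x, hx, (conn_map φ (h.inj.mono Int_sub) h.adj ω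
      (one_mem_Int h.pos k) hx).1 hc, hn⟩
  · rintro ⟨k, hk, x, hx, hc, hn⟩
    exact ⟨k, hk, x, hx, (conn_map φ (h.inj.mono Int_sub) h.adj ω
      (one_mem_Int h.pos k) hx).2 hc, hn⟩

theorem dep_grid_aux {L : ℕ} (hL : 1 ≤ L) :
    ∀ k : ℤ, (s(((0 : ℕ), k), ((1 : ℕ), k)) : Sym2 (ℕ × ℤ)) ∈ Ed {x : ℕ × ℤ | x.1 ≤ L + 1} ∧
      (s((L, k), (L + 1, k)) : Sym2 (ℕ × ℤ)) ∈ Ed {x : ℕ × ℤ | x.1 ≤ L + 1} := by
  intro k
  constructor <;> rw [mk_mem_Ed] <;> simp only [mem_ofPred_eq] <;> omega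

theorem prob_crs [Countable V] {H : SimpleGraph V} {φ : ℕ × ℤ → V} {L : ℕ} (h : Emb H φ L)
    (A B : Set ℤ) : PB p _ (crs H φ L A B) = PB p _ (crs grid id L A B) := by
  rw [pull_crs h]
  refine PB_pullback (Sym2.map φ) (sym2_map_injOn φ h.inj) (meas_crs _ _ _ _ _) ?_
  rw [crs_eq]
  refine Dep.iUnion fun k => Dep.iUnion fun _ => Dep.iUnion fun l => Dep.iUnion fun _ => ?_
  refine (dep_coord (dep_grid_aux h.pos k).1 _).inter
    (((dep_conn _ _ _ _).mono (Ed_mono ?_)).inter (dep_coord (dep_grid_aux h.pos l).2 _))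
  rw [image_id]; exact Int_sub

theorem prob_byp [Countable V] {H : SimpleGraph V} {φ : ℕ × ℤ → V} {L : ℕ} (h : Emb H φ L)
    (k0 : ℤ) : PB p _ (byp H φ L k0) = PB p _ (byp grid id L k0) := by
  rw [pull_byp h]
  refine PB_pullback (Sym2.map φ) (sym2_map_injOn φ h.inj) (meas_byp _ _ _ _) ?_
  rw [byp_eq]
  refine Dep.iUnion fun k => Dep.iUnion fun _ => Dep.iUnion fun l => Dep.iUnion fun _ => ?_
  refine (dep_coord (dep_grid_aux h.pos k).1 _).inter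
    (((dep_conn _ _ _ _).mono (Ed_mono ?_)).inter (dep_coord (dep_grid_aux h.pos l).1 _))
  rw [image_id]; exact Int_sub

theorem prob_far [Countable V] {H : SimpleGraph V} {φ : ℕ × ℤ → V} {L : ℕ} (h : Emb H φ L)
    (A : Set ℤ) (n : ℕ) : PB p _ (far H φ L A n) = PB p _ (far grid id L A n) := by
  rw [pull_far h]
  refine PB_pullback (Sym2.map φ) (sym2_map_injOn φ h.inj) (meas_far _ _ _ _ _) ?_
  rw [far_eq]
  refine Dep.iUnion fun k => Dep.iUnion fun _ => Dep.iUnion fun l => Dep.iUnion fun _ => ?_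
  refine (dep_conn _ _ _ _).mono (Ed_mono ?_)
  rw [image_id]; exact Int_sub

end events

end

end Pool.Agent.Helper57
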