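import Pool.Agent.Helper57.Strip

open MeasureTheory ProbabilityTheory Set
open scoped ENNReal

namespace Pool.Agent.Helper57

noncomputable section

variable {p : unitInterval}

/-- Crossing probability from a window of height `h` to the other side. -/
def Q (p : unitInterval) (L h : ℕ) : ℝ≥0∞ :=
  PB p _ (crs grid id L (Ico (0 : ℤ) h) univ)

theorem crs_mono {V : Type*} (H : SimpleGraph V) (φ : ℕ × ℤ → V) (L : ℕ) {A A' B B' : Set ℤ}
    (hA : A ⊆ A') (hB : B ⊆ B') : crs H φ L A B ⊆ crs H φ L A' B' := by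
  rintro ω ⟨k, hk, l, hl, h⟩
  exact ⟨k, hA hk, l, hB hl, h⟩

theorem crs_union {V : Type*} (H : SimpleGraph V) (φ : ℕ × ℤ → V) (L : ℕ) (A A' B : Set ℤ) :
    crs H φ L (A ∪ A') B = crs H φ L A B ∪ crs H φ L A' B := by
  ext ω
  constructor
  · rintro ⟨k, hk | hk, l, hl, h⟩
    · exact Or.inl ⟨k, hk, l, hl, h⟩
    · exact Or.inr ⟨k, hk, l, hl, h⟩
  · rintro (⟨k, hk, l, hl, h⟩ | ⟨k, hk, l, hl, h⟩)
    · exact ⟨k, Or.inl hk, l, hl, h⟩
    · exact ⟨k, Or.inr hk, l, hl, h⟩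

/-- Vertical translation of the grid. -/
def shift (c : ℤ) : ℕ × ℤ → ℕ × ℤ := fun x => (x.1, x.2 + c)

theorem shift_inj (c : ℤ) : Function.Injective (shift c) := by
  intro x y h
  simp only [shift, Prod.mk.injEq] at h
  ext
  · exact h.1
  · linarith [h.2]

theorem shift_emb {L : ℕ} (hL : 1 ≤ L) (c : ℤ) : Emb grid (shift c) L where
  pos := hL
  inj := (shift_inj c).injOn
  adj := fun x _ y _ => by
    simp only [grid, shift]
    constructor <;> rintro (⟨h1, h2⟩ | ⟨h1, h2⟩)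
    · left; omega
    · right; omega
    · left; omega
    · right; omega

theorem shift_Int (L : ℕ) (c : ℤ) : shift c '' Int L = Int L := by
  ext x
  simp only [mem_image, Int, mem_ofPred_eq, shift]
  constructor
  · rintro ⟨y, hy, rfl⟩; exact hy
  · intro hx; exact ⟨(x.1, x.2 - c), hx, by ext <;> simp⟩

theorem crs_shift {L : ℕ} (hL : 1 ≤ L) (c : ℤ) (A B : Set ℤ) :
    PB p _ (crs grid id L ((· + c) '' A) ((· + c) '' B)) = PB p _ (crs grid id L A B) := by
  rw [← prob_crs (shift_emb hL c) A B]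
  congr 1
  ext ω
  simp only [crs, shift_Int, id_eq, image_id', mem_ofPred_eq, mem_image]
  constructor
  · rintro ⟨_, ⟨k, hk, rfl⟩, _, ⟨l, hl, rfl⟩, h⟩
    exact ⟨k, hk, l, hl, h⟩
  · rintro ⟨k, hk, l, hl, h⟩
    exact ⟨_, ⟨k, hk, rfl⟩, _, ⟨l, hl, rfl⟩, h⟩

theorem image_add_Ico (a b c : ℤ) : (· + c) '' Ico a b = Ico (a + c) (b + c) := by
  simp

theorem crs_window {L : ℕ} (hL : 1 ≤ L) (a : ℤ) (h : ℕ) :
    PB p _ (crs grid id L (Ico a (a + h)) univ) = Q p L h := by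
  have := crs_shift (p := p) hL a (Ico (0 : ℤ) h) univ
  rw [image_add_Ico] at this
  rw [Q, ← this]
  congr 1
  have h1 : ((· + a) '' (univ : Set ℤ)) = univ := by
    rw [image_univ]; exact (Equiv.addRight a).surjective.range_eq
  rw [h1]
  congr 2 <;> ring

theorem crs_windows {L : ℕ} (hL : 1 ≤ L) (a : ℤ) (h m : ℕ) :
    PB p _ (crs grid id L (Ico a (a + m * h)) univ) ≤ m * Q p L h := by
  induction m with
  | zero =>
    have : crs grid id L (Ico a (a + (0 : ℕ) * h)) univ = ∅ := by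
      ext ω
      simp [crs]
    rw [this]; simp
  | succ m ih =>
    have h1 : Ico a (a + ((m + 1 : ℕ) : ℤ) * h) ⊆
        Ico a (a + m * h) ∪ Ico (a + m * h) ((a + m * h) + h) := by
      intro x hx
      simp only [mem_Ico, mem_union] at hx ⊢
      push_cast at hx
      have : a + m * h + h = a + (m + 1) * h := by ring
      rw [this]
      omega
    refine (measure_mono (crs_mono _ _ _ h1 subset_rfl)).trans ?_
    rw [crs_union]
    refine (measure_union_le _ _).trans ?_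
    rw [crs_window hL]
    push_cast
    rw [add_mul, one_mul]
    gcongr

/-- Reflection of the strip. -/
def refl (L : ℕ) : ℕ × ℤ → ℕ × ℤ := fun x => (L + 1 - x.1, x.2)

theorem refl_emb {L : ℕ} (hL : 1 ≤ L) : Emb grid (refl L) L where
  pos := hL
  inj := by
    intro x hx y hy h
    simp only [refl, Prod.mk.injEq, mem_ofPred_eq] at h hx hy
    ext
    · omega
    · exact h.2
  adj := fun x hx y hy => by
    simp only [grid, refl, Int, mem_ofPred_eq] at *
    constructor <;> rintro (⟨h1, h2⟩ | ⟨h1, h2⟩)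
    · left; omega
    · right; omega
    · left; omega
    · right; omega

theorem refl_Int (L : ℕ) : refl L '' Int L = Int L := by
  ext x
  simp only [mem_image, Int, mem_ofPred_eq, refl]
  constructor
  · rintro ⟨y, hy, rfl⟩
    simp only
    omega
  · intro hx
    refine ⟨(L + 1 - x.1, x.2), ?_, ?_⟩
    · simp only; omega
    · ext
      · simp only; omega
      · rfl

theorem crs_refl {L : ℕ} (hL : 1 ≤ L) (A B : Set ℤ) :
    PB p _ (crs grid id L A B) = PB p _ (crs grid id L B A) := by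
  rw [← prob_crs (refl_emb hL) A B]
  congr 1
  ext ω
  have e1 : L + 1 - L = 1 := by omega
  have e2 : L + 1 - (L + 1) = 0 := by omega
  simp only [crs, refl_Int, id_eq, image_id', mem_ofPred_eq]
  simp only [refl, e1, e2, Nat.sub_zero, Nat.add_sub_cancel]
  constructor
  · rintro ⟨k, hk, l, hl, h1, h2, h3⟩
    refine ⟨l, hl, k, hk, ?_, h2.symm, ?_⟩
    · rw [Sym2.eq_swap]; exact h3
    · rw [Sym2.eq_swap]; exact h1
  · rintro ⟨k, hk, l, hl, h1, h2, h3⟩
    refine ⟨l, hl, k, hk, ?_, h2.symm, ?_⟩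
    · rw [Sym2.eq_swap]; exact h3
    · rw [Sym2.eq_swap]; exact h1

theorem grid_nbr (x : ℕ × ℤ) : ∃ N : Finset (ℕ × ℤ), N.card ≤ 4 ∧
    ∀ z, grid.Adj x z → z ∈ N := by
  refine ⟨{(x.1 + 1, x.2), (x.1 - 1, x.2), (x.1, x.2 + 1), (x.1, x.2 - 1)}, ?_, ?_⟩
  · exact Finset.card_le_four
  · intro z hz
    simp only [Finset.mem_insert, Finset.mem_singleton, Prod.ext_iff]
    simp only [grid] at hz
    omega

/-- Decay constant. -/
def dk (p : unitInterval) : ℝ≥0∞ := 4 * ENNReal.ofReal (p : ℝ)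

theorem grid_decay (S : Set (ℕ × ℤ)) (ρ : ℕ × ℤ → ℤ)
    (hρ : ∀ x ∈ S, ∀ y ∈ S, grid.Adj x y → ρ y ≤ ρ x + 1) (r : ℕ) (x : ℕ × ℤ)
    (B : Set (ℕ × ℤ)) (hB : ∀ y ∈ B, y ∈ S → ρ x + r ≤ ρ y) :
    PB p _ (hits grid S {x} B) ≤ dk p ^ r := by
  have := exp_decay (p := p) grid S 4
    (fun x _ => by
      obtain ⟨N, h1, h2⟩ := grid_nbr x
      exact ⟨N, h1, fun z _ hz => h2 z hz⟩) ρ hρ r x B hB
  simpa [dk] using this

/-- crossing probability decays in `L` -/
theorem Q_decay {L : ℕ} (hL : 1 ≤ L) (h : ℕ) : Q p L h ≤ h * dk p ^ (L - 1) := by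
  have hsub : crs grid id L (Ico (0 : ℤ) h) univ ⊆
      ⋃ k ∈ Finset.range h, hits grid (Int L) {(1, (k : ℤ))} {x | x.1 = L} := by
    rintro ω ⟨k, hk, l, _, _, hc, _⟩
    simp only [id_eq, image_id'] at hc
    simp only [mem_iUnion, exists_prop, Finset.mem_range]
    obtain ⟨m, rfl⟩ := Int.eq_ofNat_of_zero_le hk.1
    refine ⟨m, ?_, (1, (m : ℤ)), rfl, (L, l), rfl, hc⟩
    have := hk.2
    exact_mod_cast this
  refine (measure_mono hsub).trans ((measure_biUnion_finset_le _ _).trans ?_)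
  refine (Finset.sum_le_sum (g := fun _ => dk p ^ (L - 1)) fun k _ => ?_).trans ?_
  · refine grid_decay (Int L) (fun x => (x.1 : ℤ)) ?_ _ _ _ ?_
    · intro x _ y _ hxy
      simp only [grid] at hxy
      omega
    · intro y hy _
      simp only [mem_ofPred_eq] at hy
      simp only
      omega
  · simp

/-- monotonicity in `h` -/
theorem Q_mono {L h h' : ℕ} (hh : h ≤ h') : Q p L h ≤ Q p L h' :=
  measure_mono (crs_mono _ _ _ (Ico_subset_Ico_right (by exact_mod_cast hh)) subset_rfl)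

theorem Q_mul {L : ℕ} (hL : 1 ≤ L) (h m : ℕ) : Q p L (m * h) ≤ m * Q p L h := by
  have := crs_windows (p := p) hL 0 h m
  rw [Q]
  simpa using this

theorem Q_succ {L : ℕ} (hL : 1 ≤ L) (h : ℕ) :
    ENNReal.ofReal (p : ℝ) * Q p L h ≤ Q p (L + 1) h := by
  have e : crs grid id L (Ico (0 : ℤ) h) univ = ⋃ l : ℤ, crs grid id L (Ico (0 : ℤ) h) {l} := by
    ext ω
    simp only [mem_iUnion]
    constructor
    · rintro ⟨k, hk, l, _, h⟩; exact ⟨l, k, hk, l, rfl, h⟩
    · rintro ⟨l, k, hk, _, _, h⟩; exact ⟨k, hk, _, trivial, h⟩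
  rw [Q, e]
  have key := PB_iUnion_inter (p := p) (E := Sym2 (ℕ × ℤ)) (T := Ed {x : ℕ × ℤ | x.1 ≤ L + 1})
    (U := Tch {x : ℕ × ℤ | x.1 = L + 2}) ?_
    (X := fun l : ℤ => crs grid id L (Ico (0 : ℤ) h) {l})
    (Y := fun l : ℤ => {ω | ω s((L + 1, l), (L + 2, l)) = true})
    (fun l => meas_crs _ _ _ _ _) (fun l => meas_coord _ _) ?_ ?_ (a := ENNReal.ofReal (p : ℝ))
    (fun l => by rw [PB_true])
  · refine key.trans (measure_mono ?_)
    intro ω hω
    simp only [mem_iUnion] at hω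
    obtain ⟨l, ⟨k, hk, l', hl', h1, h2, h3⟩, h4⟩ := hω
    rw [mem_singleton_iff] at hl'
    subst hl'
    simp only [id_eq, image_id'] at h1 h2 h3
    refine ⟨k, hk, l', trivial, h1, ?_, h4⟩
    simp only [id_eq, image_id']
    have hI : Int L ⊆ Int (L + 1) := fun x hx => ⟨hx.1, hx.2.trans (Nat.le_succ L)⟩
    refine (h2.mono hI).tail ⟨⟨hL, Nat.le_succ L⟩, ⟨by simp, le_rfl⟩, ?_, h3⟩
    left; exact ⟨rfl, Or.inl rfl⟩
  · refine disjoint_Ed_Tch ?_
    rw [Set.disjoint_left]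
    intro x hx hx'
    simp only [mem_ofPred_eq] at hx hx'
    omega
  · intro l
    rw [crs_eq]
    refine Dep.iUnion fun k => Dep.iUnion fun _ => Dep.iUnion fun l => Dep.iUnion fun _ => ?_
    refine (dep_coord (dep_grid_aux hL k).1 _).inter
      (((dep_conn _ _ _ _).mono (Ed_mono ?_)).inter (dep_coord (dep_grid_aux hL l).2 _))
    rw [image_id]; exact Int_sub
  · intro l
    have h2 : ((L + 2, l) : ℕ × ℤ) ∈ {x : ℕ × ℤ | x.1 = L + 2} := rfl
    exact dep_coord (mk_mem_Tch.2 (Or.inr h2)) _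

end

end Pool.Agent.Helper57
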