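import Pool.Agent.Helper57.StripProb

open MeasureTheory ProbabilityTheory Set Filter
open scoped ENNReal Topology

namespace Pool.Agent.Helper57

noncomputable section

variable {p : unitInterval}

theorem Q_tendsto (hp : dk p < 1) (h : ℕ) : Tendsto (fun L => Q p (L + 1) h) atTop (𝓝 0) := by
  have h1 : Tendsto (fun L : ℕ => (h : ℝ≥0∞) * dk p ^ L) atTop (𝓝 0) := by
    have := ENNReal.Tendsto.const_mul (a := (h : ℝ≥0∞))
      (ENNReal.tendsto_pow_atTop_nhds_zero_of_lt_one hp) (Or.inr (ENNReal.natCast_ne_top h))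
    simpa using this
  refine tendsto_of_tendsto_of_tendsto_of_le_of_le tendsto_const_nhds h1 (fun _ => bot_le) ?_
  intro L
  exact Q_decay (Nat.le_add_left 1 L) h

/-- Tuning of the length. -/
theorem Q_tune (hp : dk p < 1) {h : ℕ} {c : ℝ≥0∞} (hc : 0 < c) (h1 : c ≤ Q p 1 h) :
    ∃ L, 1 ≤ L ∧ c ≤ Q p L h ∧ ENNReal.ofReal (p : ℝ) * Q p L h ≤ c := by
  have hex : ∃ L, Q p (L + 1) h < c := by
    have := (Q_tendsto hp h).eventually (gt_mem_nhds hc)
    exact this.exists
  classical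
  set L0 := Nat.find hex with hL0
  have hlt : Q p (L0 + 1) h < c := Nat.find_spec hex
  have hpos : 1 ≤ L0 := by
    by_contra hcon
    have h0 : L0 = 0 := by omega
    rw [h0, zero_add] at hlt
    exact absurd h1 (not_le.2 hlt)
  refine ⟨L0, hpos, ?_, ?_⟩
  · have := Nat.find_min hex (m := L0 - 1) (by omega)
    rw [not_lt, Nat.sub_add_cancel hpos] at this
    exact this
  · exact (Q_succ hpos h).trans hlt.le

/-- Lower bound on crossing by straight lines. -/
theorem Q_lower {L : ℕ} (hL : 1 ≤ L) (h : ℕ) :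
    1 ≤ Q p L h + (1 - ENNReal.ofReal (p : ℝ) ^ (L + 1)) ^ h := by
  set Ev : ℕ → Set (Sym2 (ℕ × ℤ) → Bool) := fun k =>
    ⋂ t ∈ Finset.range (L + 1), {ω | ω s((t, (k : ℤ)), (t + 1, (k : ℤ))) = true} with hEv
  have hEm : ∀ k, MeasurableSet (Ev k) := fun k =>
    Finset.measurableSet_biInter _ fun t _ => meas_coord _ _
  have hEp : ∀ k, PB p _ (Ev k) = ENNReal.ofReal (p : ℝ) ^ (L + 1) := by
    intro k
    rw [hEv]
    simp only
    rw [PB_biInter (Finset.range (L + 1))
      (T := fun t : ℕ => {s((t, (k : ℤ)), (t + 1, (k : ℤ)))})]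
    · simp [PB_true]
    · exact fun t _ => meas_coord _ _
    · exact fun t _ => dep_coord (mem_singleton _) _
    · intro t _ t' _ hne
      rw [disjoint_singleton]
      intro h
      rw [Sym2.eq_iff] at h
      simp only [Prod.mk.injEq, and_true] at h
      omega
  have hEd : ∀ k : ℕ, Dep (Ed {x : ℕ × ℤ | x.2 = (k : ℤ)}) (Ev k) := by
    intro k
    refine Dep.iInter fun t => Dep.iInter fun _ => dep_coord ?_ _
    rw [mk_mem_Ed]; exact ⟨rfl, rfl⟩
  have hsub : (crs grid id L (Ico (0 : ℤ) h) univ)ᶜ ⊆ ⋂ k ∈ Finset.range h, (Ev k)ᶜ := by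
    intro ω hω
    simp only [mem_iInter, Finset.mem_range]
    intro k hk hE
    apply hω
    simp only [hEv, mem_iInter, Finset.mem_range, mem_ofPred_eq] at hE
    have hcon : ∀ t, t < L → Conn grid ω (Int L) (1, (k : ℤ)) (t + 1, (k : ℤ)) := by
      intro t
      induction t with
      | zero => intro _; exact Conn.refl (one_mem_Int hL _)
      | succ t ih =>
        intro ht
        refine (ih (by omega)).tail ⟨⟨by simp, ?_⟩, ⟨by simp, ?_⟩, ?_, hE (t + 1) (by omega)⟩
        · simp only; omega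
        · simp only; omega
        · left; exact ⟨rfl, Or.inl rfl⟩
    refine ⟨k, ⟨by positivity, by exact_mod_cast hk⟩, k, trivial, ?_, ?_, ?_⟩
    · exact hE 0 (by omega)
    · rw [image_id]
      have := hcon (L - 1) (by omega)
      rwa [Nat.sub_add_cancel hL] at this
    · exact hE L (by omega)
  have h1 : PB p _ ((crs grid id L (Ico (0 : ℤ) h) univ)ᶜ) ≤
      (1 - ENNReal.ofReal (p : ℝ) ^ (L + 1)) ^ h := by
    refine (measure_mono hsub).trans ?_
    rw [PB_biInter (Finset.range h) (T := fun k : ℕ => Ed {x : ℕ × ℤ | x.2 = (k : ℤ)})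
      (fun k _ => (hEm k).compl) (fun k _ => (hEd k).compl)]
    · refine (Finset.prod_le_prod' (g := fun _ => 1 - ENNReal.ofReal (p : ℝ) ^ (L + 1))
        fun k _ => ?_).trans ?_
      · rw [prob_compl_eq_one_sub (hEm k), hEp]
      · simp
    · intro i _ j _ hij
      refine disjoint_Ed_Ed ?_
      rw [Set.disjoint_left]
      intro x hx hx'
      simp only [mem_ofPred_eq] at hx hx'
      apply hij
      rw [hx] at hx'
      exact_mod_cast hx'
  have h2 := prob_add_prob_compl (μ := PB p (Sym2 (ℕ × ℤ)))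
    (meas_crs grid id L (Ico (0 : ℤ) h) univ)
  calc 1 = _ := h2.symm
    _ ≤ _ := by
      rw [Q]
      gcongr

/-- Long vertical connections are unlikely. -/
theorem far_prob {L : ℕ} (_hL : 1 ≤ L) (a : ℤ) (m n : ℕ) :
    PB p _ (far grid id L (Ico a (a + m)) n) ≤ m * (2 * dk p ^ n) := by
  have hsub : far grid id L (Ico a (a + m)) n ⊆ ⋃ i ∈ Finset.range m,
      (hits grid (Int L) {(1, a + (i : ℤ))} {x | a + i + n ≤ x.2} ∪
        hits grid (Int L) {(1, a + (i : ℤ))} {x | x.2 ≤ a + i - n}) := by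
    rintro ω ⟨k, hk, x, hx, hc, hn⟩
    simp only [id_eq, image_id'] at hc
    simp only [mem_iUnion, exists_prop, Finset.mem_range]
    obtain ⟨i, hi⟩ := Int.eq_ofNat_of_zero_le (sub_nonneg.2 hk.1)
    have hk2 : k = a + i := by omega
    subst hk2
    refine ⟨i, ?_, ?_⟩
    · have := hk.2; omega
    · rcases abs_cases (x.2 - (a + i)) with ⟨h1, _⟩ | ⟨h1, _⟩
      · left
        exact ⟨(1, a + i), rfl, x, by simp only [mem_ofPred_eq]; omega, hc⟩
      · right
        exact ⟨(1, a + i), rfl, x, by simp only [mem_ofPred_eq]; omega, hc⟩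
  refine (measure_mono hsub).trans ((measure_biUnion_finset_le _ _).trans ?_)
  refine (Finset.sum_le_sum (g := fun _ => 2 * dk p ^ n) fun i _ => ?_).trans ?_
  · refine (measure_union_le _ _).trans ?_
    rw [two_mul]
    gcongr
    · refine grid_decay (Int L) (fun x => x.2) ?_ n _ _ ?_
      · intro x _ y _ hxy
        simp only [grid] at hxy
        omega
      · intro y hy _
        exact hy
    · refine grid_decay (Int L) (fun x => - x.2) ?_ n _ _ ?_
      · intro x _ y _ hxy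
        simp only [grid] at hxy
        omega
      · intro y hy _
        simp only [mem_ofPred_eq] at hy ⊢
        omega
  · simp

/-- Bypasses are unlikely (third order in `p`). -/
theorem byp_prob {L : ℕ} (hL : 1 ≤ L) (k0 : ℤ) (hp : dk p ≤ 1 / 2) :
    PB p _ (byp grid id L k0) ≤ 2 * (ENNReal.ofReal (p : ℝ) * dk p ^ 2) := by
  set S : Set (ℕ × ℤ) := Int L ∪ {x | x.1 = 0 ∧ k0 < x.2} with hS
  have hsub : byp grid id L k0 ⊆ ⋃ d : ℕ,
      ({ω | ω s((0, k0 - (d : ℤ)), (1, k0 - (d : ℤ))) = true} ∩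
        hits grid S {(1, k0 - (d : ℤ))} {x | x.1 = 0 ∧ k0 < x.2}) := by
    rintro ω ⟨k, l, hk, hl, h1, h2, h3⟩
    simp only [id_eq, image_id'] at h1 h2 h3
    obtain ⟨d, hd⟩ := Int.eq_ofNat_of_zero_le (sub_nonneg.2 hk)
    have hk2 : k = k0 - d := by omega
    subst hk2
    rw [mem_iUnion]
    refine ⟨d, h1, (1, k0 - d), rfl, (0, l), ⟨rfl, hl⟩, ?_⟩
    refine (h2.mono subset_union_left).tail ⟨Or.inl (one_mem_Int hL l), Or.inr ⟨rfl, hl⟩, ?_, ?_⟩
    · left; exact ⟨rfl, Or.inr rfl⟩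
    · rw [Sym2.eq_swap]; exact h3
  have hterm : ∀ d : ℕ, PB p _ ({ω | ω s((0, k0 - (d : ℤ)), (1, k0 - (d : ℤ))) = true} ∩
        hits grid S {(1, k0 - (d : ℤ))} {x | x.1 = 0 ∧ k0 < x.2}) ≤
      (ENNReal.ofReal (p : ℝ) * dk p ^ 2) * dk p ^ d := by
    intro d
    have h5 : ((0, k0 - (d : ℤ)) : ℕ × ℤ) ∈ ({(0, k0 - (d : ℤ))} : Set (ℕ × ℤ)) := rfl
    rw [PB_inter (T := Tch {(0, k0 - (d : ℤ))}) (U := Ed S) (meas_coord _ _) (meas_hits _ _ _ _)
      (dep_coord (mk_mem_Tch.2 (Or.inl h5)) _) (dep_hits _ _ _ _)]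
    · rw [PB_true, mul_assoc]
      gcongr
      rw [← pow_add, add_comm 2 d]
      refine grid_decay S (fun x => if x.1 = 0 then x.2 + 1 else x.2) ?_ _ _ _ ?_
      · intro x hx y hy hxy
        simp only [grid] at hxy
        simp only [hS, Int, mem_union, mem_ofPred_eq] at hx hy
        split_ifs <;> omega
      · intro y hy _
        simp only [mem_ofPred_eq] at hy
        simp only [hy.1, one_ne_zero, if_false, if_true]
        push_cast
        omega
    · refine (disjoint_Ed_Tch ?_).symm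
      rw [Set.disjoint_left]
      intro x hx hx'
      rw [mem_singleton_iff] at hx'
      subst hx'
      simp only [hS, Int, mem_union, mem_ofPred_eq] at hx
      omega
  calc PB p _ (byp grid id L k0) ≤ ∑' d : ℕ, (ENNReal.ofReal (p : ℝ) * dk p ^ 2) * dk p ^ d :=
        (measure_mono hsub).trans ((measure_iUnion_le _).trans (ENNReal.tsum_le_tsum hterm))
    _ = (ENNReal.ofReal (p : ℝ) * dk p ^ 2) * (1 - dk p)⁻¹ := by
        rw [ENNReal.tsum_mul_left, ENNReal.tsum_geometric]
    _ ≤ (ENNReal.ofReal (p : ℝ) * dk p ^ 2) * 2 := by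
        gcongr
        rw [ENNReal.inv_le_iff_inv_le]
        calc (2 : ℝ≥0∞)⁻¹ = 1 - 1 / 2 := by
              rw [one_div, ENNReal.one_sub_inv_two]
          _ ≤ 1 - dk p := tsub_le_tsub_left hp 1
    _ = _ := mul_comm _ _

end

end Pool.Agent.Helper57
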