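import Pool.Agent.Helper57.Graph

open MeasureTheory ProbabilityTheory Set
open scoped ENNReal

namespace Pool.Agent.Helper57

noncomputable section

open Raw

variable {b : ℕ} {M ℓ : ℕ → ℕ} {p : unitInterval}

/-- region around node `v` -/
def SR (M ℓ : ℕ → ℕ) (v : List (Fin b)) (lo hi : ℤ) : Set (Raw b × ℤ) :=
  hubR M v lo hi ∪ ⋃ o, pathI ℓ (armN v o)

theorem hub_mem_SR {v w : List (Fin b)} {lo hi : ℤ} {i : ℕ} {k : ℤ}
    (h : (hub w i, k) ∈ SR M ℓ v lo hi) : w = v ∧ i < M v.length ∧ lo ≤ k ∧ k < hi := by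
  rcases h with ⟨j, hj, h1, h2, h3⟩ | h
  · simp only [Raw.hub.injEq] at h1
    obtain ⟨rfl, rfl⟩ := h1
    exact ⟨rfl, hj, h2, h3⟩
  · simp only [mem_iUnion] at h
    obtain ⟨o, t, _, h⟩ := h
    simp at h

theorem farN_ne {v : List (Fin b)} (hv : v ≠ []) (o : Option (Fin b)) : farN v o ≠ v := by
  cases o with
  | none =>
    simp only [farN]
    intro h
    have := congrArg List.length h
    rw [List.length_tail] at this
    have : 0 < v.length := List.length_pos_iff.2 hv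
    omega
  | some a =>
    simp only [farN]
    intro h
    have := congrArg List.length h
    simp at this

theorem arm_mem_SR {v : List (Fin b)} {lo hi : ℤ} {o : Option (Fin b)} {y : Raw b × ℤ}
    (h : y ∈ pathI ℓ (armN v o)) : y ∈ SR M ℓ v lo hi :=
  Or.inr (mem_iUnion.2 ⟨o, h⟩)

theorem armφ_one_mem {v : List (Fin b)} {o : Option (Fin b)} (h : 1 ≤ armL ℓ v o) (k : ℤ) :
    armφ ℓ v o (1, k) ∈ armφ ℓ v o '' Int (armL ℓ v o) := ⟨_, one_mem_Int h k, rfl⟩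

/-- The property that the arm `o` contains an open path starting through the rung at `k`. -/
def ArmC (M ℓ : ℕ → ℕ) (v : List (Fin b)) (o : Option (Fin b)) (ω : Sym2 (Raw b × ℤ) → Bool)
    (k : ℤ) (y : Raw b × ℤ) : Prop :=
  1 ≤ armL ℓ v o ∧ ω s(armφ ℓ v o (0, k), armφ ℓ v o (1, k)) = true ∧
    Conn (HG b M ℓ) ω (armφ ℓ v o '' Int (armL ℓ v o)) (armφ ℓ v o (1, k)) y

theorem reach_char {v : List (Fin b)} (hv : v ≠ []) {lo hi : ℤ} {U : Set ℤ}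
    {A : Set (Raw b × ℤ)} {ω : Sym2 (Raw b × ℤ) → Bool}
    (hA : ∀ x ∈ A, ∃ i < M v.length, ∃ k ∈ U, lo ≤ k ∧ k < hi ∧ x = (hub v i, k))
    (h1 : ∀ k ∈ U, ∀ k' ∉ U, (k' = k + 1 ∨ k = k' + 1) → ∀ i < M v.length,
      ω s((hub v i, k), (hub v i, k')) = false)
    (h2 : ∀ o, ∀ k ∈ U, ∀ k' ∉ U, ¬ (ArmC M ℓ v o ω k (armφ ℓ v o (1, k')) ∧
      ω s(armφ ℓ v o (0, k'), armφ ℓ v o (1, k')) = true)) :
    ∀ y ∈ clus (HG b M ℓ) ω (SR M ℓ v lo hi) A,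
      (∃ i < M v.length, ∃ k ∈ U, lo ≤ k ∧ k < hi ∧ y = (hub v i, k)) ∨
      (∃ o, ∃ k ∈ U, lo ≤ k ∧ k < hi ∧ ArmC M ℓ v o ω k y) := by
  rintro y ⟨a, ha, hc⟩
  refine hc.ind (Q := fun y => (∃ i < M v.length, ∃ k ∈ U, lo ≤ k ∧ k < hi ∧ y = (hub v i, k)) ∨
      (∃ o, ∃ k ∈ U, lo ≤ k ∧ k < hi ∧ ArmC M ℓ v o ω k y)) (Or.inl (hA a ha)) ?_
  rintro u w _ hu ⟨_, hwS, hadj, ho⟩
  rcases hu with ⟨i, hi', k, hkU, hk1, hk2, rfl⟩ | ⟨o, k, hkU, hk1, hk2, hL, hr, hcu⟩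
  · rcases nbr_hub hadj with ⟨j, hj, rfl⟩ | rfl | rfl | ⟨o, rfl, hL, rfl⟩
    · exact Or.inl ⟨j, hj, k, hkU, hk1, hk2, rfl⟩
    · obtain ⟨_, _, h3, h4⟩ := hub_mem_SR hwS
      by_cases hU : k + 1 ∈ U
      · exact Or.inl ⟨i, hi', k + 1, hU, h3, h4, rfl⟩
      · rw [h1 k hkU (k + 1) hU (Or.inl rfl) i hi'] at ho
        exact absurd ho (by simp)
    · obtain ⟨_, _, h3, h4⟩ := hub_mem_SR hwS
      by_cases hU : k - 1 ∈ U
      · exact Or.inl ⟨i, hi', k - 1, hU, h3, h4, rfl⟩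
      · rw [h1 k hkU (k - 1) hU (Or.inr (by omega)) i hi'] at ho
        exact absurd ho (by simp)
    · right
      refine ⟨o, k, hkU, hk1, hk2, hL, ?_, Conn.refl (armφ_one_mem hL k)⟩
      rw [armφ_zero]; exact ho
  · have hyP : u ∈ pathI ℓ (armN v o) := by
      rw [← armφ_Int]; exact hcu.right
    rcases nbr_arm hyP hadj with hz | ⟨k', rfl, rfl⟩ | ⟨k', rfl, rfl⟩
    · right
      refine ⟨o, k, hkU, hk1, hk2, hL, hr, hcu.tail ⟨hcu.right, ?_, hadj, ho⟩⟩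
      rw [armφ_Int]; exact hz
    · left
      rw [armφ_zero] at hwS
      obtain ⟨_, h3, h4, h5⟩ := hub_mem_SR hwS
      by_cases hU : k' ∈ U
      · exact ⟨0, h3, k', hU, h4, h5, armφ_zero _ _ _⟩
      · exfalso
        refine h2 o k hkU k' hU ⟨⟨hL, hr, hcu⟩, ?_⟩
        rw [Sym2.eq_swap]; exact ho
    · exfalso
      rw [armφ_end] at hwS
      exact farN_ne hv o (hub_mem_SR hwS).1

theorem exits_char {v : List (Fin b)} (hv : v ≠ []) {lo hi : ℤ} {U : Set ℤ}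
    {A W : Set (Raw b × ℤ)} {ω : Sym2 (Raw b × ℤ) → Bool}
    (hA : ∀ x ∈ A, ∃ i < M v.length, ∃ k ∈ U, lo ≤ k ∧ k < hi ∧ x = (hub v i, k))
    (h1 : ∀ k ∈ U, ∀ k' ∉ U, (k' = k + 1 ∨ k = k' + 1) → ∀ i < M v.length,
      ω s((hub v i, k), (hub v i, k')) = false)
    (h2 : ∀ o, ∀ k ∈ U, ∀ k' ∉ U, ¬ (ArmC M ℓ v o ω k (armφ ℓ v o (1, k')) ∧
      ω s(armφ ℓ v o (0, k'), armφ ℓ v o (1, k')) = true))
    (hω : ω ∈ exits (HG b M ℓ) (SR M ℓ v lo hi) A W) :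
    ∃ z ∈ W, z ∉ SR M ℓ v lo hi ∧
      ((∃ i < M v.length, ∃ k' ∈ U, z = (hub v i, k') ∧ (k' = hi ∨ k' = lo - 1)) ∨
       (∃ o, ∃ k ∈ U, lo ≤ k ∧ k < hi ∧ ∃ k' ∈ U, ArmC M ℓ v o ω k (armφ ℓ v o (1, k')) ∧
          z = (hub v 0, k')) ∨
       (∃ o, ∃ k ∈ U, lo ≤ k ∧ k < hi ∧ ∃ k', ArmC M ℓ v o ω k (armφ ℓ v o (armL ℓ v o, k')) ∧
          z = (hub (farN v o) 0, k') ∧
          ω s(armφ ℓ v o (armL ℓ v o, k'), armφ ℓ v o (armL ℓ v o + 1, k')) = true)) := by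
  obtain ⟨y, hy, z, hzW, hzS, hadj, ho⟩ := hω
  refine ⟨z, hzW, hzS, ?_⟩
  rcases reach_char hv hA h1 h2 y hy with ⟨i, hi', k, hkU, hk1, hk2, rfl⟩ |
    ⟨o, k, hkU, hk1, hk2, hL, hr, hcu⟩
  · rcases nbr_hub hadj with ⟨j, hj, rfl⟩ | rfl | rfl | ⟨o, rfl, hL, rfl⟩
    · exact absurd (Or.inl ⟨j, hj, rfl, hk1, hk2⟩) hzS
    · left
      refine ⟨i, hi', k + 1, ?_, rfl, ?_⟩
      · by_contra hU
        rw [h1 k hkU (k + 1) hU (Or.inl rfl) i hi'] at ho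
        exact absurd ho (by simp)
      · left
        by_contra hne
        exact hzS (Or.inl ⟨i, hi', rfl, by simp only; omega, by simp only; omega⟩)
    · left
      refine ⟨i, hi', k - 1, ?_, rfl, ?_⟩
      · by_contra hU
        rw [h1 k hkU (k - 1) hU (Or.inr (by omega)) i hi'] at ho
        exact absurd ho (by simp)
      · right
        by_contra hne
        exact hzS (Or.inl ⟨i, hi', rfl, by simp only; omega, by simp only; omega⟩)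
    · exfalso
      apply hzS
      apply arm_mem_SR (o := o)
      rw [← armφ_Int]; exact armφ_one_mem hL k
  · have hyP : y ∈ pathI ℓ (armN v o) := by
      rw [← armφ_Int]; exact hcu.right
    rcases nbr_arm hyP hadj with hz | ⟨k', rfl, rfl⟩ | ⟨k', rfl, rfl⟩
    · exact absurd (arm_mem_SR hz) hzS
    · right; left
      refine ⟨o, k, hkU, hk1, hk2, k', ?_, ⟨hL, hr, hcu⟩, armφ_zero _ _ _⟩
      by_contra hU
      refine h2 o k hkU k' hU ⟨⟨hL, hr, hcu⟩, ?_⟩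
      rw [Sym2.eq_swap]; exact ho
    · right; right
      exact ⟨o, k, hkU, hk1, hk2, k', ⟨hL, hr, hcu⟩, armφ_end _ _ _, ho⟩

/-- vertical hub edges above height `k0` all closed -/
def zetaE (M : ℕ → ℕ) (v : List (Fin b)) (k0 : ℤ) : Set (Sym2 (Raw b × ℤ) → Bool) :=
  {ω | ∀ i < M v.length, ω s((hub v i, k0), (hub v i, k0 + 1)) = false}

/-- some arm has a bypass over `k0` -/
def bypE (M ℓ : ℕ → ℕ) (v : List (Fin b)) (k0 : ℤ) : Set (Sym2 (Raw b × ℤ) → Bool) :=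
  ⋃ o ∈ {o | 1 ≤ armL ℓ v o}, byp (HG b M ℓ) (armφ ℓ v o) (armL ℓ v o) k0

/-- the cut event at height `k0` -/
def cutEv (M ℓ : ℕ → ℕ) (v : List (Fin b)) (k0 : ℤ) : Set (Sym2 (Raw b × ℤ) → Bool) :=
  zetaE M v k0 ∩ (bypE M ℓ v k0)ᶜ

theorem not_byp {v : List (Fin b)} {k0 : ℤ} {ω : Sym2 (Raw b × ℤ) → Bool}
    (h : ω ∈ cutEv M ℓ v k0) {o : Option (Fin b)} {k k' : ℤ} (hk : k ≤ k0) (hk' : k0 < k')
    (hL : 1 ≤ armL ℓ v o)
    (hr : ω s(armφ ℓ v o (0, k), armφ ℓ v o (1, k)) = true)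
    (hr' : ω s(armφ ℓ v o (0, k'), armφ ℓ v o (1, k')) = true)
    (hc : Conn (HG b M ℓ) ω (armφ ℓ v o '' Int (armL ℓ v o)) (armφ ℓ v o (1, k))
      (armφ ℓ v o (1, k'))) : False := by
  apply h.2
  rw [bypE]
  exact mem_biUnion (show o ∈ {o | 1 ≤ armL ℓ v o} from hL) ⟨k, k', hk, hk', hr, hc, hr'⟩

theorem no_exit_up {v : List (Fin b)} (hv : v ≠ []) {lo hi k0 : ℤ}
    {A W : Set (Raw b × ℤ)} {ω : Sym2 (Raw b × ℤ) → Bool} (hcut : ω ∈ cutEv M ℓ v k0)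
    (hA : ∀ x ∈ A, ∃ i < M v.length, ∃ k : ℤ, k ≤ k0 ∧ lo ≤ k ∧ k < hi ∧ x = (hub v i, k))
    (hW : ∀ z ∈ W, ∃ i, ∃ k : ℤ, k0 < k ∧ z = (hub v i, k)) :
    ω ∉ exits (HG b M ℓ) (SR M ℓ v lo hi) A W := by
  intro hω
  have key := exits_char (U := Iic k0) hv (lo := lo) (hi := hi) (A := A) (W := W) (ω := ω)
    (M := M) (ℓ := ℓ) ?_ ?_ ?_ hω
  · obtain ⟨z, hz, _, h⟩ := key
    obtain ⟨i, k, hk, rfl⟩ := hW z hz
    rcases h with ⟨i', _, k', hk', he, _⟩ | ⟨o, _, _, _, _, k', hk', _, he⟩ |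
      ⟨o, _, _, _, _, k', _, he, _⟩
    · simp only [Prod.mk.injEq] at he
      rw [← he.2] at hk'
      exact absurd hk (not_lt.2 hk')
    · simp only [Prod.mk.injEq] at he
      rw [← he.2] at hk'
      exact absurd hk (not_lt.2 hk')
    · simp only [Prod.mk.injEq, Raw.hub.injEq] at he
      exact farN_ne hv o he.1.1.symm
  · intro x hx
    obtain ⟨i, hi', k, h1, h2, h3, h4⟩ := hA x hx
    exact ⟨i, hi', k, h1, h2, h3, h4⟩
  · intro k hk k' hk' hkk i hi'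
    simp only [mem_Iic] at hk hk'
    have : k = k0 ∧ k' = k0 + 1 := by omega
    obtain ⟨rfl, rfl⟩ := this
    exact hcut.1 i hi'
  · rintro o k hk k' hk' ⟨⟨hL, hr, hc⟩, hr'⟩
    simp only [mem_Iic, not_le] at hk hk'
    exact not_byp hcut hk hk' hL hr hr' hc

theorem no_exit_down {v : List (Fin b)} (hv : v ≠ []) {lo hi k0 : ℤ}
    {A W : Set (Raw b × ℤ)} {ω : Sym2 (Raw b × ℤ) → Bool} (hcut : ω ∈ cutEv M ℓ v k0)
    (hA : ∀ x ∈ A, ∃ i < M v.length, ∃ k : ℤ, k0 < k ∧ lo ≤ k ∧ k < hi ∧ x = (hub v i, k))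
    (hW : ∀ z ∈ W, ∃ i, ∃ k : ℤ, k ≤ k0 ∧ z = (hub v i, k)) :
    ω ∉ exits (HG b M ℓ) (SR M ℓ v lo hi) A W := by
  intro hω
  have key := exits_char (U := Ioi k0) hv (lo := lo) (hi := hi) (A := A) (W := W) (ω := ω)
    (M := M) (ℓ := ℓ) ?_ ?_ ?_ hω
  · obtain ⟨z, hz, _, h⟩ := key
    obtain ⟨i, k, hk, rfl⟩ := hW z hz
    rcases h with ⟨i', _, k', hk', he, _⟩ | ⟨o, _, _, _, _, k', hk', _, he⟩ |
      ⟨o, _, _, _, _, k', _, he, _⟩
    · simp only [Prod.mk.injEq] at he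
      rw [← he.2] at hk'
      exact absurd hk (not_le.2 hk')
    · simp only [Prod.mk.injEq] at he
      rw [← he.2] at hk'
      exact absurd hk (not_le.2 hk')
    · simp only [Prod.mk.injEq, Raw.hub.injEq] at he
      exact farN_ne hv o he.1.1.symm
  · intro x hx
    obtain ⟨i, hi', k, h1, h2, h3, h4⟩ := hA x hx
    exact ⟨i, hi', k, h1, h2, h3, h4⟩
  · intro k hk k' hk' hkk i hi'
    simp only [mem_Ioi, not_lt] at hk hk'
    have : k = k0 + 1 ∧ k' = k0 := by omega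
    obtain ⟨rfl, rfl⟩ := this
    rw [Sym2.eq_swap]
    exact hcut.1 i hi'
  · rintro o k hk k' hk' ⟨⟨hL, hr, hc⟩, hr'⟩
    simp only [mem_Ioi, not_lt] at hk hk'
    exact not_byp hcut hk' hk hL hr' hr hc.symm

end

end Pool.Agent.Helper57
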