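import Pool.Agent.Helper57.Upper1

open MeasureTheory ProbabilityTheory Set
open scoped ENNReal

namespace Pool.Agent.Helper57

noncomputable section

open Raw

variable {b : ℕ} {M ℓ : ℕ → ℕ} {p : unitInterval}

/-- Markov inequality for counting. -/
theorem markov_count {Ω : Type*} [MeasurableSpace Ω] (μ : Measure Ω) {ι : Type*} (s : Finset ι)
    (X : ι → Set Ω) (hX : ∀ i, MeasurableSet (X i)) (m : ℕ) (Y : Set Ω)
    (hY : ∀ ω ∈ Y, ∃ t ⊆ s, m ≤ t.card ∧ ∀ i ∈ t, ω ∈ X i) :
    (m : ℝ≥0∞) * μ Y ≤ ∑ i ∈ s, μ (X i) := by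
  classical
  have h1 : ∀ ω ∈ Y, (m : ℝ≥0∞) ≤ ∑ i ∈ s, (X i).indicator (fun _ => (1 : ℝ≥0∞)) ω := by
    intro ω hω
    obtain ⟨t, hts, htm, hti⟩ := hY ω hω
    calc (m : ℝ≥0∞) ≤ t.card := by exact_mod_cast htm
      _ = ∑ i ∈ t, (1 : ℝ≥0∞) := by simp
      _ = ∑ i ∈ t, (X i).indicator (fun _ => (1 : ℝ≥0∞)) ω := by
        refine Finset.sum_congr rfl fun i hi => ?_
        rw [indicator_of_mem (hti i hi)]
      _ ≤ _ := Finset.sum_le_sum_of_subset hts
  have hm : Measurable fun ω => ∑ i ∈ s, (X i).indicator (fun _ => (1 : ℝ≥0∞)) ω :=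
    Finset.measurable_sum _ fun i _ => measurable_const.indicator (hX i)
  calc (m : ℝ≥0∞) * μ Y ≤ m * μ {ω | (m : ℝ≥0∞) ≤
        ∑ i ∈ s, (X i).indicator (fun _ => (1 : ℝ≥0∞)) ω} := by
        gcongr
        exact fun ω hω => h1 ω hω
    _ ≤ ∫⁻ ω, ∑ i ∈ s, (X i).indicator (fun _ => (1 : ℝ≥0∞)) ω ∂μ :=
        mul_meas_ge_le_lintegral hm _
    _ = ∑ i ∈ s, μ (X i) := by
        rw [lintegral_finsetSum _ fun i _ => measurable_const.indicator (hX i)]
        refine Finset.sum_congr rfl fun i _ => ?_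
        rw [lintegral_indicator_const (hX i), one_mul]

/-- The vertical hub edges over `k0`. -/
def Zsup (v : List (Fin b)) (k0 : ℤ) : Set (Sym2 (Raw b × ℤ)) :=
  {e | ∃ i : ℕ, e = s((hub v i, k0), (hub v i, k0 + 1))}

theorem Zsup_disj (v : List (Fin b)) {k l : ℤ} (h : k ≠ l) :
    Disjoint (Zsup v k) (Zsup v l) := by
  rw [Set.disjoint_left]
  rintro e ⟨i, rfl⟩ ⟨j, he⟩
  rw [Sym2.eq_iff] at he
  simp only [Prod.mk.injEq] at he
  omega

theorem zetaE_eq (v : List (Fin b)) (k0 : ℤ) : zetaE M v k0 =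
    ⋂ i ∈ Finset.range (M v.length),
      {ω : Sym2 (Raw b × ℤ) → Bool | ω s((hub v i, k0), (hub v i, k0 + 1)) = false} := by
  ext ω
  simp [zetaE]

theorem meas_zetaE (v : List (Fin b)) (k0 : ℤ) : MeasurableSet (zetaE M v k0) := by
  rw [zetaE_eq]
  exact Finset.measurableSet_biInter _ fun t _ => meas_coord _ _

theorem dep_zetaE (v : List (Fin b)) (k0 : ℤ) : Dep (Zsup v k0) (zetaE M v k0) := by
  rw [zetaE_eq]
  refine Dep.iInter fun i => Dep.iInter fun _ => dep_coord ?_ _
  exact ⟨i, rfl⟩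

theorem prob_zetaE (v : List (Fin b)) (k0 : ℤ) :
    PB p _ (zetaE M v k0) = xc p ^ (M v.length) := by
  rw [zetaE_eq, PB_biInter (Finset.range (M v.length))
    (T := fun i : ℕ => {s((hub v i, k0), (hub v i, k0 + 1))})]
  · simp only [PB_false]
    rw [Finset.prod_const, Finset.card_range]
    rfl
  · exact fun t _ => meas_coord _ _
  · exact fun t _ => dep_coord (mem_singleton _) _
  · intro i _ j _ hne
    rw [disjoint_singleton]
    intro h
    rw [Sym2.eq_iff] at h
    simp only [Prod.mk.injEq, Raw.hub.injEq, true_and] at h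
    omega

/-- Support of the bypass events. -/
def Bsup (ℓ : ℕ → ℕ) (v : List (Fin b)) : Set (Sym2 (Raw b × ℤ)) :=
  ⋃ o ∈ {o | 1 ≤ armL ℓ v o}, StripE (armφ ℓ v o) (armL ℓ v o)

theorem meas_bypE (v : List (Fin b)) (k0 : ℤ) : MeasurableSet (bypE M ℓ v k0) :=
  MeasurableSet.biUnion (to_countable _) fun _ _ => meas_byp _ _ _ _

theorem dep_bypE (v : List (Fin b)) (k0 : ℤ) : Dep (Bsup ℓ v) (bypE M ℓ v k0) := by
  refine Dep.iUnion fun o => Dep.iUnion fun ho => ?_
  exact (dep_byp _ _ ho _).mono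
    (subset_biUnion_of_mem (u := fun o => StripE (armφ ℓ v o) (armL ℓ v o)) ho)

theorem Bsup_disj (v : List (Fin b)) (k : ℤ) : Disjoint (Bsup ℓ v) (Zsup v k) := by
  rw [Set.disjoint_left]
  rintro e he ⟨i, rfl⟩
  simp only [Bsup, mem_iUnion] at he
  obtain ⟨o, _, _, he⟩ := he
  rw [armφ_Int, mk_mem_Tch] at he
  simp only [pathI, mem_ofPred_eq] at he
  rcases he with ⟨t, _, he⟩ | ⟨t, _, he⟩ <;> simp at he

/-- the bypass probability bound -/
def eps (p : unitInterval) (b : ℕ) : ℝ≥0∞ := (b + 1) * (2 * (ENNReal.ofReal (p : ℝ) * dk p ^ 2))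

theorem prob_bypE {v : List (Fin b)} (hv : v ≠ []) (k0 : ℤ) (hp : dk p ≤ 1 / 2) :
    PB p _ (bypE M ℓ v k0) ≤ eps p b := by
  classical
  have h1 : bypE M ℓ v k0 ⊆ ⋃ o ∈ (Finset.univ.filter fun o => 1 ≤ armL ℓ v o),
      byp (HG b M ℓ) (armφ ℓ v o) (armL ℓ v o) k0 := by
    intro ω hω
    simp only [bypE, mem_iUnion, mem_ofPred_eq] at hω
    simp only [mem_iUnion, Finset.mem_filter, Finset.mem_univ, true_and]
    exact hω
  refine (measure_mono h1).trans ((measure_biUnion_finset_le _ _).trans ?_)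
  calc ∑ o ∈ (Finset.univ.filter fun o => 1 ≤ armL ℓ v o),
        PB p _ (byp (HG b M ℓ) (armφ ℓ v o) (armL ℓ v o) k0)
      ≤ ∑ o ∈ (Finset.univ.filter fun o => 1 ≤ armL ℓ v o),
        2 * (ENNReal.ofReal (p : ℝ) * dk p ^ 2) := by
        refine Finset.sum_le_sum fun o ho => ?_
        simp only [Finset.mem_filter, Finset.mem_univ, true_and] at ho
        rw [prob_byp (armφ_emb hv o ho)]
        exact byp_prob ho k0 hp
    _ ≤ ∑ o : Option (Fin b), 2 * (ENNReal.ofReal (p : ℝ) * dk p ^ 2) :=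
        Finset.sum_le_sum_of_subset (Finset.filter_subset _ _)
    _ = eps p b := by
        rw [Finset.sum_const, Finset.card_univ, Fintype.card_option, Fintype.card_fin,
          nsmul_eq_mul, eps]
        push_cast
        rfl

/-- The hub upper bound: it is unlikely that there is no cut among `4 r` heights. -/
theorem prob_nocut {v : List (Fin b)} (hv : v ≠ []) (c : ℤ) {r : ℕ} (hr : 1 ≤ r)
    (hp : dk p ≤ 1 / 2) :
    PB p _ (⋂ i ∈ Finset.range (4 * r), (cutEv M ℓ v (c + (i : ℕ)))ᶜ) ≤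
      2 * eps p b + (1 - xc p ^ (M v.length)) ^ r := by
  classical
  set D : (Sym2 (Raw b × ℤ) → Bool) → Finset (Fin (4 * r)) := fun ω =>
    Finset.univ.filter fun i => ω ∉ bypE M ℓ v (c + (i : ℕ)) with hD
  set X : Set (Sym2 (Raw b × ℤ) → Bool) := {ω | r ≤ (D ω).card ∧
    ∀ i ∈ D ω, ω ∈ (zetaE M v (c + (i : ℕ)))ᶜ} with hX
  set Y : Set (Sym2 (Raw b × ℤ) → Bool) := {ω | (D ω).card < r} with hY
  have hsub : (⋂ i ∈ Finset.range (4 * r), (cutEv M ℓ v (c + (i : ℕ)))ᶜ) ⊆ Y ∪ X := by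
    intro ω hω
    simp only [mem_iInter, Finset.mem_range, mem_compl_iff, cutEv, mem_inter_iff, not_and,
      not_not] at hω
    rcases Nat.lt_or_ge (D ω).card r with h | h
    · exact Or.inl h
    · refine Or.inr ⟨h, fun i hi hz => ?_⟩
      simp only [hD, Finset.mem_filter, Finset.mem_univ, true_and] at hi
      exact hi (hω i i.2 hz)
  refine (measure_mono hsub).trans ((measure_union_le _ _).trans ?_)
  gcongr
  · -- Markov
    have h1 := markov_count (PB p (Sym2 (Raw b × ℤ))) (Finset.univ : Finset (Fin (4 * r)))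
      (fun i => bypE M ℓ v (c + (i : ℕ))) (fun i => meas_bypE _ _) (2 * r) Y ?_
    · have h2 : ((2 * r : ℕ) : ℝ≥0∞) * PB p _ Y ≤ (2 * r : ℕ) * (2 * eps p b) := by
        refine h1.trans ?_
        calc ∑ i : Fin (4 * r), PB p _ (bypE M ℓ v (c + (i : ℕ)))
            ≤ ∑ i : Fin (4 * r), eps p b :=
              Finset.sum_le_sum fun i _ => prob_bypE hv _ hp
          _ = ((2 * r : ℕ) : ℝ≥0∞) * (2 * eps p b) := by
              rw [Finset.sum_const, Finset.card_univ, Fintype.card_fin, nsmul_eq_mul]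
              push_cast
              ring
      refine (ENNReal.mul_le_mul_iff_right ?_ (ENNReal.natCast_ne_top _)).1 h2
      simp only [ne_eq, Nat.cast_eq_zero]
      omega
    · intro ω hω
      refine ⟨Finset.univ.filter fun i => ω ∈ bypE M ℓ v (c + (i : ℕ)),
        Finset.subset_univ _, ?_, ?_⟩
      · have h3 := Finset.card_filter_add_card_filter_not (s := (Finset.univ : Finset (Fin (4 * r))))
          (fun i => ω ∈ bypE M ℓ v (c + (i : ℕ)))
        rw [Finset.card_univ, Fintype.card_fin] at h3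
        have h4 : (D ω).card < r := hω
        simp only [hD] at h4
        omega
      · intro i hi
        simp only [Finset.mem_filter, Finset.mem_univ, true_and] at hi
        exact hi
  · have hmeas : ∀ d, MeasurableSet {ω | D ω = d} := by
      intro d
      have : {ω | D ω = d} = ⋂ i : Fin (4 * r),
          {ω | ω ∉ bypE M ℓ v (c + (i : ℕ)) ↔ i ∈ d} := by
        ext ω
        simp only [mem_ofPred_eq, mem_iInter, Finset.ext_iff, hD, Finset.mem_filter,
          Finset.mem_univ, true_and]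
      rw [this]
      refine MeasurableSet.iInter fun i => ?_
      by_cases hi : i ∈ d
      · have h2 : {ω | ω ∉ bypE M ℓ v (c + (i : ℕ)) ↔ i ∈ d} =
            (bypE M ℓ v (c + (i : ℕ)))ᶜ := by
          ext ω; simp [hi]
        rw [h2]; exact (meas_bypE _ _).compl
      · have h2 : {ω | ω ∉ bypE M ℓ v (c + (i : ℕ)) ↔ i ∈ d} =
            (bypE M ℓ v (c + (i : ℕ))) := by
          ext ω; simp [hi]
        rw [h2]; exact (meas_bypE _ _)
    refine PB_closure (p := p) (T0 := Bsup ℓ v) D hmeas ?_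
      (T := fun i : Fin (4 * r) => Zsup v (c + (i : ℕ)))
      (C := fun i : Fin (4 * r) => (zetaE M v (c + (i : ℕ)))ᶜ)
      (fun i => (meas_zetaE _ _).compl) (fun i => (dep_zetaE _ _).compl) ?_
      (fun i => Bsup_disj v _) tsub_le_self ?_ r
    · intro d ω ω' hω
      have : D ω = D ω' := by
        ext i
        simp only [hD, Finset.mem_filter, Finset.mem_univ, true_and]
        rw [dep_bypE (M := M) v (c + (i : ℕ)) ω ω' hω]
      simp only [mem_ofPred_eq, this]
    · intro i j hij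
      refine Zsup_disj v ?_
      intro h
      apply hij
      ext
      omega
    · intro i
      rw [prob_compl_eq_one_sub (meas_zetaE _ _), prob_zetaE]

end

end Pool.Agent.Helper57
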