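import Pool.Agent.Helper57.Upper2

open MeasureTheory ProbabilityTheory Set
open scoped ENNReal

namespace Pool.Agent.Helper57

noncomputable section

open Raw

variable {b : ℕ} {M ℓ : ℕ → ℕ} {p : unitInterval}

/-- the vertices above the root hub -/
def Bt (b : ℕ) : Set (Raw b × ℤ) := {x | ∃ i, x.1 = hub [] i}

/-- the part of the graph up to level `J` -/
def Lam (b J : ℕ) : Set (Raw b × ℤ) := {x | (node x.1).length ≤ J}

theorem SR_disj_Bt {v : List (Fin b)} (hv : v ≠ []) (lo hi : ℤ) :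
    Disjoint (SR M ℓ v lo hi) (Bt b) := by
  rw [Set.disjoint_left]
  rintro ⟨x1, x2⟩ hx ⟨i, hi'⟩
  simp only at hi'
  subst hi'
  exact hv (hub_mem_SR hx).1.symm

theorem hubR_sub_SR {v : List (Fin b)} {lo hi a a' : ℤ} (h1 : lo ≤ a) (h2 : a' ≤ hi) :
    hubR M v a a' ⊆ SR M ℓ v lo hi := by
  rintro x ⟨i, hi', hx, h3, h4⟩
  exact Or.inl ⟨i, hi', hx, h1.trans h3, h4.trans_le h2⟩

theorem mem_hubR {v : List (Fin b)} {a a' : ℤ} {x : Raw b × ℤ} (h : x ∈ hubR M v a a') :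
    ∃ i < M v.length, ∃ k : ℤ, a ≤ k ∧ k < a' ∧ x = (hub v i, k) := by
  obtain ⟨i, hi, h1, h2, h3⟩ := h
  exact ⟨i, hi, x.2, h2, h3, by rw [← h1]⟩

/-- Exits upward within the own hub. -/
theorem prob_exit_up {v : List (Fin b)} (hv : v ≠ []) (a : ℤ) {r : ℕ} (hr : 1 ≤ r)
    (hp : dk p ≤ 1 / 2) :
    PB p _ (exits (HG b M ℓ) (SR M ℓ v (a - (4 * r : ℕ)) (a + 2 * (4 * r : ℕ)))
      (hubR M v a (a + (4 * r : ℕ)))
      (hubR M v (a + 2 * (4 * r : ℕ)) (a + 3 * (4 * r : ℕ)))) ≤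
        2 * eps p b + (1 - xc p ^ (M v.length)) ^ r := by
  refine (measure_mono ?_).trans (prob_nocut (M := M) (ℓ := ℓ) hv (a + (4 * r : ℕ)) hr hp)
  intro ω hω
  simp only [mem_iInter, Finset.mem_range, mem_compl_iff]
  intro i hi hcut
  refine no_exit_up hv hcut ?_ ?_ hω
  · intro x hx
    obtain ⟨j, hj, k, h1, h2, rfl⟩ := mem_hubR hx
    exact ⟨j, hj, k, by omega, by omega, by omega, rfl⟩
  · intro z hz
    obtain ⟨j, hj, k, h1, h2, rfl⟩ := mem_hubR hz
    exact ⟨j, k, by omega, rfl⟩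

/-- Exits downward within the own hub. -/
theorem prob_exit_down {v : List (Fin b)} (hv : v ≠ []) (a : ℤ) {r : ℕ} (hr : 1 ≤ r)
    (hp : dk p ≤ 1 / 2) :
    PB p _ (exits (HG b M ℓ) (SR M ℓ v (a - (4 * r : ℕ)) (a + 2 * (4 * r : ℕ)))
      (hubR M v a (a + (4 * r : ℕ)))
      (hubR M v (a - 2 * (4 * r : ℕ)) (a - (4 * r : ℕ)))) ≤
        2 * eps p b + (1 - xc p ^ (M v.length)) ^ r := by
  refine (measure_mono ?_).trans (prob_nocut (M := M) (ℓ := ℓ) hv (a - (4 * r : ℕ)) hr hp)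
  intro ω hω
  simp only [mem_iInter, Finset.mem_range, mem_compl_iff]
  intro i hi hcut
  refine no_exit_down hv hcut ?_ ?_ hω
  · intro x hx
    obtain ⟨j, hj, k, h1, h2, rfl⟩ := mem_hubR hx
    exact ⟨j, hj, k, by omega, by omega, by omega, rfl⟩
  · intro z hz
    obtain ⟨j, hj, k, h1, h2, rfl⟩ := mem_hubR hz
    exact ⟨j, k, by omega, rfl⟩

/-- Characterization of the exits with no restriction on heights. -/
theorem exits_char' {v : List (Fin b)} (hv : v ≠ []) {lo hi : ℤ}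
    {A W : Set (Raw b × ℤ)} {ω : Sym2 (Raw b × ℤ) → Bool}
    (hA : A ⊆ hubR M v lo hi)
    (hω : ω ∈ exits (HG b M ℓ) (SR M ℓ v lo hi) A W) :
    ∃ z ∈ W, z ∉ SR M ℓ v lo hi ∧
      ((∃ i < M v.length, ∃ k', z = (hub v i, k') ∧ (k' = hi ∨ k' = lo - 1)) ∨
       (∃ o, ∃ k, lo ≤ k ∧ k < hi ∧ ∃ k', ArmC M ℓ v o ω k (armφ ℓ v o (1, k')) ∧
          z = (hub v 0, k')) ∨
       (∃ o, ∃ k, lo ≤ k ∧ k < hi ∧ ∃ k', ArmC M ℓ v o ω k (armφ ℓ v o (armL ℓ v o, k')) ∧
          z = (hub (farN v o) 0, k') ∧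
          ω s(armφ ℓ v o (armL ℓ v o, k'), armφ ℓ v o (armL ℓ v o + 1, k')) = true)) := by
  obtain ⟨z, hz, hzS, h⟩ := exits_char (U := univ) hv (fun x hx => by
    obtain ⟨j, hj, k, h1, h2, rfl⟩ := mem_hubR (hA hx)
    exact ⟨j, hj, k, trivial, h1, h2, rfl⟩) (fun k _ k' hk' => absurd trivial hk')
    (fun o k _ k' hk' => absurd trivial hk') hω
  refine ⟨z, hz, hzS, ?_⟩
  rcases h with ⟨i, hi, k', _, h1, h2⟩ | ⟨o, k, _, h1, h2, k', _, h3, h4⟩ |
    ⟨o, k, _, h1, h2, k', h3, h4, h5⟩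
  · exact Or.inl ⟨i, hi, k', h1, h2⟩
  · exact Or.inr (Or.inl ⟨o, k, h1, h2, k', h3, h4⟩)
  · exact Or.inr (Or.inr ⟨o, k, h1, h2, k', h3, h4, h5⟩)

/-- Exits to another node give a crossing of the arm leading there. -/
theorem exit_other {v w : List (Fin b)} (hv : v ≠ []) (hw : w ≠ v) {lo hi c d : ℤ}
    {A : Set (Raw b × ℤ)} (hA : A ⊆ hubR M v lo hi)
    {ω : Sym2 (Raw b × ℤ) → Bool}
    (hω : ω ∈ exits (HG b M ℓ) (SR M ℓ v lo hi) A (hubR M w c d)) :
    ∃ o, farN v o = w ∧ 1 ≤ armL ℓ v o ∧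
      ω ∈ crs (HG b M ℓ) (armφ ℓ v o) (armL ℓ v o) (Ico lo hi) (Ico c d) := by
  obtain ⟨z, hz, _, h⟩ := exits_char' hv hA hω
  obtain ⟨j, hj, k, h1, h2, rfl⟩ := mem_hubR hz
  simp only [Prod.mk.injEq, Raw.hub.injEq] at h
  rcases h with ⟨i, _, k', ⟨⟨rfl, _⟩, _⟩, _⟩ | ⟨o, k0, _, _, k', _, ⟨⟨rfl, _⟩, _⟩⟩ |
    ⟨o, k0, h3, h4, k', ⟨h5, h6, h7⟩, ⟨⟨h8, _⟩, h9⟩, h10⟩
  · exact absurd rfl hw
  · exact absurd rfl hw
  · subst h9
    exact ⟨o, h8.symm, h5, k0, ⟨h3, h4⟩, k, ⟨h1, h2⟩, h6, h7, h10⟩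

theorem prob_exit_parent {v : List (Fin b)} (hv : v ≠ []) {lo hi c : ℤ}
    {A : Set (Raw b × ℤ)} (hA : A ⊆ hubR M v lo hi) (h : ℕ) :
    PB p _ (exits (HG b M ℓ) (SR M ℓ v lo hi) A (hubR M v.tail c (c + h))) ≤
      Q p (pl ℓ v) h := by
  have htail : v.tail ≠ v := farN_ne hv none
  by_cases hL : 1 ≤ pl ℓ v
  · have h1 : exits (HG b M ℓ) (SR M ℓ v lo hi) A (hubR M v.tail c (c + h)) ⊆
        crs (HG b M ℓ) (φU ℓ v) (pl ℓ v) univ (Ico c (c + h)) := by
      intro ω hω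
      obtain ⟨o, ho, _, h2⟩ := exit_other hv htail hA hω
      cases o with
      | none => exact crs_mono _ _ _ (subset_univ _) subset_rfl h2
      | some a =>
        exfalso
        simp only [farN] at ho
        have := congrArg List.length ho
        simp only [List.length_cons, List.length_tail] at this
        omega
    refine (measure_mono h1).trans ?_
    rw [prob_crs (φU_emb hv hL), crs_refl hL, crs_window hL]
  · have h1 : exits (HG b M ℓ) (SR M ℓ v lo hi) A (hubR M v.tail c (c + h)) = ∅ := by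
      ext ω
      simp only [mem_empty_iff_false, iff_false]
      intro hω
      obtain ⟨o, ho, h3, h2⟩ := exit_other hv htail hA hω
      cases o with
      | none => exact hL h3
      | some a =>
        exfalso
        simp only [farN] at ho
        have := congrArg List.length ho
        simp only [List.length_cons, List.length_tail] at this
        omega
    rw [h1, measure_empty]
    exact bot_le

theorem prob_exit_child {v : List (Fin b)} (hv : v ≠ []) {lo c d : ℤ} {m : ℕ}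
    {A : Set (Raw b × ℤ)} (hA : A ⊆ hubR M v lo (lo + m)) (e : Fin b) :
    PB p _ (exits (HG b M ℓ) (SR M ℓ v lo (lo + m)) A (hubR M (e :: v) c d)) ≤
      Q p (ℓ v.length) m := by
  have htail : e :: v ≠ v := farN_ne hv (some e)
  by_cases hL : 1 ≤ ℓ v.length
  · have h1 : exits (HG b M ℓ) (SR M ℓ v lo (lo + m)) A (hubR M (e :: v) c d) ⊆
        crs (HG b M ℓ) (φD ℓ (e :: v)) (pl ℓ (e :: v)) (Ico lo (lo + m)) univ := by
      intro ω hω
      obtain ⟨o, ho, _, h2⟩ := exit_other hv htail hA hω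
      cases o with
      | none =>
        exfalso
        simp only [farN] at ho
        have := congrArg List.length ho
        simp only [List.length_cons, List.length_tail] at this
        omega
      | some a =>
        simp only [farN, List.cons.injEq, and_true] at ho
        subst ho
        exact crs_mono _ _ _ subset_rfl (subset_univ _) h2
    refine (measure_mono h1).trans ?_
    have hL' : 1 ≤ pl ℓ (e :: v) := hL
    rw [prob_crs (φD_emb (List.cons_ne_nil _ _) hL), crs_window hL']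
    exact le_rfl
  · have h1 : exits (HG b M ℓ) (SR M ℓ v lo (lo + m)) A (hubR M (e :: v) c d) = ∅ := by
      ext ω
      simp only [mem_empty_iff_false, iff_false]
      intro hω
      obtain ⟨o, ho, h3, h2⟩ := exit_other hv htail hA hω
      cases o with
      | none =>
        exfalso
        simp only [farN] at ho
        have := congrArg List.length ho
        simp only [List.length_cons, List.length_tail] at this
        omega
      | some a => exact hL h3
    rw [h1, measure_empty]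
    exact bot_le

/-- The remaining exits need a long vertical connection in an arm. -/
theorem prob_exit_far {v : List (Fin b)} (hv : v ≠ []) (hM : ∀ j, 1 ≤ M j) {a : ℤ} {n : ℕ}
    (hn : 1 ≤ n) {A W : Set (Raw b × ℤ)} (hA : A ⊆ hubR M v (a - n) (a + 2 * n))
    (hW1 : ∀ z ∈ W, ∀ i < M v.length, ∀ k : ℤ, z = (hub v i, k) →
      ¬ (a - 2 * n ≤ k ∧ k < a - n) ∧ ¬ (a + 2 * n ≤ k ∧ k < a + 3 * n))
    (hW2 : ∀ z ∈ W, ∀ o, ∀ k : ℤ, z = (hub (farN v o) 0, k) →
      ¬ (a - 2 * n ≤ k ∧ k < a + 3 * n)) :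
    PB p _ (exits (HG b M ℓ) (SR M ℓ v (a - n) (a + 2 * n)) A W) ≤
      (b + 1) * ((3 * n : ℕ) * (2 * dk p ^ n)) := by
  classical
  have h1 : exits (HG b M ℓ) (SR M ℓ v (a - n) (a + 2 * n)) A W ⊆
      ⋃ o ∈ (Finset.univ.filter fun o => 1 ≤ armL ℓ v o),
        far (HG b M ℓ) (armφ ℓ v o) (armL ℓ v o) (Ico (a - n) (a + 2 * n)) n := by
    intro ω hω
    obtain ⟨z, hz, hzS, h⟩ := exits_char' hv hA hω
    rcases h with ⟨i, hi, k', h1, h2⟩ | ⟨o, k, h3, h4, k', ⟨hL, _, hc⟩, rfl⟩ |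
      ⟨o, k, h3, h4, k', ⟨hL, _, hc⟩, rfl, h5⟩
    · exfalso
      have := hW1 z hz i hi k' h1
      omega
    · simp only [mem_iUnion, Finset.mem_filter, Finset.mem_univ, true_and]
      refine ⟨o, hL, k, ⟨h3, h4⟩, (1, k'), one_mem_Int hL k', hc, ?_⟩
      have h6 := hW1 _ hz 0 (hM _) k' rfl
      have h7 : ¬ (a - n ≤ k' ∧ k' < a + 2 * n) := by
        intro h
        exact hzS (Or.inl ⟨0, hM _, rfl, h.1, h.2⟩)
      simp only
      rw [le_abs]
      omega
    · simp only [mem_iUnion, Finset.mem_filter, Finset.mem_univ, true_and]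
      refine ⟨o, hL, k, ⟨h3, h4⟩, (armL ℓ v o, k'), last_mem_Int hL k', hc, ?_⟩
      have h6 := hW2 _ hz o k' rfl
      simp only
      rw [le_abs]
      omega
  refine (measure_mono h1).trans ((measure_biUnion_finset_le _ _).trans ?_)
  have h2 : a + 2 * (n : ℤ) = (a - n) + (3 * n : ℕ) := by push_cast; ring
  rw [h2]
  calc ∑ o ∈ (Finset.univ.filter fun o => 1 ≤ armL ℓ v o),
        PB p _ (far (HG b M ℓ) (armφ ℓ v o) (armL ℓ v o) (Ico (a - n) ((a - n) + (3 * n : ℕ))) n)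
      ≤ ∑ o ∈ (Finset.univ.filter fun o => 1 ≤ armL ℓ v o),
        ((3 * n : ℕ) * (2 * dk p ^ n)) := by
        refine Finset.sum_le_sum fun o ho => ?_
        simp only [Finset.mem_filter, Finset.mem_univ, true_and] at ho
        rw [prob_far (armφ_emb hv o ho)]
        exact far_prob ho _ _ _
    _ ≤ ∑ o : Option (Fin b), ((3 * n : ℕ) * (2 * dk p ^ n)) :=
        Finset.sum_le_sum_of_subset (Finset.filter_subset _ _)
    _ = _ := by
        rw [Finset.sum_const, Finset.card_univ, Fintype.card_option, Fintype.card_fin,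
          nsmul_eq_mul]
        push_cast
        ring

end

end Pool.Agent.Helper57
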