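import Pool.Agent.Helper57.Upper3

open MeasureTheory ProbabilityTheory Set
open scoped ENNReal

namespace Pool.Agent.Helper57

noncomputable section

open Raw

variable {b : ℕ} {M ℓ n : ℕ → ℕ} {p : unitInterval}

/-- probability to reach the root from a window at `v` -/
def Fv (p : unitInterval) (M ℓ n : ℕ → ℕ) (J : ℕ) (v : List (Fin b)) (a : ℤ) : ℝ≥0∞ :=
  PB p _ (hits (HG b M ℓ) (Lam b J) (hubR M v a (a + n v.length)) (Bt b))

/-- supremum over the level -/
def FF (p : unitInterval) (b : ℕ) (M ℓ n : ℕ → ℕ) (J j : ℕ) : ℝ≥0∞ :=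
  ⨆ (v : List (Fin b)) (_ : v.length = j) (a : ℤ), Fv p M ℓ n J v a

theorem Fv_le_FF {J : ℕ} {v : List (Fin b)} {j : ℕ} (hv : v.length = j) (a : ℤ) :
    Fv p M ℓ n J v a ≤ FF p b M ℓ n J j :=
  le_iSup₂_of_le v hv (le_iSup (fun a => Fv p M ℓ n J v a) a)

theorem FF_le_one {J j : ℕ} : FF p b M ℓ n J j ≤ 1 :=
  iSup₂_le fun _ _ => iSup_le fun _ => prob_le_one

theorem FF_top {J : ℕ} : FF p b M ℓ n J (J + 1) = 0 := by
  rw [← nonpos_iff_eq_zero]
  refine iSup₂_le fun v hv => iSup_le fun a => ?_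
  have : hits (HG b M ℓ) (Lam b J) (hubR M v a (a + n v.length)) (Bt b) = ∅ := by
    ext ω
    simp only [mem_empty_iff_false, iff_false]
    rintro ⟨x, hx, y, _, hc⟩
    obtain ⟨i, _, k, _, _, rfl⟩ := mem_hubR hx
    have := hc.left
    simp only [Lam, mem_ofPred_eq, node] at this
    omega
  rw [Fv, this, measure_empty]

theorem cover_window {c k : ℤ} {m K : ℕ} (h1 : c ≤ k) (h2 : k < c + K * m) :
    ∃ i : Fin K, c + (i : ℕ) * m ≤ k ∧ k < c + (i : ℕ) * m + m := by
  obtain ⟨d, hd⟩ := Int.eq_ofNat_of_zero_le (sub_nonneg.2 h1)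
  have hk : k = c + d := by omega
  subst hk
  have h3 : d < m * K := by
    have : (d : ℤ) < (m * K : ℕ) := by push_cast; linarith [mul_comm (m : ℤ) K]
    exact_mod_cast this
  have hm : 0 < m := by
    rcases Nat.eq_zero_or_pos m with h | h
    · subst h; simp at h3
    · exact h
  refine ⟨⟨d / m, Nat.div_lt_of_lt_mul h3⟩, ?_, ?_⟩
  · have h4 : m * (d / m) ≤ d := Nat.mul_div_le _ _
    have h5 : ((m * (d / m) : ℕ) : ℤ) ≤ d := by exact_mod_cast h4
    push_cast at h5 ⊢
    linarith [mul_comm (m : ℤ) ((d / m : ℕ) : ℤ)]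
  · have h4 : d < m * (d / m) + m := Nat.lt_mul_div_succ d hm
    have h5 : (d : ℤ) < ((m * (d / m) + m : ℕ) : ℤ) := by exact_mod_cast h4
    push_cast at h5 ⊢
    linarith [mul_comm (m : ℤ) ((d / m : ℕ) : ℤ)]

/-- The windows used in the Simon-Lieb step. -/
def Wd (M : ℕ → ℕ) (v : List (Fin b)) (a : ℤ) (n0 n1 n2 : ℕ) :
    Bool ⊕ (Fin 10 ⊕ (Fin b × Fin 5)) → Set (Raw b × ℤ)
  | Sum.inl true => hubR M v (a + 2 * n1) (a + 3 * n1)
  | Sum.inl false => hubR M v (a - 2 * n1) (a - n1)
  | Sum.inr (Sum.inl i) => hubR M v.tail (a - 2 * n1 + (i : ℕ) * n0)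
      (a - 2 * n1 + (i : ℕ) * n0 + n0)
  | Sum.inr (Sum.inr q) => hubR M (q.1 :: v) (a - 2 * n1 + (q.2 : ℕ) * n2)
      (a - 2 * n1 + (q.2 : ℕ) * n2 + n2)

theorem rec_step {v : List (Fin b)} {j r J : ℕ} (hj : v.length = j + 1)
    (hnr : n (j + 1) = 4 * r) (hr : 1 ≤ r) (hp : dk p ≤ 1 / 2) (hM : ∀ j, 1 ≤ M j)
    (h1 : n (j + 1) ≤ 2 * n j) (h2 : n (j + 1) ≤ n (j + 2)) (a : ℤ) :
    Fv p M ℓ n J v a ≤
      2 * (2 * eps p b + (1 - xc p ^ (M (j + 1))) ^ r) * FF p b M ℓ n J (j + 1) +
      10 * Q p (ℓ j) (n j) * FF p b M ℓ n J j +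
      5 * b * Q p (ℓ (j + 1)) (3 * n (j + 1)) * FF p b M ℓ n J (j + 2) +
      (b + 1) * ((3 * n (j + 1) : ℕ) * (2 * dk p ^ n (j + 1))) := by
  classical
  have hv : v ≠ [] := by
    rintro rfl
    simp at hj
  have hvt : v.tail.length = j := by rw [List.length_tail, hj]; rfl
  set n1 := n (j + 1) with hn1
  have hn1pos : 1 ≤ n1 := by omega
  have hpl : pl ℓ v = ℓ j := by
    cases v with
    | nil => exact absurd rfl hv
    | cons e w =>
      simp only [List.length_cons, Nat.add_right_cancel_iff] at hj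
      simp only [pl, hj]
  have hAS : hubR M v a (a + n1) ⊆ hubR M v (a - n1) (a + 2 * n1) := by
    rintro x ⟨i, hi, h3, h4, h5⟩
    exact ⟨i, hi, h3, by omega, by omega⟩
  have key := SL (p := p) (HG b M ℓ) (Λ := Lam b J) (S := SR M ℓ v (a - n1) (a + 2 * n1))
    (A := hubR M v a (a + n1)) (B := Bt b)
    (hubR_sub_SR (by omega) (by omega)) (SR_disj_Bt hv _ _)
    (Wd M v a (n j) n1 (n (j + 2)))
  have hF : Fv p M ℓ n J v a = PB p _ (hits (HG b M ℓ) (Lam b J) (hubR M v a (a + n1)) (Bt b)) := by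
    rw [Fv, hj]
  rw [hF]
  refine key.trans ?_
  have hup : PB p _ (exits (HG b M ℓ) (SR M ℓ v (a - n1) (a + 2 * n1)) (hubR M v a (a + n1))
      (hubR M v (a + 2 * n1) (a + 3 * n1))) ≤ 2 * eps p b + (1 - xc p ^ (M (j + 1))) ^ r := by
    have := prob_exit_up (M := M) (ℓ := ℓ) (p := p) hv a hr hp
    rw [hj] at this
    rw [hnr]
    exact this
  have hdown : PB p _ (exits (HG b M ℓ) (SR M ℓ v (a - n1) (a + 2 * n1)) (hubR M v a (a + n1))
      (hubR M v (a - 2 * n1) (a - n1))) ≤ 2 * eps p b + (1 - xc p ^ (M (j + 1))) ^ r := by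
    have := prob_exit_down (M := M) (ℓ := ℓ) (p := p) hv a hr hp
    rw [hj] at this
    rw [hnr]
    exact this
  gcongr
  · rw [Fintype.sum_sum_type, Fintype.sum_bool, Fintype.sum_sum_type, Fintype.sum_prod_type]
    rw [← add_assoc]
    gcongr
    · rw [mul_assoc 2 (2 * eps p b + (1 - xc p ^ (M (j + 1))) ^ r) (FF p b M ℓ n J (j + 1)),
        two_mul ((2 * eps p b + (1 - xc p ^ (M (j + 1))) ^ r) * FF p b M ℓ n J (j + 1))]
      gcongr
      · exact (measure_mono (exits_mono subset_rfl inter_subset_left)).trans hup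
      · have := Fv_le_FF (p := p) (M := M) (ℓ := ℓ) (n := n) (J := J) hj (a + 2 * n1)
        rw [Fv, hj] at this
        have e : a + 3 * (n1 : ℤ) = a + 2 * n1 + n1 := by ring
        simp only [Wd]
        rw [e]
        exact this
      · exact (measure_mono (exits_mono subset_rfl inter_subset_left)).trans hdown
      · have := Fv_le_FF (p := p) (M := M) (ℓ := ℓ) (n := n) (J := J) hj (a - 2 * n1)
        rw [Fv, hj] at this
        have e : a - (n1 : ℤ) = a - 2 * n1 + n1 := by ring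
        simp only [Wd]
        rw [e]
        exact this
    · calc ∑ i : Fin 10, PB p _ (exits (HG b M ℓ) (SR M ℓ v (a - n1) (a + 2 * n1))
            (hubR M v a (a + n1)) (Wd M v a (n j) n1 (n (j + 2)) (Sum.inr (Sum.inl i)) ∩ Lam b J)) *
            PB p _ (hits (HG b M ℓ) (Lam b J)
              (Wd M v a (n j) n1 (n (j + 2)) (Sum.inr (Sum.inl i))) (Bt b))
          ≤ ∑ i : Fin 10, Q p (ℓ j) (n j) * FF p b M ℓ n J j := by
            refine Finset.sum_le_sum fun i _ => ?_
            gcongr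
            · refine (measure_mono (exits_mono subset_rfl inter_subset_left)).trans ?_
              have := prob_exit_parent (M := M) (ℓ := ℓ) (p := p) hv
                (c := a - 2 * n1 + (i : ℕ) * (n j)) hAS (n j)
              rw [hpl] at this
              exact this
            · have := Fv_le_FF (p := p) (M := M) (ℓ := ℓ) (n := n) (J := J) hvt
                (a - 2 * n1 + (i : ℕ) * (n j))
              rw [Fv, hvt] at this
              exact this
        _ = 10 * Q p (ℓ j) (n j) * FF p b M ℓ n J j := by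
            rw [Finset.sum_const, Finset.card_univ, Fintype.card_fin, nsmul_eq_mul, mul_assoc]
            rfl
    · calc ∑ x : Fin b, ∑ y : Fin 5, PB p _ (exits (HG b M ℓ) (SR M ℓ v (a - n1) (a + 2 * n1))
            (hubR M v a (a + n1)) (Wd M v a (n j) n1 (n (j + 2)) (Sum.inr (Sum.inr (x, y))) ∩
              Lam b J)) *
            PB p _ (hits (HG b M ℓ) (Lam b J)
              (Wd M v a (n j) n1 (n (j + 2)) (Sum.inr (Sum.inr (x, y)))) (Bt b))
          ≤ ∑ x : Fin b, ∑ y : Fin 5,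
              Q p (ℓ (j + 1)) (3 * n (j + 1)) * FF p b M ℓ n J (j + 2) := by
            refine Finset.sum_le_sum fun x _ => Finset.sum_le_sum fun y _ => ?_
            gcongr
            · refine (measure_mono (exits_mono subset_rfl inter_subset_left)).trans ?_
              have e : a + 2 * (n1 : ℤ) = a - n1 + (3 * n1 : ℕ) := by push_cast; ring
              have h3 := prob_exit_child (M := M) (ℓ := ℓ) (p := p) hv (lo := a - n1)
                (m := 3 * n1) (c := a - 2 * n1 + (y : ℕ) * (n (j + 2)))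
                (d := a - 2 * n1 + (y : ℕ) * (n (j + 2)) + (n (j + 2)))
                (A := hubR M v a (a + n1)) (by rw [← e]; exact hAS) x
              rw [hj, ← e] at h3
              exact h3
            · have := Fv_le_FF (p := p) (M := M) (ℓ := ℓ) (n := n) (J := J) (v := x :: v)
                (j := j + 2) (by rw [List.length_cons, hj])
                (a - 2 * n1 + (y : ℕ) * (n (j + 2)))
              rw [Fv, List.length_cons, hj] at this
              exact this
        _ = 5 * b * Q p (ℓ (j + 1)) (3 * n (j + 1)) * FF p b M ℓ n J (j + 2) := by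
            simp only [Finset.sum_const, Finset.card_univ, Fintype.card_fin, nsmul_eq_mul]
            push_cast
            ring
  · refine prob_exit_far hv hM hn1pos hAS ?_ ?_
    · intro z hz i hi k hk
      subst hk
      constructor
      · intro h
        exact hz.2 (mem_iUnion.2 ⟨Sum.inl false, i, hi, rfl, h.1, h.2⟩)
      · intro h
        exact hz.2 (mem_iUnion.2 ⟨Sum.inl true, i, hi, rfl, h.1, h.2⟩)
    · intro z hz o k hk
      subst hk
      intro h
      cases o with
      | none =>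
        obtain ⟨i, hi1, hi2⟩ := cover_window (c := a - 2 * n1) (k := k) (m := n j) (K := 10)
          (by omega) (by push_cast; omega)
        exact hz.2 (mem_iUnion.2 ⟨Sum.inr (Sum.inl i), 0, hM _, rfl, hi1, hi2⟩)
      | some e =>
        obtain ⟨i, hi1, hi2⟩ := cover_window (c := a - 2 * n1) (k := k) (m := n (j + 2)) (K := 5)
          (by omega) (by push_cast; omega)
        exact hz.2 (mem_iUnion.2 ⟨Sum.inr (Sum.inr (e, i)), 0, hM _, rfl, hi1, hi2⟩)

/-- The recursion for the supremum. -/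
theorem rec_FF {j r J : ℕ}
    (hnr : n (j + 1) = 4 * r) (hr : 1 ≤ r) (hp : dk p ≤ 1 / 2) (hM : ∀ j, 1 ≤ M j)
    (h1 : n (j + 1) ≤ 2 * n j) (h2 : n (j + 1) ≤ n (j + 2)) :
    FF p b M ℓ n J (j + 1) ≤
      2 * (2 * eps p b + (1 - xc p ^ (M (j + 1))) ^ r) * FF p b M ℓ n J (j + 1) +
      10 * Q p (ℓ j) (n j) * FF p b M ℓ n J j +
      5 * b * Q p (ℓ (j + 1)) (3 * n (j + 1)) * FF p b M ℓ n J (j + 2) +
      (b + 1) * ((3 * n (j + 1) : ℕ) * (2 * dk p ^ n (j + 1))) :=
  iSup₂_le fun _ hv => iSup_le fun a => rec_step hv hnr hr hp hM h1 h2 a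

end

end Pool.Agent.Helper57
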