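import Pool.Agent.Helper57.Params

open MeasureTheory ProbabilityTheory Set Filter
open scoped ENNReal Topology

namespace Pool.Agent.Helper57

noncomputable section

theorem rec_real {f t : ℕ → ℝ} {J : ℕ} {K α : ℝ} (hf0 : f 0 ≤ 1) (hJ : f (J + 1) = 0)
    (hfn : ∀ j, 0 ≤ f j)
    (hK : 0 < K) (hα : 8 * K * α ≤ 1) (ht : ∀ j, 4 * t (j + 1) ≤ (1 / (4 * K)) ^ (j + 1))
    (hrec : ∀ j, f (j + 1) ≤ 1 / 4 * f (j + 1) + α * f j + K * f (j + 2) + t (j + 1)) :
    f 1 ≤ 1 / (2 * K) := by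
  set r : ℝ := 1 / (4 * K) with hr
  have hr0 : 0 < r := by positivity
  have hKr : K * r = 1 / 4 := by rw [hr]; field_simp
  have hα2 : 2 * α ≤ r := by
    rw [hr, le_div_iff₀ (by positivity)]
    linarith
  have key : ∀ d j : ℕ, j + d = J → f (j + 1) ≤ r * f j + r ^ (j + 1) := by
    intro d
    induction d with
    | zero =>
      intro j hj
      rw [add_zero] at hj
      rw [hj, hJ]
      have := hfn J
      positivity
    | succ d ih =>
      intro j hj
      have h1 := ih (j + 1) (by omega)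
      have h2 := hrec j
      have h3 : K * f (j + 2) ≤ K * (r * f (j + 1) + r ^ (j + 2)) :=
        mul_le_mul_of_nonneg_left h1 hK.le
      have h4 : K * (r * f (j + 1) + r ^ (j + 2)) = 1 / 4 * f (j + 1) + 1 / 4 * r ^ (j + 1) := by
        rw [show r ^ (j + 2) = r * r ^ (j + 1) by ring]
        calc _ = (K * r) * f (j + 1) + (K * r) * r ^ (j + 1) := by ring
          _ = _ := by rw [hKr]
      have h5 := ht j
      have h6 : 2 * α * f j ≤ r * f j := mul_le_mul_of_nonneg_right hα2 (hfn j)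
      linarith
  rcases Nat.eq_zero_or_pos J with h0 | h0
  · subst h0
    rw [hJ]; positivity
  · have := key J 0 (by omega)
    have h2 : r * f 0 ≤ r * 1 := mul_le_mul_of_nonneg_left hf0 hr0.le
    have h3 : 1 / (2 * K) = 2 * r := by rw [hr]; field_simp; norm_num
    rw [h3]
    simp only [zero_add, pow_one] at this
    linarith

theorem exp_neg_four : Real.exp (-4) ≤ 1 / 16 := by
  have h1 : (2 : ℝ) ≤ Real.exp 1 := by
    have := Real.add_one_le_exp (1 : ℝ)
    linarith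
  have h2 : (16 : ℝ) ≤ Real.exp 4 := by
    calc (16 : ℝ) = 2 ^ 4 := by norm_num
      _ ≤ (Real.exp 1) ^ 4 := by gcongr
      _ = Real.exp 4 := by rw [← Real.exp_nat_mul]; norm_num
  rw [Real.exp_neg, ← one_div]
  exact one_div_le_one_div_of_le (by norm_num) h2

theorem eps_le : eps p0 b0 ≤ ENNReal.ofReal (1 / 2 ^ 16) := by
  have : eps p0 b0 = ENNReal.ofReal ((2 ^ 170 + 1) * (2 * (1 / 2 ^ 64 * (1 / 2 ^ 62) ^ 2))) := by
    rw [eps, dk_p0, p0_val]
    rw [ENNReal.ofReal_mul (by norm_num), ENNReal.ofReal_mul (by norm_num),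
      ENNReal.ofReal_mul (by norm_num), ENNReal.ofReal_pow (by norm_num)]
    congr 1
    · rw [ENNReal.ofReal_add (by norm_num) (by norm_num), ENNReal.ofReal_pow (by norm_num)]
      simp
    · simp
  rw [this]
  exact ENNReal.ofReal_le_ofReal (by norm_num)

variable {M h ℓ : ℕ → ℕ}

theorem gamma_le (g : Good M h ℓ) (j : ℕ) :
    2 * (2 * eps p0 b0 + (1 - xc p0 ^ (M j)) ^ (128 * h j)) ≤ ENNReal.ofReal (1 / 4) := by
  have hx : (0 : ℝ) ≤ x0 ^ (M j) := pow_nonneg x0_pos.le _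
  have hx1 : x0 ^ (M j) ≤ 1 := pow_le_one₀ x0_pos.le x0_lt.le
  have h1 : (1 - xc p0 ^ (M j)) ^ (128 * h j) ≤ ENNReal.ofReal (1 / 16) := by
    rw [xc_p0, ← ENNReal.ofReal_pow x0_pos.le, ← ENNReal.ofReal_one, ← ENNReal.ofReal_sub _ hx,
      ← ENNReal.ofReal_pow (by linarith)]
    refine ENNReal.ofReal_le_ofReal ?_
    calc (1 - x0 ^ (M j)) ^ (128 * h j) ≤ (Real.exp (-(x0 ^ (M j)))) ^ (128 * h j) := by
          gcongr
          exact Real.one_sub_le_exp_neg _
      _ = Real.exp (((128 * h j : ℕ) : ℝ) * (-(x0 ^ (M j)))) := by rw [← Real.exp_nat_mul]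
      _ ≤ Real.exp (-4) := by
          rw [Real.exp_le_exp]
          have := g.h_low j
          push_cast
          linarith
      _ ≤ 1 / 16 := exp_neg_four
  calc 2 * (2 * eps p0 b0 + (1 - xc p0 ^ (M j)) ^ (128 * h j))
      ≤ 2 * (2 * ENNReal.ofReal (1 / 2 ^ 16) + ENNReal.ofReal (1 / 16)) := by
        gcongr
        exact eps_le
    _ = ENNReal.ofReal (2 * (2 * (1 / 2 ^ 16) + 1 / 16)) := by
        rw [ENNReal.ofReal_mul (by norm_num), ENNReal.ofReal_add (by norm_num) (by norm_num),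
          ENNReal.ofReal_mul (by norm_num)]
        simp
    _ ≤ ENNReal.ofReal (1 / 4) := ENNReal.ofReal_le_ofReal (by norm_num)

theorem Qn_le (g : Good M h ℓ) (j m : ℕ) :
    Q p0 (ℓ j) (m * h j) ≤ ENNReal.ofReal (m * (1 / 2 ^ 104)) := by
  refine (Q_mul (g.l_pos j) (h j) m).trans ?_
  rw [ENNReal.ofReal_mul (by positivity), ENNReal.ofReal_natCast]
  gcongr
  exact g.Q_upp j

/-- the tiny error term -/
def tt (h : ℕ → ℕ) (j : ℕ) : ℝ :=
  (2 ^ 170 + 1) * ((3 * (512 * h j) : ℕ) * (2 * (1 / 2 ^ 62) ^ (512 * h j)))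

theorem tt_eq (h : ℕ → ℕ) (j : ℕ) :
    ((b0 : ℕ) + 1 : ℝ≥0∞) * ((3 * (512 * h j) : ℕ) * (2 * dk p0 ^ (512 * h j))) =
      ENNReal.ofReal (tt h j) := by
  rw [tt, dk_p0]
  rw [ENNReal.ofReal_mul (by norm_num), ENNReal.ofReal_mul (by positivity),
      ENNReal.ofReal_mul (by norm_num), ENNReal.ofReal_pow (by norm_num),
      ENNReal.ofReal_natCast]
  congr 1
  · rw [ENNReal.ofReal_add (by norm_num) (by norm_num), ENNReal.ofReal_pow (by norm_num)]
    simp
  · simp

theorem tt_le (g : Good M h ℓ) (j : ℕ) :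
    4 * tt h (j + 1) ≤ (1 / (4 * (7680 * 2 ^ 66))) ^ (j + 1) := by
  rw [tt]
  have hn : 2 * (j + 1) + 3 ≤ 512 * h (j + 1) := by
    have := g.h_pos (j + 1)
    omega
  set n := 512 * h (j + 1) with hn'
  have h1 : (n : ℝ) ≤ 2 ^ n := by exact_mod_cast Nat.lt_two_pow_self.le
  have h2 : (n : ℝ) * (1 / 2 ^ 62) ^ n ≤ (1 / 2 ^ 61) ^ n := by
    calc (n : ℝ) * (1 / 2 ^ 62) ^ n ≤ 2 ^ n * (1 / 2 ^ 62) ^ n := by gcongr
      _ = (1 / 2 ^ 61) ^ n := by rw [← mul_pow]; norm_num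
  have h3 : (1 / 2 ^ 61 : ℝ) ^ n ≤ (1 / 2 ^ 61) ^ (2 * (j + 1) + 3) :=
    pow_le_pow_of_le_one (by norm_num) (by norm_num) hn
  have h4 : (1 / 2 ^ 61 : ℝ) ^ (2 * (j + 1) + 3) = ((1 / 2 ^ 61) ^ 2) ^ (j + 1) * (1 / 2 ^ 61) ^ 3 := by
    rw [pow_add, pow_mul]
  have h5 : ((1 / 2 ^ 61 : ℝ) ^ 2) ^ (j + 1) ≤ (1 / (4 * (7680 * 2 ^ 66))) ^ (j + 1) := by
    gcongr ?_ ^ _
    norm_num
  have h6 : (0 : ℝ) ≤ (1 / (4 * (7680 * 2 ^ 66))) ^ (j + 1) := by positivity
  push_cast
  calc 4 * ((2 ^ 170 + 1) * (3 * (n : ℝ) * (2 * (1 / 2 ^ 62) ^ n)))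
      = (24 * (2 ^ 170 + 1)) * ((n : ℝ) * (1 / 2 ^ 62) ^ n) := by ring
    _ ≤ (24 * (2 ^ 170 + 1)) * ((1 / (4 * (7680 * 2 ^ 66))) ^ (j + 1) * (1 / 2 ^ 61) ^ 3) := by
        refine mul_le_mul_of_nonneg_left ?_ (by norm_num)
        refine (h2.trans h3).trans ?_
        rw [h4]
        gcongr
    _ = (24 * (2 ^ 170 + 1) * (1 / 2 ^ 61) ^ 3) * (1 / (4 * (7680 * 2 ^ 66))) ^ (j + 1) := by ring
    _ ≤ 1 * (1 / (4 * (7680 * 2 ^ 66))) ^ (j + 1) := by
        gcongr
        norm_num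
    _ = _ := one_mul _

/-- Upper bound: from level one it is unlikely to reach the root. -/
theorem upper_main (g : Good M h ℓ) (J : ℕ) :
    FF p0 b0 M ℓ (fun j => 512 * h j) J 1 ≤ ENNReal.ofReal (1 / 8) := by
  set F : ℕ → ℝ≥0∞ := FF p0 b0 M ℓ (fun j => 512 * h j) J with hF
  have hF1 : ∀ j, F j ≤ 1 := fun j => FF_le_one
  have hFt : ∀ j, F j ≠ ⊤ := fun j => ne_top_of_le_ne_top ENNReal.one_ne_top (hF1 j)
  set f : ℕ → ℝ := fun j => (F j).toReal with hf
  have hFf : ∀ j, F j = ENNReal.ofReal (f j) := fun j => (ENNReal.ofReal_toReal (hFt j)).symm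
  have hfn : ∀ j, 0 ≤ f j := fun j => ENNReal.toReal_nonneg
  have key := rec_real (f := f) (t := tt h) (J := J) (K := 7680 * 2 ^ 66)
    (α := 5120 / 2 ^ 104) ?_ ?_ hfn (by norm_num) (by norm_num) (tt_le g) ?_
  · rw [hFf]
    refine ENNReal.ofReal_le_ofReal (key.trans ?_)
    norm_num
  · have := ENNReal.toReal_mono ENNReal.one_ne_top (hF1 0)
    simpa using this
  · simp only [hf, hF, FF_top, ENNReal.toReal_zero]
  · intro j
    have hrec := rec_FF (p := p0) (b := b0) (M := M) (ℓ := ℓ) (n := fun j => 512 * h j) (j := j)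
      (r := 128 * h (j + 1)) (J := J) (by ring)
      (by have := g.h_pos (j + 1); omega) dk_p0_le
      (fun j => by have := g.M_ge j; omega)
      (by have := g.h_two j; omega)
      (by have := g.h_mono (j + 1); exact Nat.mul_le_mul_left _ this)
    have htn : 0 ≤ tt h (j + 1) := by unfold tt; positivity
    have h1 : F (j + 1) ≤ ENNReal.ofReal (1 / 4) * F (j + 1) +
        ENNReal.ofReal (5120 / 2 ^ 104) * F j + ENNReal.ofReal (7680 * 2 ^ 66) * F (j + 2) +
        ENNReal.ofReal (tt h (j + 1)) := by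
      refine hrec.trans ?_
      gcongr
      · exact gamma_le g (j + 1)
      · calc 10 * Q p0 (ℓ j) (512 * h j) ≤ 10 * ENNReal.ofReal ((512 : ℕ) * (1 / 2 ^ 104)) := by
              gcongr
              exact Qn_le g j 512
          _ = ENNReal.ofReal (10 * ((512 : ℕ) * (1 / 2 ^ 104))) := by
              rw [ENNReal.ofReal_mul (by norm_num : (0 : ℝ) ≤ 10)]
              simp
          _ = ENNReal.ofReal (5120 / 2 ^ 104) := by
              congr 1
              norm_num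
      · calc 5 * ((b0 : ℕ) : ℝ≥0∞) * Q p0 (ℓ (j + 1)) (3 * (512 * h (j + 1)))
            ≤ 5 * ((b0 : ℕ) : ℝ≥0∞) * ENNReal.ofReal ((1536 : ℕ) * (1 / 2 ^ 104)) := by
              gcongr
              have := Qn_le g (j + 1) 1536
              rw [show 3 * (512 * h (j + 1)) = 1536 * h (j + 1) by ring]
              exact this
          _ = ENNReal.ofReal (5 * 2 ^ 170 * ((1536 : ℕ) * (1 / 2 ^ 104))) := by
              rw [ENNReal.ofReal_mul (by norm_num : (0 : ℝ) ≤ 5 * 2 ^ 170),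
                ENNReal.ofReal_mul (by norm_num : (0 : ℝ) ≤ 5), ENNReal.ofReal_pow (by norm_num)]
              simp
          _ = ENNReal.ofReal (7680 * 2 ^ 66) := by
              congr 1
              norm_num
      · exact (tt_eq h (j + 1)).le
    rw [hFf (j + 1), hFf j, hFf (j + 2), ← ENNReal.ofReal_mul (by norm_num),
      ← ENNReal.ofReal_mul (by norm_num), ← ENNReal.ofReal_mul (by norm_num),
      ← ENNReal.ofReal_add (mul_nonneg (by norm_num) (hfn _)) (mul_nonneg (by norm_num) (hfn _)),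
      ← ENNReal.ofReal_add (add_nonneg (mul_nonneg (by norm_num) (hfn _))
        (mul_nonneg (by norm_num) (hfn _))) (mul_nonneg (by norm_num) (hfn _)),
      ← ENNReal.ofReal_add (add_nonneg (add_nonneg (mul_nonneg (by norm_num) (hfn _))
        (mul_nonneg (by norm_num) (hfn _))) (mul_nonneg (by norm_num) (hfn _))) htn,
      ENNReal.ofReal_le_ofReal_iff] at h1
    · exact h1
    · exact add_nonneg (add_nonneg (add_nonneg (mul_nonneg (by norm_num) (hfn _))
        (mul_nonneg (by norm_num) (hfn _))) (mul_nonneg (by norm_num) (hfn _))) htn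

end

end Pool.Agent.Helper57
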